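import Pool.Agent.HB.H.LB

/-!
# HB.H.AvgEx: every block subspace contains long sequences with the maximal growth of averages

PROOF.  `W = WW p H i0`.  Suppose the claim fails: (*) for all `x : ℕ → CV` with values in `Sp u`, supports in `[a, ∞)`, successive, `IN W (x q) ≤ 1`
(`q < n`): `IN W (∑_{q<n} x q)³ < n/64`.
Claim(A): for all such families of length `n^A`: `IN W (∑_{r<n^A} x r)³ ≤ (n/64)^A`.  `A = 0`: `IN ≤ 1`.  `A → A+1`: `y s = ∑_{q<n} x (n s + q)`, `s < n^A`
(`Finset.sum` over `range (n^A * n)` as a double sum), `IN W (y s)³ < n/64 = λ³`, so the family `λ⁻¹ • y s` satisfies Claim(A):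
`IN W (∑ y)³ ≤ λ³ (n/64)^A`.
Lower estimate: choose `c'` with `n ≤ p.n c'`, `c = c' + 1`, `A = 4 M_c`; `n^A ≤ (2^{N_{c'}})^{4M_c} = 2^{N_c} = p.n c`.  Take `x r = (IN W (u k))⁻¹ • u k`, `k = k0 + r`,
`k0` so large that `u k` is supported in `[a,∞)` for `k ≥ k0` (`min supp u_k ≥ k`).  `lb_lemma`: `n^A ≤ 125 m_c (n/64)^A`, so
`2^{24 M_c} = 64^A ≤ 125 · 2^{M_c}`, false since `M_c ≥ 100`.
-/

open Finset Polynomial

namespace Pool.Agent.HB

private theorem sum_blocks' (g : ℕ → CV) (c A : ℕ) :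
    ∑ n ∈ range (c * A), g n = ∑ a ∈ range A, ∑ b ∈ range c, g (c * a + b) := by
  induction A with
  | zero => simp
  | succ A ih => rw [Nat.mul_succ, Finset.sum_range_add, ih, Finset.sum_range_succ]

private theorem lt_sum_left {ι : Type} (s : Finset ι) (x : ι → CV) (y : CV)
    (h : ∀ i ∈ s, Lt (x i) y) : Lt (∑ i ∈ s, x i) y := by
  classical
  intro i hi j hj
  have h1 := Finsupp.support_finsetSum hi
  rw [Finset.mem_biUnion] at h1
  obtain ⟨k, hk, hk'⟩ := h1
  exact h k hk i hk' j hj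

private theorem lt_sum_right {ι : Type} (s : Finset ι) (x : CV) (y : ι → CV)
    (h : ∀ i ∈ s, Lt x (y i)) : Lt x (∑ i ∈ s, y i) := by
  classical
  intro i hi j hj
  have h1 := Finsupp.support_finsetSum hj
  rw [Finset.mem_biUnion] at h1
  obtain ⟨k, hk, hk'⟩ := h1
  exact h k hk i hi j hk'

private theorem supp_rsmul (a : ℝ) (x : CV) : (a • x).support ⊆ x.support :=
  Finsupp.support_smul

private theorem lt_rsmul {x y : CV} (a b : ℝ) (h : Lt x y) : Lt (a • x) (b • y) :=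
  fun i hi j hj => h i (supp_rsmul _ _ hi) j (supp_rsmul _ _ hj)

private theorem blk_supp {u : ℕ → CV} (hu : Blk u) (k : ℕ) : ∀ i ∈ (u k).support, k ≤ i := by
  induction k with
  | zero => exact fun i _ => Nat.zero_le i
  | succ k ih =>
    intro i hi
    have h1 : (u k).support.Nonempty := Finsupp.support_nonempty_iff.2 (hu.ne k)
    obtain ⟨j, hj⟩ := h1
    have h2 := ih j hj
    have h3 := hu.lt k (k + 1) (Nat.lt_succ_self k) j hj i hi
    omega

theorem avg_exists (p : Par) (H : ℕ → Pol) (i0 : ℕ) (u : ℕ → CV) (hu : Blk u) (n a : ℕ)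
    (hn : 1 ≤ n) :
    ∃ x : ℕ → CV, (∀ q < n, x q ∈ Sp u) ∧ (∀ q < n, IN (WW p H i0) (x q) ≤ 1) ∧
      (∀ q < n, ∀ q' < n, q < q' → Lt (x q) (x q')) ∧ (∀ q < n, ∀ i ∈ (x q).support, a ≤ i) ∧
      (n : ℝ) ≤ 64 * IN (WW p H i0) (∑ q ∈ range n, x q) ^ 3 := by
  have hW : Fam (WW p H i0) := fam_WW p H i0
  by_contra hcon
  have hn0 : (0 : ℝ) < n := by exact_mod_cast hn
  have hstar : ∀ x : ℕ → CV, (∀ q < n, x q ∈ Sp u) → (∀ q < n, IN (WW p H i0) (x q) ≤ 1) →
      (∀ q < n, ∀ q' < n, q < q' → Lt (x q) (x q')) → (∀ q < n, ∀ i ∈ (x q).support, a ≤ i) →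
      IN (WW p H i0) (∑ q ∈ range n, x q) ^ 3 < n / 64 := by
    intro x h1 h2 h3 h4
    by_contra h5
    push Not at h5
    exact hcon ⟨x, h1, h2, h3, h4, by linarith⟩
  set lam : ℝ := ((n : ℝ) / 64) ^ (((3 : ℕ) : ℝ)⁻¹) with hlam
  have hlam3 : lam ^ 3 = n / 64 := Real.rpow_inv_natCast_pow (by positivity) (by norm_num)
  have hlam0 : 0 < lam := by positivity
  -- submultiplicativity
  have claim : ∀ (A : ℕ) (x : ℕ → CV), (∀ q < n ^ A, x q ∈ Sp u) →
      (∀ q < n ^ A, IN (WW p H i0) (x q) ≤ 1) →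
      (∀ q < n ^ A, ∀ q' < n ^ A, q < q' → Lt (x q) (x q')) →
      (∀ q < n ^ A, ∀ i ∈ (x q).support, a ≤ i) →
      IN (WW p H i0) (∑ q ∈ range (n ^ A), x q) ^ 3 ≤ ((n : ℝ) / 64) ^ A := by
    intro A
    induction A with
    | zero =>
      intro x h1 h2 h3 h4
      rw [pow_zero, pow_zero, Finset.sum_range_one]
      exact pow_le_one₀ (IN_nonneg hW _) (h2 0 (by simp))
    | succ A ih =>
      intro x h1 h2 h3 h4
      have hidx : ∀ s < n ^ A, ∀ q < n, n * s + q < n ^ (A + 1) := by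
        intro s hs q hq
        calc n * s + q < n * s + n := by omega
          _ = n * (s + 1) := by ring
          _ ≤ n * n ^ A := Nat.mul_le_mul_left _ hs
          _ = n ^ (A + 1) := by rw [pow_succ]; ring
      set y : ℕ → CV := fun s => ∑ q ∈ range n, x (n * s + q) with hy
      have hy1 : ∀ s < n ^ A, IN (WW p H i0) (y s) ^ 3 < n / 64 := by
        intro s hs
        refine hstar (fun q => x (n * s + q)) (fun q hq => h1 _ (hidx s hs q hq))
          (fun q hq => h2 _ (hidx s hs q hq)) (fun q hq q' hq' hqq' => ?_)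
          (fun q hq => h4 _ (hidx s hs q hq))
        exact h3 _ (hidx s hs q hq) _ (hidx s hs q' hq') (by omega)
      have hy2 : ∀ s < n ^ A, IN (WW p H i0) (y s) ≤ lam := by
        intro s hs
        have := hy1 s hs
        rw [← hlam3] at this
        exact (lt_of_pow_lt_pow_left₀ 3 hlam0.le this).le
      have hz := ih (fun s => lam⁻¹ • y s) ?_ ?_ ?_ ?_
      · have hsum : ∑ q ∈ range (n ^ (A + 1)), x q = lam • ∑ s ∈ range (n ^ A), lam⁻¹ • y s := by
          rw [← Finset.smul_sum, smul_smul, mul_inv_cancel₀ hlam0.ne', one_smul, hy, pow_succ,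
            mul_comm, sum_blocks']
        rw [hsum, IN_rsmul hW, abs_of_pos hlam0, mul_pow, hlam3, pow_succ, mul_comm]
        exact mul_le_mul_of_nonneg_right hz (by positivity)
      · intro s hs
        refine Submodule.smul_mem _ _ (Submodule.sum_mem _ fun q hq => ?_)
        exact h1 _ (hidx s hs q (mem_range.1 hq))
      · intro s hs
        rw [IN_rsmul hW, abs_of_pos (inv_pos.2 hlam0)]
        calc lam⁻¹ * IN (WW p H i0) (y s) ≤ lam⁻¹ * lam :=
              mul_le_mul_of_nonneg_left (hy2 s hs) (inv_pos.2 hlam0).le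
          _ = 1 := inv_mul_cancel₀ hlam0.ne'
      · intro s hs s' hs' hss'
        refine lt_rsmul _ _ (lt_sum_left _ _ _ fun q hq => lt_sum_right _ _ _ fun q' hq' => ?_)
        rw [mem_range] at hq hq'
        refine h3 _ (hidx s hs q hq) _ (hidx s' hs' q' hq') ?_
        calc n * s + q < n * s + n := by omega
          _ = n * (s + 1) := by ring
          _ ≤ n * s' := Nat.mul_le_mul_left _ hss'
          _ ≤ n * s' + q' := Nat.le_add_right _ _
      · intro s hs i hi
        have h5 := supp_rsmul _ _ hi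
        have h6 := Finsupp.support_finsetSum h5
        rw [Finset.mem_biUnion] at h6
        obtain ⟨q, hq, hq'⟩ := h6
        exact h4 _ (hidx s hs q (mem_range.1 hq)) i hq'
  -- the lower estimate
  set A : ℕ := 4 * p.M (n + 1) with hA
  have hnN : n ≤ 2 ^ p.N n :=
    (par_N_mono p).le_apply.trans (Nat.lt_two_pow_self).le
  have hM : n ^ A ≤ p.n (n + 1) := by
    unfold Par.n
    rw [p.hN n]
    calc n ^ A ≤ (2 ^ p.N n) ^ A := Nat.pow_le_pow_left hnN _
      _ = 2 ^ (4 * p.N n * p.M (n + 1)) := by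
          rw [← pow_mul, hA]
          congr 1
          ring
  have hpos : ∀ k, 0 < IN (WW p H i0) (u k) := fun k => IN_pos hW (hu.ne k)
  set x : ℕ → CV := fun r => (IN (WW p H i0) (u (a + r)))⁻¹ • u (a + r) with hx
  have hx1 : ∀ r, IN (WW p H i0) (x r) = 1 := by
    intro r
    simp only [hx]
    rw [IN_rsmul hW, abs_of_pos (inv_pos.2 (hpos _)), inv_mul_cancel₀ (hpos _).ne']
  have hxlt : ∀ r r', r < r' → Lt (x r) (x r') := fun r r' h =>
    lt_rsmul _ _ (hu.lt _ _ (by omega))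
  have hub := claim A x
    (fun q _ => Submodule.smul_mem _ _ (Submodule.subset_span ⟨_, rfl⟩))
    (fun q _ => (hx1 q).le) (fun q _ q' _ h => hxlt q q' h)
    (fun q _ i hi => (Nat.le_add_right a q).trans (blk_supp hu (a + q) i (supp_rsmul _ _ hi)))
  have hlb := lb_lemma p H i0 (n + 1) (n ^ A) hM x (fun r _ r' _ h => hxlt r r' h)
    (fun r _ => (hx1 r).ge)
  have hm0 := par_m_pos p (n + 1)
  have h1 : ((n ^ A : ℕ) : ℝ) ≤ 125 * p.m (n + 1) * ((n : ℝ) / 64) ^ A :=
    hlb.trans (mul_le_mul_of_nonneg_left hub (by positivity))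
  rw [div_pow, Nat.cast_pow] at h1
  have hnA : (0 : ℝ) < (n : ℝ) ^ A := by positivity
  have h2 : (64 : ℝ) ^ A ≤ 125 * p.m (n + 1) := by
    have h3 : (n : ℝ) ^ A * 64 ^ A ≤ (n : ℝ) ^ A * (125 * p.m (n + 1)) := by
      calc (n : ℝ) ^ A * 64 ^ A ≤ (125 * p.m (n + 1) * ((n : ℝ) ^ A / 64 ^ A)) * 64 ^ A :=
            mul_le_mul_of_nonneg_right h1 (by positivity)
        _ = (n : ℝ) ^ A * (125 * p.m (n + 1)) := by
            have : (64 : ℝ) ^ A ≠ 0 := by positivity
            field_simp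
    exact le_of_mul_le_mul_left h3 hnA
  have h4 : (64 : ℝ) ^ A = 2 ^ (24 * p.M (n + 1)) := by
    rw [hA]
    have : (64 : ℝ) = 2 ^ 6 := by norm_num
    rw [this, ← pow_mul]
    congr 1
    ring
  rw [h4] at h2
  have h5 : 125 * p.m (n + 1) < 2 ^ (p.M (n + 1) + 7) := by
    have e : p.m (n + 1) = 2 ^ p.M (n + 1) := rfl
    rw [e, pow_add]
    have : (0 : ℝ) < 2 ^ p.M (n + 1) := by positivity
    norm_num
    linarith
  have h6 : (2 : ℝ) ^ (p.M (n + 1) + 7) ≤ 2 ^ (24 * p.M (n + 1)) :=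
    pow_le_pow_right₀ (by norm_num) (by have := par_M_ge p (n + 1); omega)
  linarith

end Pool.Agent.HB
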