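import Pool.Agent.HB.H.Pair

/-!
# HB.H.Special: special sequences

PROOF.  By induction on `L ≤ p.n (lc j)` there are `x, F, ν, a, b` satisfying all the conditions of `Spec` with `p.n (lc j)` replaced by `L` in the
quantifiers (`val` for `l ≤ L`, the others for indices `< L`).  Step: `σ = nodeL ν L`, `code j σ = 2 (j + encode σ) + 3`; take
`a' = max (mu H j σ) (sup of the b l, l < L)`, apply `exact_pair` with `j0 = j + encode σ`, `u` or `v` according to the parity of `L`, starting at `a'`;
update the sequences at `L` (`nodeL` of the updated sequence agrees for lengths `≤ L`).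
`Val p H j (n :: σ)`: length; supports `≥ a' ≥ mu H j σ`; for `Arc p j τ` (every `τ` on the circle is some `zz t`, surjectivity of `toCircle`) all arcs containing
`τ` are the arc `j` (`arc_unique`) and `lc j < code j σ` (`lc_lt_code`), so `g1` gives the bound by `Lc p (code j σ)`.
-/

open Finset Polynomial

namespace Pool.Agent.HB

private theorem zz_surj {τ : ℂ} (hτ : ‖τ‖ = 1) : ∃ t : TC, zz t = τ := by
  obtain ⟨t, ht⟩ := (AddCircle.homeomorphCircle (T := (1 : ℝ)) one_ne_zero).surjective
    ⟨τ, by show τ ∈ Metric.sphere (0 : ℂ) 1; simpa using hτ⟩
  refine ⟨t, ?_⟩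
  rw [AddCircle.homeomorphCircle_apply] at ht
  unfold zz
  rw [ht]

private theorem nodeL_congr {ν ν' : ℕ → ℕ} {l : ℕ} (h : ∀ i < l, ν i = ν' i) :
    nodeL ν l = nodeL ν' l := by
  induction l with
  | zero => rfl
  | succ l ih =>
    show ν l :: nodeL ν l = ν' l :: nodeL ν' l
    rw [ih fun i hi => h i (by omega), h l (by omega)]

private theorem nodeL_length (ν : ℕ → ℕ) (l : ℕ) : (nodeL ν l).length = l := by
  induction l with
  | zero => rfl
  | succ l ih =>
    show (ν l :: nodeL ν l).length = l + 1
    rw [List.length_cons, ih]

theorem special_exists (p : Par) (H : ℕ → Pol) (hH : DenseEnum H) (j : ℕ) (u v : ℕ → CV)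
    (hu : Blk u) (hv : Blk v) {ε : ℝ} (hε : 0 < ε) :
    ∃ (x : ℕ → CV) (F : ℕ → Pol) (ν a b : ℕ → ℕ), Spec p H j ε u v x F ν a b := by
  have main : ∀ L : ℕ, L ≤ p.n (lc j) →
      ∃ (x : ℕ → CV) (F : ℕ → Pol) (ν a b : ℕ → ℕ),
        (∀ l ≤ L, Val p H j (nodeL ν l)) ∧
        (∀ l < L, ExP p H (code j (nodeL ν l)) ε (a l) (b l) (x l) (F l) (ν l)) ∧
        (∀ l < L, a l ≤ b l) ∧
        (∀ l l', l < l' → l' < L → b l ≤ a l') ∧
        (∀ l < L, mu H j (nodeL ν l) ≤ a l) ∧
        (∀ l < L, Even l → x l ∈ Sp u) ∧
        (∀ l < L, ¬ Even l → x l ∈ Sp v) := by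
    intro L
    induction L with
    | zero =>
      intro _
      refine ⟨fun _ => 0, fun _ => 0, fun _ => 0, fun _ => 0, fun _ => 0, ?_, ?_, ?_, ?_, ?_, ?_, ?_⟩
      · intro l hl
        obtain rfl : l = 0 := by omega
        exact trivial
      all_goals intros; omega
    | succ L ih =>
      intro hL
      obtain ⟨x, F, ν, a, b, h1, h2, h3, h4, h5, h6, h7⟩ := ih (by omega)
      set σ := nodeL ν L with hσ
      obtain ⟨x', F', n', b', hx', hab', hE⟩ := exact_pair p H hH (j + Encodable.encode σ)
        (if Even L then u else v) (by split_ifs <;> assumption)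
        (mu H j σ + ∑ l ∈ range L, b l) hε
      set a' := mu H j σ + ∑ l ∈ range L, b l with ha'
      have hcode : code j σ = 2 * (j + Encodable.encode σ) + 3 := rfl
      rw [← hcode] at hE
      have hν : ∀ l ≤ L, nodeL (Function.update ν L n') l = nodeL ν l := fun l hl =>
        nodeL_congr fun i hi => Function.update_of_ne (by omega) _ _
      have hV : Val p H j (n' :: σ) := by
        refine ⟨h1 L le_rfl, ?_, ?_, ?_⟩
        · rw [hσ, nodeL_length]
          exact hL
        · intro i hi
          have := (hE.sH i hi).1
          omega
        · intro τ hτ y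
          obtain ⟨t, rfl⟩ := zz_surj hτ.1
          refine hE.g1 t (fun i hi => ?_) y
          rw [arc_unique p hi hτ]
          exact lc_lt_code j σ
      refine ⟨Function.update x L x', Function.update F L F', Function.update ν L n',
        Function.update a L a', Function.update b L b', ?_, ?_, ?_, ?_, ?_, ?_, ?_⟩
      · intro l hl
        rcases Nat.lt_or_ge L l with h | h
        · obtain rfl : l = L + 1 := by omega
          show Val p H j (Function.update ν L n' L :: nodeL (Function.update ν L n') L)
          rw [Function.update_self, hν L le_rfl]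
          exact hV
        · rw [hν l h]
          exact h1 l h
      · intro l hl
        rw [hν l (by omega)]
        rcases Nat.lt_or_ge l L with h | h
        · rw [Function.update_of_ne h.ne, Function.update_of_ne h.ne, Function.update_of_ne h.ne,
            Function.update_of_ne h.ne, Function.update_of_ne h.ne]
          exact h2 l h
        · obtain rfl : l = L := by omega
          simp only [Function.update_self]
          exact hE
      · intro l hl
        rcases Nat.lt_or_ge l L with h | h
        · rw [Function.update_of_ne h.ne, Function.update_of_ne h.ne]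
          exact h3 l h
        · obtain rfl : l = L := by omega
          simp only [Function.update_self]
          exact hab'
      · intro l l' hll hl'
        have hlL : l < L := by omega
        rw [Function.update_of_ne hlL.ne]
        rcases Nat.lt_or_ge l' L with h | h
        · rw [Function.update_of_ne h.ne]
          exact h4 l l' hll h
        · obtain rfl : l' = L := by omega
          rw [Function.update_self]
          have : b l ≤ ∑ l ∈ range l', b l :=
            Finset.single_le_sum (f := b) (fun i _ => Nat.zero_le _) (Finset.mem_range.2 hlL)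
          omega
      · intro l hl
        rw [hν l (by omega)]
        rcases Nat.lt_or_ge l L with h | h
        · rw [Function.update_of_ne h.ne]
          exact h5 l h
        · obtain rfl : l = L := by omega
          rw [Function.update_self, ← hσ]
          omega
      · intro l hl he
        rcases Nat.lt_or_ge l L with h | h
        · rw [Function.update_of_ne h.ne]
          exact h6 l h he
        · obtain rfl : l = L := by omega
          rw [Function.update_self]
          rwa [if_pos he] at hx'
      · intro l hl he
        rcases Nat.lt_or_ge l L with h | h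
        · rw [Function.update_of_ne h.ne]
          exact h7 l h he
        · obtain rfl : l = L := by omega
          rw [Function.update_self]
          rwa [if_neg he] at hx'
  obtain ⟨x, F, ν, a, b, h1, h2, h3, h4, h5, h6, h7⟩ := main (p.n (lc j)) le_rfl
  exact ⟨x, F, ν, a, b, ⟨h1, h2, h3, h4, h5, h6, h7⟩⟩

end Pool.Agent.HB
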