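import Pool.Agent.HB.H.ExLem
import Pool.Agent.HB.T.Ris

/-!
# HB.H.Upper2: the lattice norm of weighted sums of a special sequence

`n = p.n (lc j)`, `m = p.m (lc j)`, `c_l = code j (nodeL ν l)` (distinct for `l < n`: `code_inj`, lengths), `lc j = (2 j + 1) + 1`.
PROOF.  Let `γ ∈ Gam p`.  For `l < n` choose `w l` from `ExVec` (`hS.ep l`, `.ex t`) for `γ` (`w l = 0` for `l ≥ n`).  The supports of the `ev (zz t) (F l)` are
disjoint (`sF`, `ba`), so (`Phi_disj`, `Phi_smul`) `Phi γ V ≤ 76³ ∑_l √(2·10⁶ dot γ (w l))` and Cauchy-Schwarz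
`(∑_l √(dot γ (w l)))² ≤ n ∑_l dot γ (w l) = n dot γ (∑ w l) ≤ n TT p (∑ w l)` (`dot_gam_le`).
RIS with `K = 20`, `I = range n`, `Hom l = {c_l}` , `ε l c = if c_l < c then Tc p c (w l) else 0`: `succ` from the supports in `[a l, b l)`; `good`: `c < c_l`: `≤ 14/m_c`;
`eps`: `√(∑_{c∈C} ε²) = √(∑_{c∈C, c_l < c} Tc²) ≤ 6/m_{c_l}` and `∑_l 6/m_{c_l} ≤ 6/20` (`par_sum_inv` for the image of `l ↦ c_l`).
`ris` at `2j+1`: `TT p (∑ w l) ≤ 100 (n/m + n^{1-1/N})`, `N = p.N (2j+1)`, and `n^{1/N} = m^4 ≥ m` (`par_pow_succ`), so `≤ 200 n/m`.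
Hence `Phi γ V ≤ 76³ √(2·10⁶ · n · 200 n/m) = 76³ · 2·10⁴ · n/√m`; sup (`LG_cube_le`).
-/

open Finset Polynomial

namespace Pool.Agent.HB

private theorem u2_nodeL_length (ν : ℕ → ℕ) (l : ℕ) : (nodeL ν l).length = l := by
  induction l with
  | zero => rfl
  | succ l ih => rw [nodeL, List.length_cons, ih]

private theorem u2_code_ne (j : ℕ) (ν : ℕ → ℕ) {l l' : ℕ} (h : l ≠ l') :
    code j (nodeL ν l) ≠ code j (nodeL ν l') := by
  intro h1
  have h2 := congrArg List.length (code_inj j h1)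
  rw [u2_nodeL_length, u2_nodeL_length] at h2
  exact h h2

theorem Lf_bound {p : Par} {H : ℕ → Pol} {j : ℕ} {ε : ℝ} {u v x : ℕ → CV} {F : ℕ → Pol}
    {ν a b : ℕ → ℕ} (hS : Spec p H j ε u v x F ν a b) (t : TC)
    (θ : ℕ → ℂ) (hθ : ∀ l < p.n (lc j), ‖θ l‖ ≤ 76) :
    Lf p (∑ l ∈ range (p.n (lc j)), θ l • ev (zz t) (F l)) ^ 3 ≤
      76 ^ 3 * (2 * 10 ^ 4) * (p.n (lc j) : ℝ) / √(p.m (lc j)) := by
  classical
  have hm : 0 < p.m (lc j) := par_m_pos p (lc j)
  have hm1 : 1 ≤ p.m (lc j) := le_trans (by norm_num) (par_m_ge p (lc j))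
  have hn : (0 : ℝ) < p.n (lc j) := by exact_mod_cast par_n_pos p (lc j)
  refine LG_cube_le (good_gam p) fun γ hγ => ?_
  have hγ0 : 0 ≤ γ := hγ.1
  have hex : ∀ l, l < p.n (lc j) → ∃ w : RV, 0 ≤ w ∧ (∀ i ∈ w.support, a l ≤ i ∧ i < b l) ∧
      (Phi γ (ev (zz t) (F l))) ^ 2 ≤ 2 * 10 ^ 6 * dot γ w ∧ TT p w ≤ 20 ∧
      (∀ c' < code j (nodeL ν l), Tc p c' w ≤ 14 / p.m c') ∧
      ∀ C : Finset ℕ, (∀ c' ∈ C, code j (nodeL ν l) < c') →
        √(∑ c' ∈ C, Tc p c' w ^ 2) ≤ 6 / p.m (code j (nodeL ν l)) :=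
    fun l hl => (hS.ep l hl).ex t γ hγ0
  choose! w hw0 hws hwP hwT hwc hwC using hex
  -- the RIS
  have hR : RIS p 20 (range (p.n (lc j))) w (fun l => {code j (nodeL ν l)})
      (fun l c => if code j (nodeL ν l) < c then Tc p c (w l) else 0) := by
    refine ⟨?_, ?_, ?_, ?_, ?_, ?_, ?_⟩
    · intro l hl
      exact hw0 l (mem_range.1 hl)
    · intro l hl l' hl' hll i hi i' hi'
      have h1 := (hws l (mem_range.1 hl) i hi).2
      have h2 := (hws l' (mem_range.1 hl') i' hi').1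
      have h3 := hS.ba l l' hll (mem_range.1 hl')
      omega
    · intro l hl
      exact hwT l (mem_range.1 hl)
    · intro l hl c hc
      rw [Finset.mem_singleton] at hc
      have hmc := par_m_pos p c
      rcases lt_or_gt_of_ne hc with h | h
      · rw [if_neg (by omega), add_zero]
        refine (hwc l (mem_range.1 hl) c h).trans ?_
        exact div_le_div_of_nonneg_right (by norm_num) hmc.le
      · rw [if_pos h]
        have : 0 ≤ 20 / p.m c := by positivity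
        linarith
    · intro l _ l' _ hne
      rw [Finset.disjoint_singleton]
      exact u2_code_ne j ν hne
    · intro l c
      split_ifs
      · exact Tc_nonneg c _
      · exact le_rfl
    · intro C
      have h1 : ∀ l ∈ range (p.n (lc j)),
          √(∑ c ∈ C, (if code j (nodeL ν l) < c then Tc p c (w l) else 0) ^ 2) ≤
            6 * (1 / p.m (code j (nodeL ν l))) := by
        intro l hl
        have h2 : ∑ c ∈ C, (if code j (nodeL ν l) < c then Tc p c (w l) else 0) ^ 2 =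
            ∑ c ∈ C.filter (fun c => code j (nodeL ν l) < c), Tc p c (w l) ^ 2 := by
          rw [Finset.sum_filter]
          refine Finset.sum_congr rfl fun c _ => ?_
          split_ifs
          · rfl
          · norm_num
        rw [h2]
        refine (hwC l (mem_range.1 hl) _ fun c hc => (Finset.mem_filter.1 hc).2).trans ?_
        rw [mul_one_div]
      refine (Finset.sum_le_sum h1).trans ?_
      rw [← Finset.mul_sum]
      have h3 : ∑ l ∈ range (p.n (lc j)), 1 / p.m (code j (nodeL ν l)) =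
          ∑ c ∈ (range (p.n (lc j))).image (fun l => code j (nodeL ν l)), 1 / p.m c := by
        rw [Finset.sum_image]
        intro l _ l' _ h
        by_contra hne
        exact u2_code_ne j ν hne h
      rw [h3]
      have h4 := par_sum_inv p ((range (p.n (lc j))).image (fun l => code j (nodeL ν l)))
      linarith
  have hris : TT p (∑ l ∈ range (p.n (lc j)), w l) ≤ 200 * (p.n (lc j) : ℝ) / p.m (lc j) := by
    have h1 := ris hR (2 * j + 1)
    rw [Finset.card_range] at h1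
    have hlc : 2 * j + 1 + 1 = lc j := rfl
    rw [hlc] at h1
    have h2 := par_pow_succ p (2 * j + 1)
    rw [hlc] at h2
    have h3 : (p.n (lc j) : ℝ) ^ (1 - 1 / (p.N (2 * j + 1) : ℝ)) =
        (p.n (lc j) : ℝ) / p.m (lc j) ^ 4 := by
      rw [Real.rpow_sub hn, Real.rpow_one, h2]
    rw [h3] at h1
    have h4 : (p.n (lc j) : ℝ) / p.m (lc j) ^ 4 ≤ (p.n (lc j) : ℝ) / p.m (lc j) := by
      apply div_le_div_of_nonneg_left hn.le hm
      exact le_self_pow₀ hm1 (by norm_num)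
    calc TT p (∑ l ∈ range (p.n (lc j)), w l)
        ≤ 5 * 20 * ((p.n (lc j) : ℝ) / p.m (lc j) + (p.n (lc j) : ℝ) / p.m (lc j) ^ 4) := h1
      _ ≤ 5 * 20 * ((p.n (lc j) : ℝ) / p.m (lc j) + (p.n (lc j) : ℝ) / p.m (lc j)) := by
          apply mul_le_mul_of_nonneg_left _ (by norm_num)
          linarith
      _ = 200 * (p.n (lc j) : ℝ) / p.m (lc j) := by ring
  -- the sum of the Phi
  have hdisj : ∀ l ∈ range (p.n (lc j)), ∀ l' ∈ range (p.n (lc j)), l ≠ l' →
      Disjoint (θ l • ev (zz t) (F l)).support (θ l' • ev (zz t) (F l')).support := by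
    have hsub : ∀ l ∈ range (p.n (lc j)), ∀ i ∈ (θ l • ev (zz t) (F l)).support,
        a l ≤ i ∧ i < b l := by
      intro l hl i hi
      exact (hS.ep l (mem_range.1 hl)).sF i (ev_support _ _ (Finsupp.support_smul hi))
    intro l hl l' hl' hne
    rw [Finset.disjoint_left]
    intro i hi hi'
    have h1 := hsub l hl i hi
    have h2 := hsub l' hl' i hi'
    rcases lt_or_gt_of_ne hne with h | h
    · have := hS.ba l l' h (mem_range.1 hl')
      omega
    · have := hS.ba l' l h (mem_range.1 hl)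
      omega
  rw [Phi_disj (range (p.n (lc j))) (fun l => θ l • ev (zz t) (F l)) hdisj γ]
  have hstep : ∑ l ∈ range (p.n (lc j)), Phi γ (θ l • ev (zz t) (F l)) ≤
      76 ^ 3 * ∑ l ∈ range (p.n (lc j)), Phi γ (ev (zz t) (F l)) := by
    rw [Finset.mul_sum]
    refine Finset.sum_le_sum fun l hl => ?_
    rw [Phi_smul]
    exact mul_le_mul_of_nonneg_right
      (pow_le_pow_left₀ (norm_nonneg _) (hθ l (mem_range.1 hl)) 3) (Phi_nonneg _ _)
  have hdot : dot γ (∑ l ∈ range (p.n (lc j)), w l) ≤ 200 * (p.n (lc j) : ℝ) / p.m (lc j) := by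
    refine (dot_gam_le hγ ?_).trans hris
    intro k
    rw [Finsupp.finsetSum_apply]
    exact Finset.sum_nonneg fun l hl => hw0 l (mem_range.1 hl) k
  have hsq : (∑ l ∈ range (p.n (lc j)), Phi γ (ev (zz t) (F l))) ^ 2 ≤
      (2 * 10 ^ 4 * (p.n (lc j) : ℝ) / √(p.m (lc j))) ^ 2 := by
    have h1 : (∑ l ∈ range (p.n (lc j)), Phi γ (ev (zz t) (F l))) ^ 2 ≤
        (p.n (lc j) : ℝ) * ∑ l ∈ range (p.n (lc j)), Phi γ (ev (zz t) (F l)) ^ 2 := by
      have := sq_sum_le_card_mul_sum_sq (s := range (p.n (lc j)))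
        (f := fun l => Phi γ (ev (zz t) (F l)))
      rwa [Finset.card_range] at this
    have h2 : ∑ l ∈ range (p.n (lc j)), Phi γ (ev (zz t) (F l)) ^ 2 ≤
        2 * 10 ^ 6 * dot γ (∑ l ∈ range (p.n (lc j)), w l) := by
      rw [dot_sum_right, Finset.mul_sum]
      exact Finset.sum_le_sum fun l hl => hwP l (mem_range.1 hl)
    calc (∑ l ∈ range (p.n (lc j)), Phi γ (ev (zz t) (F l))) ^ 2
        ≤ (p.n (lc j) : ℝ) * ∑ l ∈ range (p.n (lc j)), Phi γ (ev (zz t) (F l)) ^ 2 := h1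
      _ ≤ (p.n (lc j) : ℝ) * (2 * 10 ^ 6 * (200 * (p.n (lc j) : ℝ) / p.m (lc j))) := by
          apply mul_le_mul_of_nonneg_left _ hn.le
          refine h2.trans ?_
          exact mul_le_mul_of_nonneg_left hdot (by norm_num)
      _ = (2 * 10 ^ 4 * (p.n (lc j) : ℝ) / √(p.m (lc j))) ^ 2 := by
          rw [div_pow, Real.sq_sqrt hm.le]
          ring
  have hfin := abs_le_of_sq_le_sq' hsq (by positivity)
  calc ∑ l ∈ range (p.n (lc j)), Phi γ (θ l • ev (zz t) (F l))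
      ≤ 76 ^ 3 * ∑ l ∈ range (p.n (lc j)), Phi γ (ev (zz t) (F l)) := hstep
    _ ≤ 76 ^ 3 * (2 * 10 ^ 4 * (p.n (lc j) : ℝ) / √(p.m (lc j))) :=
        mul_le_mul_of_nonneg_left hfin.2 (by norm_num)
    _ = 76 ^ 3 * (2 * 10 ^ 4) * (p.n (lc j) : ℝ) / √(p.m (lc j)) := by ring

end Pool.Agent.HB
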