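import Pool.Agent.HB.H.ExLem

/-!
# HB.H.Upper3: the polynomial of the alternating sum

`n = p.n (lc j) = 2^N` is even, `c_l = code j (nodeL ν l) > lc j` (`lc_lt_code`).
PROOFS.
* `vv_ne`, `vv_inv`: `‖vv l - 1‖ ≤ ε ≤ 1/2` (`ExP.val`).
* `ph_zero`: `prP_eval`, `ExP.x0`.  `ph_bd`: `prP_eval`, `pr_bound1` (every arc `i` through `zz t` has `lc i ≤ lc j < c_l`) and `‖(vv l)⁻¹‖ ≤ 2`.
* `VP_zero`: for even `l < n`, `l + 1 < n`; for odd `l`, `l - 1 < n`.  `VP_ev`: `ev_smul`, `ev_sum`.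
* `VP_pair`: with `V = ev (zz t) VP`, by disjointness of the supports (`sF`, `sH`, `ba`; `pr_eq_zero`, `ev_support`)
  `pr (H (ν l)) V = (1 - τ) (sP l)(τ) pr (ev τ (H (ν l))) (ev τ (F l)) = (1-τ) (sP l)(τ) vv l (ph l)(τ)`, so the sum for `l = 2i`, `2i+1` equals
  `(1-τ) ph_{2i}(τ) ph_{2i+1}(τ) (vv (2i) - vv (2i+1))`, of modulus `≤ 2 · 38² · 2 ε = 5776 ε ≤ 1/n`.
-/

open Finset Polynomial

noncomputable section

namespace Pool.Agent.HB

/-- value of the functional number `ν l` at `x l` -/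
def vv (H : ℕ → Pol) (x : ℕ → CV) (ν : ℕ → ℕ) (l : ℕ) : ℂ := pr (ev 0 (H (ν l))) (x l)

def ph (H : ℕ → Pol) (x : ℕ → CV) (F : ℕ → Pol) (ν : ℕ → ℕ) (l : ℕ) : ℂ[X] :=
  C (vv H x ν l)⁻¹ * prP (H (ν l)) (F l)

def sg (l : ℕ) : ℂ := if Even l then 1 else -1

def sP (H : ℕ → Pol) (x : ℕ → CV) (F : ℕ → Pol) (ν : ℕ → ℕ) (l : ℕ) : ℂ[X] :=
  if Even l then ph H x F ν (l + 1) else -ph H x F ν (l - 1)

/-- the polynomial of the alternating sum -/
def VP (H : ℕ → Pol) (x : ℕ → CV) (F : ℕ → Pol) (ν : ℕ → ℕ) (n : ℕ) : Pol :=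
  (1 - X : ℂ[X]) • ∑ l ∈ range n, sP H x F ν l • F l

section

variable {p : Par} {H : ℕ → Pol} {j : ℕ} {ε : ℝ} {u v x : ℕ → CV} {F : ℕ → Pol} {ν a b : ℕ → ℕ}

theorem n_even (p : Par) (c : ℕ) : Even (p.n c) := by
  unfold Par.n
  have h := par_N_ge p c
  exact (even_two : Even 2).pow_of_ne_zero (by omega)

theorem vv_ne (hS : Spec p H j ε u v x F ν a b) (hε : ε ≤ 1 / 2) {l : ℕ} (hl : l < p.n (lc j)) :
    vv H x ν l ≠ 0 := by
  intro h
  have h1 := (hS.ep l hl).val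
  have h2 : pr (ev 0 (H (ν l))) (x l) = 0 := h
  rw [h2, zero_sub, norm_neg, norm_one] at h1
  linarith

theorem vv_inv (hS : Spec p H j ε u v x F ν a b) (hε : ε ≤ 1 / 2) {l : ℕ} (hl : l < p.n (lc j)) :
    ‖(vv H x ν l)⁻¹‖ ≤ 2 := by
  have h1 : ‖vv H x ν l - 1‖ ≤ ε := (hS.ep l hl).val
  have h2 : 1 / 2 ≤ ‖vv H x ν l‖ := by
    have h3 : (1 : ℂ) = vv H x ν l - (vv H x ν l - 1) := by ring
    have h4 := norm_sub_le (vv H x ν l) (vv H x ν l - 1)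
    rw [← h3, norm_one] at h4
    linarith
  rw [norm_inv, inv_le_comm₀ (by linarith) (by norm_num)]
  norm_num at h2 ⊢
  exact h2

private theorem u3_ph_eval (H : ℕ → Pol) (x : ℕ → CV) (F : ℕ → Pol) (ν : ℕ → ℕ) (l : ℕ) (τ : ℂ) :
    (ph H x F ν l).eval τ = (vv H x ν l)⁻¹ * pr (ev τ (H (ν l))) (ev τ (F l)) := by
  unfold ph
  rw [Polynomial.eval_mul, Polynomial.eval_C, prP_eval]

theorem ph_zero (hS : Spec p H j ε u v x F ν a b) (hε : ε ≤ 1 / 2) {l : ℕ}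
    (hl : l < p.n (lc j)) : (ph H x F ν l).eval 0 = 1 := by
  rw [u3_ph_eval, (hS.ep l hl).x0]
  exact inv_mul_cancel₀ (vv_ne hS hε hl)

theorem ph_bd (hS : Spec p H j ε u v x F ν a b) (hε : ε ≤ 1 / 2) {l : ℕ} (hl : l < p.n (lc j))
    (t : TC) (ht : ∀ i, Arc p i (zz t) → i ≤ j) : ‖(ph H x F ν l).eval (zz t)‖ ≤ 38 := by
  rw [u3_ph_eval, norm_mul]
  have h1 := vv_inv hS hε hl
  have h2 := pr_bound1 (hS.ep l hl) t (fun i hi => by
    have h3 := ht i hi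
    have h4 := lc_lt_code j (nodeL ν l)
    unfold lc at h4 ⊢
    omega)
  calc ‖(vv H x ν l)⁻¹‖ * ‖pr (ev (zz t) (H (ν l))) (ev (zz t) (F l))‖ ≤ 2 * 19 :=
        mul_le_mul h1 h2 (norm_nonneg _) (by norm_num)
    _ = 38 := by norm_num

theorem VP_ev (H : ℕ → Pol) (x : ℕ → CV) (F : ℕ → Pol) (ν : ℕ → ℕ) (n : ℕ) (τ : ℂ) :
    ev τ (VP H x F ν n) =
      ∑ l ∈ range n, ((1 - τ) * (sP H x F ν l).eval τ) • ev τ (F l) := by
  unfold VP
  rw [ev_smul, ev_sum, Finset.smul_sum]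
  refine Finset.sum_congr rfl fun l _ => ?_
  rw [ev_smul, smul_smul, Polynomial.eval_sub, Polynomial.eval_one, Polynomial.eval_X]

theorem VP_zero (hS : Spec p H j ε u v x F ν a b) (hε : ε ≤ 1 / 2) :
    ev 0 (VP H x F ν (p.n (lc j))) = ∑ l ∈ range (p.n (lc j)), sg l • x l := by
  rw [VP_ev]
  refine Finset.sum_congr rfl fun l hl => ?_
  have hl' := mem_range.1 hl
  rw [(hS.ep l hl').x0, sub_zero, one_mul]
  congr 1
  unfold sP sg
  split_ifs with h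
  · have hn := n_even p (lc j)
    have h1 : l + 1 < p.n (lc j) := by
      obtain ⟨r, hr⟩ := h
      obtain ⟨s, hs⟩ := hn
      omega
    exact ph_zero hS hε h1
  · have h1 : l - 1 < p.n (lc j) := by omega
    rw [Polynomial.eval_neg, ph_zero hS hε h1]

private theorem u3_term (hS : Spec p H j ε u v x F ν a b) (hε : ε ≤ 1 / 2) (τ : ℂ) {l : ℕ}
    (hl : l < p.n (lc j)) :
    pr (ev τ (H (ν l))) (ev τ (VP H x F ν (p.n (lc j)))) =
      (1 - τ) * (sP H x F ν l).eval τ * (vv H x ν l * (ph H x F ν l).eval τ) := by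
  rw [VP_ev, pr_sum_right, Finset.sum_eq_single l]
  · rw [pr_smul_right, u3_ph_eval, mul_inv_cancel_left₀ (vv_ne hS hε hl)]
  · intro l' hl' hne
    have hl'' := mem_range.1 hl'
    rw [pr_smul_right, pr_eq_zero, mul_zero]
    intro i hi hi'
    have h1 := (hS.ep l hl).sH i (ev_support _ _ hi)
    have h2 := (hS.ep l' hl'').sF i (ev_support _ _ hi')
    rcases lt_or_gt_of_ne hne with h | h
    · have := hS.ba l' l h hl
      omega
    · have := hS.ba l l' h hl''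
      omega
  · intro h
    exact absurd (mem_range.2 hl) h

theorem VP_pair (hS : Spec p H j ε u v x F ν a b) (hε : ε ≤ 1 / 2)
    (hε2 : 5776 * ε * p.n (lc j) ≤ 1) (t : TC) (ht : Arc p j (zz t)) {i : ℕ}
    (hi : 2 * i + 1 < p.n (lc j)) :
    ‖pr (ev (zz t) (H (ν (2 * i)))) (ev (zz t) (VP H x F ν (p.n (lc j)))) +
      pr (ev (zz t) (H (ν (2 * i + 1)))) (ev (zz t) (VP H x F ν (p.n (lc j))))‖ ≤
      1 / (p.n (lc j) : ℝ) := by
  have hi0 : 2 * i < p.n (lc j) := by omega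
  have hn : (0 : ℝ) < p.n (lc j) := by exact_mod_cast par_n_pos p (lc j)
  have hev : Even (2 * i) := ⟨i, by omega⟩
  have hodd : ¬ Even (2 * i + 1) := by
    rintro ⟨r, hr⟩
    omega
  have hat : ∀ k, Arc p k (zz t) → k ≤ j := fun k hk => (arc_unique p hk ht).le
  have hA := ph_bd hS hε hi0 t hat
  have hB := ph_bd hS hε hi t hat
  have s1 : sP H x F ν (2 * i) = ph H x F ν (2 * i + 1) := by
    unfold sP
    rw [if_pos hev]
  have s2 : sP H x F ν (2 * i + 1) = -ph H x F ν (2 * i) := by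
    unfold sP
    rw [if_neg hodd, Nat.add_sub_cancel]
  rw [u3_term hS hε (zz t) hi0, u3_term hS hε (zz t) hi, s1, s2, Polynomial.eval_neg]
  have hv1 : ‖vv H x ν (2 * i) - 1‖ ≤ ε := (hS.ep _ hi0).val
  have hv2 : ‖vv H x ν (2 * i + 1) - 1‖ ≤ ε := (hS.ep _ hi).val
  have hε0 : 0 ≤ ε := (norm_nonneg _).trans hv1
  have hvv : ‖vv H x ν (2 * i) - vv H x ν (2 * i + 1)‖ ≤ 2 * ε := by
    have h1 : vv H x ν (2 * i) - vv H x ν (2 * i + 1) =
        (vv H x ν (2 * i) - 1) - (vv H x ν (2 * i + 1) - 1) := by ring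
    rw [h1]
    refine (norm_sub_le _ _).trans ?_
    linarith
  have h1τ : ‖1 - zz t‖ ≤ 2 := by
    refine (norm_sub_le _ _).trans ?_
    rw [norm_one, norm_zz]
    norm_num
  have heq : (1 - zz t) * (ph H x F ν (2 * i + 1)).eval (zz t) *
      (vv H x ν (2 * i) * (ph H x F ν (2 * i)).eval (zz t)) +
      (1 - zz t) * -(ph H x F ν (2 * i)).eval (zz t) *
      (vv H x ν (2 * i + 1) * (ph H x F ν (2 * i + 1)).eval (zz t)) =
      (1 - zz t) * (ph H x F ν (2 * i)).eval (zz t) * (ph H x F ν (2 * i + 1)).eval (zz t) *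
        (vv H x ν (2 * i) - vv H x ν (2 * i + 1)) := by ring
  rw [heq, norm_mul, norm_mul, norm_mul]
  calc ‖1 - zz t‖ * ‖(ph H x F ν (2 * i)).eval (zz t)‖ *
        ‖(ph H x F ν (2 * i + 1)).eval (zz t)‖ * ‖vv H x ν (2 * i) - vv H x ν (2 * i + 1)‖
      ≤ 2 * 38 * 38 * (2 * ε) := by gcongr
    _ = 5776 * ε := by ring
    _ ≤ 1 / (p.n (lc j) : ℝ) := by
        rw [le_div_iff₀ hn]
        exact hε2

end

end Pool.Agent.HB
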