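import Pool.Agent.HB.H.Upper1
import Pool.Agent.HB.H.Upper2
import Pool.Agent.HB.H.Upper3

/-!
# HB.H.Upper4: upper estimate for the alternating sum of a special sequence

PROOF of `VP_far`.  `τ = zz t`, arc `i > j`, `R = (p.n (2i+1) : ℝ)`, `n = p.n (lc j) ≤ R` (`lc j ≤ 2 i + 1`, `par_n_mono`), `R ≥ 2^100`.
For `l < n`, `c_l = code j (nodeL ν l) ≠ lc i` (`code_ne_lc`), all arcs through `τ` are the arc `i` (`arc_unique`).
* `‖(ph l)(τ)‖ ≤ 2 ‖pr (ev τ (H (ν l))) (ev τ (F l))‖ ≤ 400 R²`: if `lc i < c_l` by `pr_bound1` (`≤ 38`), if `c_l < lc i` by `pr_bound2` (`p.n c_l ≤ R` as `c_l ≤ 2i+1`).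
  So `‖(sP l)(τ)‖ ≤ 400 R²` for `l < n`.
* `nrm p H 0 τ (ev τ (F l)) ^ 3 ≤ 200³ R³`: if `lc i < c_l` by `ex_nrm`; if `c_l < lc i` by `ExP.up`: `≤ 200³ √(p.m c_l) ≤ 200³ R`.
* `nrm_u3` (successive vectors `sP l (τ) • ev τ (F l)`): `nrm (ev τ VP)³ ≤ ‖1-τ‖³ · 73 · n · (400 R²)³ (200³ R³) ≤ 73 · 80000³ ‖1-τ‖³ R^10` and
  `‖1-τ‖ R^9 ≤ 1` (`arc_small`), so `‖1-τ‖³ R^27 ≤ 1` and the total is `≤ 73 · 80000³ R^{-17} ≤ 1`.
PROOF of `upper_bound`.  `V = ev τ VP = ∑ θ l • ev τ (F l)`, `θ l = (1-τ) (sP l)(τ)` (`VP_ev`); `B = 3·10^11 √(p.m (2j+1)) n/√m`, `m = p.m (lc j)`; note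
`n/√m ≥ 10^11` (`par_m_pow_le`: `m^400 ≤ n`) and `√(p.m (2j+1)) ≥ 1`.  Show `nrm p H 0 τ V ^ 3 ≤ B` for all `τ = zz t`:
* `τ` on an arc `i > j`: `VP_far`.
* otherwise all arcs `i` through `τ` have `i ≤ j`, `‖θ l‖ ≤ 2 · 38 = 76` (`ph_bd`), so `Lf³ ≤ 76³·2·10⁴ n/√m =: Λ` (`Lf_bound`), `Λ ≤ 10^10 n/√m`.
  - no arc: `nrm = Lf` (`nrm_off`).  - arc `i < j`: `nrm³ ≤ 9 √(p.m (lc i)) Lf³ ≤ 9 √(p.m (2j+1)) Λ` (`nrm_le`).
  - arc `j`: `nrm³ ≤ Lf³ + S3 ≤ 25 Lf³ + ZZ3 ≤ 25 Λ + 3·10^10` (`nrm_arc`/`nrm3_arc`, `psi ≤ 1`, `S3_le_ZZ3`, `ZZ_bound`, `VP_pair`).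
Then `IN ≤ B^{1/3}` by `IN_le` and `VP_zero`.
-/

open Finset Polynomial

namespace Pool.Agent.HB

variable {p : Par} {H : ℕ → Pol} {j : ℕ} {ε : ℝ} {u v x : ℕ → CV} {F : ℕ → Pol} {ν a b : ℕ → ℕ}

private theorem sP_bd4 {B : ℝ} {n : ℕ} (hn : Even n) {τ : ℂ}
    (h : ∀ l < n, ‖(ph H x F ν l).eval τ‖ ≤ B) : ∀ l < n, ‖(sP H x F ν l).eval τ‖ ≤ B := by
  intro l hl
  unfold sP
  split_ifs with he
  · refine h _ ?_
    rcases hn with ⟨k, hk⟩
    rcases he with ⟨q, hq⟩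
    omega
  · rw [eval_neg, norm_neg]
    refine h _ ?_
    omega

private theorem lt4 (hS : Spec p H j ε u v x F ν a b) (τ : ℂ) (θ : ℕ → ℂ) :
    ∀ k < p.n (lc j), ∀ l < p.n (lc j), k < l → Lt (θ k • ev τ (F k)) (θ l • ev τ (F l)) := by
  intro k hk l hl hkl i hi i' hi'
  have h1 := (hS.ep k hk).sF i (ev_support τ (F k) (Finsupp.support_smul hi))
  have h2 := (hS.ep l hl).sF i' (ev_support τ (F l) (Finsupp.support_smul hi'))
  have h3 := hS.ba k l hkl hl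
  omega

theorem VP_far (hS : Spec p H j ε u v x F ν a b) (hε : ε ≤ 1 / 2) (t : TC) {i : ℕ}
    (ht : Arc p i (zz t)) (hij : j < i) :
    nrm p H 0 (zz t) (ev (zz t) (VP H x F ν (p.n (lc j)))) ^ 3 ≤ 1 := by
  have hτ : ‖zz t‖ = 1 := ht.1
  set τ := zz t with hτdef
  set n := p.n (lc j) with hn
  set R : ℝ := (p.n (2 * i + 1) : ℝ) with hR
  have hRb : (2:ℝ) ^ 100 ≤ R := (par_m_ge p _).trans (par_m_le_n p _)
  have hR1 : (1:ℝ) ≤ R := le_trans (by norm_num) hRb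
  have hR0 : (0:ℝ) ≤ R := le_trans zero_le_one hR1
  have hnR : (n : ℝ) ≤ R := by
    rw [hn, hR]
    exact_mod_cast par_n_mono p (by unfold lc; omega)
  have harc : ∀ j', Arc p j' τ → j' = i := fun j' hj' => arc_unique p hj' ht
  have hph : ∀ l < n, ‖(ph H x F ν l).eval τ‖ ≤ 400 * R ^ 2 := by
    intro l hl
    have h1 : ‖pr (ev τ (H (ν l))) (ev τ (F l))‖ ≤ 200 * R ^ 2 := by
      rcases lt_or_gt_of_ne (code_ne_lc i j (nodeL ν l)) with hc | hc
      · refine (pr_bound2 (hS.ep l hl) t ht hc).trans ?_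
        have : (p.n (code j (nodeL ν l)) : ℝ) ≤ R := by
          rw [hR]
          exact_mod_cast par_n_mono p (by unfold lc at hc; omega)
        gcongr
      · refine (pr_bound1 (hS.ep l hl) t fun j' hj' => ?_).trans ?_
        · rw [harc j' hj']
          exact hc
        · nlinarith
    unfold ph
    rw [eval_mul, eval_C, prP_eval, norm_mul]
    calc ‖(vv H x ν l)⁻¹‖ * ‖pr (ev τ (H (ν l))) (ev τ (F l))‖ ≤ 2 * (200 * R ^ 2) := by
          gcongr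
          exact vv_inv hS hε hl
      _ = 400 * R ^ 2 := by ring
  have hsP := sP_bd4 (H := H) (x := x) (F := F) (ν := ν) (n_even p (lc j)) hph
  have hF : ∀ l < n, nrm p H 0 τ (ev τ (F l)) ^ 3 ≤ 200 ^ 3 * R := by
    intro l hl
    rcases lt_or_gt_of_ne (code_ne_lc i j (nodeL ν l)) with hc | hc
    · refine ((hS.ep l hl).up t i ht hc).trans ?_
      have h1 : √(p.m (code j (nodeL ν l))) ≤ p.m (code j (nodeL ν l)) := by
        rw [Real.sqrt_le_left (par_m_pos p _).le]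
        nlinarith [par_m_ge p (code j (nodeL ν l))]
      have h2 : (p.n (code j (nodeL ν l)) : ℝ) ≤ R := by
        rw [hR]
        exact_mod_cast par_n_mono p (by unfold lc at hc; omega)
      have h3 := par_m_le_n p (code j (nodeL ν l))
      have h4 : √(p.m (code j (nodeL ν l))) ≤ R := h1.trans (h3.trans h2)
      gcongr
    · refine (ex_nrm ((hS.ep l hl).ex t) ht hc).trans ?_
      nlinarith
  rw [VP_ev]
  refine (nrm_u3 hτ n _ (lt4 hS τ _)).trans ?_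
  set D : ℝ := ‖1 - τ‖ with hD
  have hD0 : 0 ≤ D := norm_nonneg _
  have hDR : D * R ^ 9 ≤ 1 := arc_small p ht
  have hterm : ∀ l ∈ range n,
      nrm p H 0 τ (((1 - τ) * (sP H x F ν l).eval τ) • ev τ (F l)) ^ 3 ≤
      D ^ 3 * (400 * R ^ 2) ^ 3 * (200 ^ 3 * R) := by
    intro l hl
    have hl' := mem_range.1 hl
    rw [nrm_smul hτ, mul_pow, norm_mul, mul_pow]
    have h1 := hsP l hl'
    have h2 := hF l hl'
    have h0 := nrm_nonneg' (p := p) (H := H) (i0 := 0) hτ (ev τ (F l))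
    gcongr
  calc 73 * ∑ l ∈ range n,
        nrm p H 0 τ (((1 - τ) * (sP H x F ν l).eval τ) • ev τ (F l)) ^ 3
      ≤ 73 * ∑ l ∈ range n, D ^ 3 * (400 * R ^ 2) ^ 3 * (200 ^ 3 * R) := by
        gcongr with l hl
        exact hterm l hl
    _ = 73 * ((n : ℝ) * (D ^ 3 * (400 * R ^ 2) ^ 3 * (200 ^ 3 * R))) := by
        rw [sum_const, card_range, nsmul_eq_mul]
    _ ≤ 73 * (R * (D ^ 3 * (400 * R ^ 2) ^ 3 * (200 ^ 3 * R))) := by gcongr
    _ = (73 * 400 ^ 3 * 200 ^ 3) * (D ^ 3 * R ^ 8) := by ring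
    _ ≤ R * (D ^ 3 * R ^ 8) := by
        gcongr
        exact le_trans (by norm_num) hRb
    _ = D ^ 3 * R ^ 9 := by ring
    _ ≤ D ^ 3 * R ^ 27 := by
        gcongr
        norm_num
    _ = (D * R ^ 9) ^ 3 := by ring
    _ ≤ 1 := pow_le_one₀ (by positivity) hDR

theorem upper_bound (hS : Spec p H j ε u v x F ν a b) (hε : ε ≤ 1 / 2)
    (hε2 : 5776 * ε * p.n (lc j) ≤ 1) :
    IN (WW p H 0) (∑ l ∈ range (p.n (lc j)), sg l • x l) ^ 3 ≤
      3 * 10 ^ 11 * √(p.m (2 * j + 1)) * (p.n (lc j) : ℝ) / √(p.m (lc j)) := by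
  set X : ℝ := (p.n (lc j) : ℝ) / √(p.m (lc j)) with hX
  set s : ℝ := √(p.m (2 * j + 1)) with hs
  have hs1 : 1 ≤ s := one_le_m p _
  have hm1 : 1 ≤ √(p.m (lc j)) := one_le_m p _
  have hX1 : 1 ≤ X := by
    rw [hX, le_div_iff₀ (by linarith), one_mul]
    refine le_trans ?_ (par_m_le_n p (lc j))
    rw [Real.sqrt_le_left (par_m_pos p _).le]
    nlinarith [par_m_ge p (lc j)]
  have hBe : 3 * 10 ^ 11 * √(p.m (2 * j + 1)) * (p.n (lc j) : ℝ) / √(p.m (lc j)) =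
      3 * 10 ^ 11 * (s * X) := by
    rw [hX, hs]
    ring
  rw [hBe]
  have hsX : 1 ≤ s * X := by nlinarith
  have hXs : X ≤ s * X := by nlinarith
  have key : ∀ t : TC, nrm p H 0 (zz t) (ev (zz t) (VP H x F ν (p.n (lc j)))) ^ 3 ≤
      3 * 10 ^ 11 * (s * X) := by
    intro t
    have hτ : ‖zz t‖ = 1 := norm_zz t
    by_cases hfar : ∃ i, j < i ∧ Arc p i (zz t)
    · obtain ⟨i, hij, ht⟩ := hfar
      refine (VP_far hS hε t ht hij).trans ?_
      linarith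
    · have hnear : ∀ i, Arc p i (zz t) → i ≤ j := by
        intro i hi
        by_contra hc
        exact hfar ⟨i, not_le.1 hc, hi⟩
      have hph : ∀ l < p.n (lc j), ‖(ph H x F ν l).eval (zz t)‖ ≤ 38 := fun l hl =>
        ph_bd hS hε hl t hnear
      have hsP := sP_bd4 (H := H) (x := x) (F := F) (ν := ν) (n_even p (lc j)) hph
      have hD : ‖1 - zz t‖ ≤ 2 := by
        refine (norm_sub_le _ _).trans ?_
        rw [norm_one, hτ]
        norm_num
      have hθ : ∀ l < p.n (lc j), ‖(1 - zz t) * (sP H x F ν l).eval (zz t)‖ ≤ 76 := by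
        intro l hl
        rw [norm_mul]
        calc ‖1 - zz t‖ * ‖(sP H x F ν l).eval (zz t)‖ ≤ 2 * 38 := by
              gcongr
              exact hsP l hl
          _ = 76 := by norm_num
      have hV := VP_ev H x F ν (p.n (lc j)) (zz t)
      have hL := Lf_bound hS t _ hθ
      rw [← hV] at hL
      have hL' : Lf p (ev (zz t) (VP H x F ν (p.n (lc j)))) ^ 3 ≤ 10 ^ 10 * X := by
        refine hL.trans ?_
        have : 76 ^ 3 * (2 * 10 ^ 4) * (p.n (lc j) : ℝ) / √(p.m (lc j)) =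
            76 ^ 3 * (2 * 10 ^ 4) * X := by
          rw [hX]
          ring
        rw [this]
        gcongr
        norm_num
      have hL0 : 0 ≤ Lf p (ev (zz t) (VP H x F ν (p.n (lc j)))) ^ 3 :=
        pow_nonneg (Lf_nonneg' p _) 3
      rcases nrm3_cases (p := p) hτ 0 with ⟨i, -, hi⟩ | hno
      · rcases (hnear i hi).lt_or_eq with hlt | heq
        · refine (nrm_le hi _).trans ?_
          have h1 : √(p.m (lc i)) ≤ s := by
            rw [hs]
            exact Real.sqrt_le_sqrt (par_m_mono p (by unfold lc; omega))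
          calc 9 * √(p.m (lc i)) * Lf p (ev (zz t) (VP H x F ν (p.n (lc j)))) ^ 3
              ≤ 9 * s * (10 ^ 10 * X) := by gcongr
            _ ≤ _ := by nlinarith
        · subst heq
          rw [nrm_arc hi (Nat.zero_le _)]
          have h1 := psi_le_one p i (zz t)
          have h2 := S3_nonneg (H := H) hi (ev (zz t) (VP H x F ν (p.n (lc i))))
          have h3 := S3_le_ZZ3 (H := H) hi (ev (zz t) (VP H x F ν (p.n (lc i))))
          have h4 := ZZ_bound hS t hi _ hθ _ hV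
            (fun i' hi' => VP_pair hS hε hε2 t hi hi')
          have h5 : psi p i (zz t) * S3 p H i (zz t)
              (ev (zz t) (VP H x F ν (p.n (lc i)))) ≤
              1 * S3 p H i (zz t) (ev (zz t) (VP H x F ν (p.n (lc i)))) := by gcongr
          linarith
      · rw [nrm_off hτ hno]
        linarith
  have hB0 : 0 ≤ 3 * 10 ^ 11 * (s * X) := by positivity
  have hIN : IN (WW p H 0) (∑ l ∈ range (p.n (lc j)), sg l • x l) ≤
      (3 * 10 ^ 11 * (s * X)) ^ ((1 : ℝ) / 3) := by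
    rw [← VP_zero hS hε]
    refine IN_le _ (Real.rpow_nonneg hB0 _) fun t => ?_
    change nrm p H 0 (zz t) _ ≤ _
    refine le_of_pow_le_pow_left₀ (n := 3) (by norm_num) (Real.rpow_nonneg hB0 _) ?_
    rw [cbrt_cube hB0]
    exact key t
  calc IN (WW p H 0) (∑ l ∈ range (p.n (lc j)), sg l • x l) ^ 3
      ≤ ((3 * 10 ^ 11 * (s * X)) ^ ((1 : ℝ) / 3)) ^ 3 := by
        have := IN_nonneg (fam_WW p H 0) (∑ l ∈ range (p.n (lc j)), sg l • x l)
        gcongr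
    _ = _ := cbrt_cube hB0

end Pool.Agent.HB
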