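import Pool.Agent.HB.H.Lower
import Pool.Agent.HB.H.Upper4
import Pool.Agent.HB.H.Special

/-!
# HB.H.Block: the angle between block subspaces is zero

PROOF.  Let `Λ' = max Λ 1`; choose `j` with `Λ'³ · 10^15 ≤ exp (p.N (2j+1))` (`p.N (2j+1) ≥ 2j+1` as `p.N` is strictly increasing).  `N = p.N (2j+1)`,
`n = p.n (lc j)`, `m = p.m (lc j)`, `lc j = 2j+2`.  `special_exists` with `ε = 1/(5776 n)` (`≤ 1/2`): `x`, …; `y = ∑_{l<n, l even} x l ∈ Sp u`,
`z = ∑_{l<n, l odd} x l ∈ Sp v`; `y + z = ∑ x l`, `y - z = ∑ sg l • x l`.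
`lower_bound`, cubed: `exp(3g) n ≤ 1728 √m IN(y+z)³`, `g = (1/6) log m · ∫ tn(‖1-zz t‖/dd j)` (so `IN(y+z) > 0`).
`upper_bound`: `IN(y-z)³ ≤ 3·10^11 √(p.m (2j+1)) n/√m`.
So it suffices that `Λ'³ · 3·10^11 · 1728 · √(p.m (2j+1)) ≤ exp(3g)`.  `tn_int` (`d = dd j ≤ 1`): `∫ tn ≥ dd j / 60 = 2^{-10N}/60`; `log m = p.M (2j+2) log 2 = 2^{20N} log 2`,
so `3g ≥ (1/2) 2^{10N} (log 2)/60 ≥ 2^{10N}/200 ≥ 2 N` (`log 2 ≥ 0.69`, `2^{10N} ≥ 2^9 (10N-8)`), and
`√(p.m (2j+1)) = exp((1/2) p.M (2j+1) log 2) ≤ exp(N)` (`par_M_le_N`), `Λ'³ · 3·10^11 · 1728 ≤ exp N`.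
-/

open Finset Polynomial Real MeasureTheory

namespace Pool.Agent.HB

private theorem pow_bd (N : ℕ) (hN : 100 ≤ N) : 400 * (N : ℝ) ≤ 2 ^ (10 * N) := by
  have h1 : (N : ℝ) ≤ 2 ^ N := by exact_mod_cast (Nat.lt_two_pow_self (n := N)).le
  have h2 : (2 : ℝ) ^ 9 ≤ 2 ^ (9 * N) := pow_le_pow_right₀ one_le_two (by omega)
  calc 400 * (N : ℝ) ≤ 2 ^ 9 * (2 : ℝ) ^ N := by
        gcongr
        norm_num
    _ ≤ 2 ^ (9 * N) * 2 ^ N := by gcongr
    _ = 2 ^ (10 * N) := by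
        rw [← pow_add]
        congr 1
        omega

private theorem three_g (p : Par) (j : ℕ) :
    2 * (p.N (2 * j + 1) : ℝ) ≤
      3 * ((1 / 6) * log (p.m (lc j)) * ∫ t, tn (‖1 - zz t‖ / dd p j) ∂haar) := by
  set N := p.N (2 * j + 1) with hN
  have hI := tn_int (dd p j) (dd_pos p j) ((dd_le p j).trans (by norm_num))
  have hlog : log (p.m (lc j)) = (2 : ℝ) ^ (20 * N) * log 2 := by
    unfold Par.m lc
    rw [Real.log_pow, p.hM (2 * j + 1)]
    push_cast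
    rfl
  have hl2 : (0.69 : ℝ) ≤ log 2 := by
    have := Real.log_two_gt_d9
    linarith
  have hdd : dd p j = 1 / 2 ^ (10 * N) := by
    unfold dd
    rw [one_div, inv_pow, one_div]
  have hP : (0:ℝ) < 2 ^ (10 * N) := by positivity
  have h400 := pow_bd N (par_N_ge p _)
  have e20 : (2 : ℝ) ^ (20 * N) = 2 ^ (10 * N) * 2 ^ (10 * N) := by
    rw [← pow_add]
    congr 1
    omega
  calc 2 * (N : ℝ) ≤ 2 ^ (10 * N) / 200 := by linarith
    _ ≤ 2 ^ (10 * N) * log 2 / 120 := by nlinarith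
    _ = 3 * ((1 / 6) * log (p.m (lc j)) * (dd p j / 60)) := by
        rw [hlog, hdd, e20]
        field_simp
        norm_num
    _ ≤ _ := by
        have : 0 ≤ log (p.m (lc j)) := by
          rw [hlog]
          positivity
        gcongr

private theorem sqrt_m_le (p : Par) (c : ℕ) : √(p.m c) ≤ exp (p.N c) := by
  have h1 : √(p.m c) ≤ p.m c := by
    rw [Real.sqrt_le_left (par_m_pos p _).le]
    nlinarith [par_m_ge p c]
  have h2 : (2:ℝ) ≤ exp 1 := by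
    have := Real.add_one_le_exp (1:ℝ)
    linarith
  refine h1.trans ?_
  unfold Par.m
  calc (2:ℝ) ^ (p.M c) ≤ (exp 1) ^ (p.M c) := by gcongr
    _ = exp (p.M c) := by rw [← Real.exp_nat_mul, mul_one]
    _ ≤ _ := by
        apply Real.exp_le_exp.2
        exact_mod_cast par_M_le_N p c

theorem hi_block (p : Par) (H : ℕ → Pol) (hH : DenseEnum H) (u v : ℕ → CV) (hu : Blk u)
    (hv : Blk v) (Λ : ℝ) :
    ∃ y ∈ Sp u, ∃ z ∈ Sp v, 0 < IN (WW p H 0) (y + z) ∧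
      Λ * IN (WW p H 0) (y - z) ≤ IN (WW p H 0) (y + z) := by
  set L : ℝ := max Λ 1 with hL
  have hL1 : 1 ≤ L := le_max_right _ _
  have hLΛ : Λ ≤ L := le_max_left _ _
  obtain ⟨j, hj⟩ := exists_nat_gt (L ^ 3 * 10 ^ 15)
  have hjN : (j : ℝ) ≤ p.N (2 * j + 1) := by
    have := (par_N_mono p).id_le (2 * j + 1)
    have h2 : j ≤ p.N (2 * j + 1) := by
      simp only [id] at this
      omega
    exact_mod_cast h2
  have hexp : L ^ 3 * 10 ^ 15 ≤ exp (p.N (2 * j + 1)) := by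
    have := Real.add_one_le_exp ((p.N (2 * j + 1) : ℕ) : ℝ)
    linarith
  have hn0 : (0:ℝ) < p.n (lc j) := by exact_mod_cast par_n_pos p (lc j)
  have hn1 : (1:ℝ) ≤ p.n (lc j) := by exact_mod_cast par_n_pos p (lc j)
  have hm0 := par_m_pos p (lc j)
  set ε : ℝ := 1 / (5776 * p.n (lc j)) with hε
  have hε0 : 0 < ε := by positivity
  have hε1 : ε ≤ 1 / 2 := by
    rw [hε]
    apply one_div_le_one_div_of_le (by norm_num)
    linarith
  have hε2 : 5776 * ε * p.n (lc j) ≤ 1 := by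
    rw [hε]
    apply le_of_eq
    field_simp
  obtain ⟨x, F, ν, a, b, hS⟩ := special_exists p H hH j u v hu hv hε0
  refine ⟨∑ l ∈ (range (p.n (lc j))).filter Even, x l,
    Submodule.sum_mem _ fun l hl => ?_,
    ∑ l ∈ (range (p.n (lc j))).filter (fun l => ¬ Even l), x l,
    Submodule.sum_mem _ fun l hl => ?_, ?_⟩
  · rw [mem_filter, mem_range] at hl
    exact hS.mu' l hl.1 hl.2
  · rw [mem_filter, mem_range] at hl
    exact hS.mv l hl.1 hl.2
  have hadd : ∑ l ∈ (range (p.n (lc j))).filter Even, x l +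
      ∑ l ∈ (range (p.n (lc j))).filter (fun l => ¬ Even l), x l =
      ∑ l ∈ range (p.n (lc j)), x l := sum_filter_add_sum_filter_not _ _ _
  have hsub : ∑ l ∈ (range (p.n (lc j))).filter Even, x l -
      ∑ l ∈ (range (p.n (lc j))).filter (fun l => ¬ Even l), x l =
      ∑ l ∈ range (p.n (lc j)), sg l • x l := by
    rw [← sum_filter_add_sum_filter_not (range (p.n (lc j))) Even (fun l => sg l • x l),
      sub_eq_add_neg, ← sum_neg_distrib]
    congr 1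
    · refine sum_congr rfl fun l hl => ?_
      rw [mem_filter] at hl
      rw [sg, if_pos hl.2, one_smul]
    · refine sum_congr rfl fun l hl => ?_
      rw [mem_filter] at hl
      rw [sg, if_neg hl.2, neg_one_smul]
  rw [hadd, hsub]
  have hlow := lower_bound p H j hε1 hS
  have hup := upper_bound hS hε1 hε2
  set P := IN (WW p H 0) (∑ l ∈ range (p.n (lc j)), x l) with hP
  set M := IN (WW p H 0) (∑ l ∈ range (p.n (lc j)), sg l • x l) with hM
  have hP0 : 0 ≤ P := IN_nonneg (fam_WW p H 0) _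
  have hM0 : 0 ≤ M := IN_nonneg (fam_WW p H 0) _
  set g := (1 / 6) * log (p.m (lc j)) * ∫ t, tn (‖1 - zz t‖ / dd p j) ∂haar with hg
  have hPpos : 0 < P := by
    rcases hP0.lt_or_eq with h | h
    · exact h
    · exfalso
      rw [← h, mul_zero] at hlow
      have : 0 < exp g * (p.n (lc j) : ℝ) ^ ((1 : ℝ) / 3) := by positivity
      linarith
  refine ⟨hPpos, ?_⟩
  have hcube : exp (3 * g) * p.n (lc j) ≤ 1728 * √(p.m (lc j)) * P ^ 3 := by
    have h3 : (exp g * (p.n (lc j) : ℝ) ^ ((1 : ℝ) / 3)) ^ 3 ≤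
        (12 * (p.m (lc j)) ^ ((1 : ℝ) / 6) * P) ^ 3 := by gcongr
    have e1 : (exp g * (p.n (lc j) : ℝ) ^ ((1 : ℝ) / 3)) ^ 3 =
        exp (3 * g) * p.n (lc j) := by
      rw [mul_pow, cbrt_cube hn0.le, ← Real.exp_nat_mul]
      norm_num
    have e2 : ((p.m (lc j)) ^ ((1 : ℝ) / 6)) ^ 3 = √(p.m (lc j)) := by
      rw [← Real.rpow_natCast, ← Real.rpow_mul hm0.le, Real.sqrt_eq_rpow]
      norm_num
    have e3 : (12 * (p.m (lc j)) ^ ((1 : ℝ) / 6) * P) ^ 3 = 1728 * √(p.m (lc j)) * P ^ 3 := by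
      rw [mul_pow, mul_pow, e2]
      norm_num
    rw [e1, e3] at h3
    exact h3
  have hmain : L ^ 3 * 10 ^ 15 * √(p.m (2 * j + 1)) ≤ exp (3 * g) := by
    have h1 := sqrt_m_le p (2 * j + 1)
    have h2 := three_g p j
    calc L ^ 3 * 10 ^ 15 * √(p.m (2 * j + 1))
        ≤ exp (p.N (2 * j + 1)) * exp (p.N (2 * j + 1)) := by gcongr
      _ = exp (2 * (p.N (2 * j + 1) : ℝ)) := by
          rw [← Real.exp_add]
          congr 1
          ring
      _ ≤ exp (3 * g) := Real.exp_le_exp.2 h2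
  have hsm : 0 < √(p.m (lc j)) := Real.sqrt_pos.2 hm0
  have hfin : (L * M) ^ 3 ≤ P ^ 3 := by
    have h1 : L ^ 3 * M ^ 3 ≤ L ^ 3 *
        (3 * 10 ^ 11 * √(p.m (2 * j + 1)) * (p.n (lc j) : ℝ) / √(p.m (lc j))) := by gcongr
    have h2 : 1728 * √(p.m (lc j)) * (L ^ 3 *
        (3 * 10 ^ 11 * √(p.m (2 * j + 1)) * (p.n (lc j) : ℝ) / √(p.m (lc j)))) =
        1728 * (3 * 10 ^ 11) * (L ^ 3 * √(p.m (2 * j + 1))) * p.n (lc j) := by
      field_simp
    have h3 : 1728 * (3 * 10 ^ 11) * (L ^ 3 * √(p.m (2 * j + 1))) ≤ exp (3 * g) := by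
      refine le_trans ?_ hmain
      have : 0 ≤ L ^ 3 * √(p.m (2 * j + 1)) := by positivity
      nlinarith
    have h4 : 1728 * √(p.m (lc j)) * (L * M) ^ 3 ≤ 1728 * √(p.m (lc j)) * P ^ 3 := by
      rw [mul_pow]
      calc 1728 * √(p.m (lc j)) * (L ^ 3 * M ^ 3) ≤ 1728 * √(p.m (lc j)) * (L ^ 3 *
          (3 * 10 ^ 11 * √(p.m (2 * j + 1)) * (p.n (lc j) : ℝ) / √(p.m (lc j)))) := by gcongr
        _ = 1728 * (3 * 10 ^ 11) * (L ^ 3 * √(p.m (2 * j + 1))) * p.n (lc j) := h2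
        _ ≤ exp (3 * g) * p.n (lc j) := by gcongr
        _ ≤ _ := hcube
    exact le_of_mul_le_mul_left h4 (by positivity)
  have hfin' : L * M ≤ P := le_of_pow_le_pow_left₀ (n := 3) (by norm_num) hP0 hfin
  exact (mul_le_mul_of_nonneg_right hLΛ hM0).trans hfin'

end Pool.Agent.HB
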