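import Pool.Agent.HB.S.Nrm
import Pool.Agent.HB.S.Code
import Pool.Agent.HB.T.Exact
import Pool.Agent.HB.T.Avg
import Pool.Agent.HB.L.Transfer
import Pool.Agent.HB.O.Dual
import Pool.Agent.HB.O.Dense

/-!
# HB.H.Defs: exact pairs and special sequences (definitions)
-/

open Finset Polynomial

noncomputable section

namespace Pool.Agent.HB

/-- vectors controlled by an exact average of code `c`, supported in `[a, b)` -/
def ExVec (p : Par) (c a b : ℕ) (x : CV) : Prop :=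
  ∀ γ : RV, 0 ≤ γ → ∃ w : RV, 0 ≤ w ∧ (∀ i ∈ w.support, a ≤ i ∧ i < b) ∧
    (Phi γ x) ^ 2 ≤ 2 * 10 ^ 6 * dot γ w ∧ TT p w ≤ 20 ∧
    (∀ c' < c, Tc p c' w ≤ 14 / p.m c') ∧
    ∀ C : Finset ℕ, (∀ c' ∈ C, c < c') → √(∑ c' ∈ C, Tc p c' w ^ 2) ≤ 6 / p.m c

/-- exact pairs `(x, H n)` of code `c` with extremal polynomial `F` -/
structure ExP (p : Par) (H : ℕ → Pol) (c : ℕ) (ε : ℝ) (a b : ℕ) (x : CV) (F : Pol) (n : ℕ) :
    Prop where
  x0 : ev 0 F = x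
  sF : ∀ i ∈ F.support, a ≤ i ∧ i < b
  sH : ∀ i ∈ (H n).support, a ≤ i ∧ i < b
  ex : ∀ t : TC, ExVec p c a b (ev (zz t) F)
  up : ∀ (t : TC) (j : ℕ), Arc p j (zz t) → c < lc j →
    nrm p H 0 (zz t) (ev (zz t) F) ^ 3 ≤ 200 ^ 3 * √(p.m c)
  g1 : ∀ t : TC, (∀ j, Arc p j (zz t) → lc j < c) → ∀ y : CV,
    ‖pr (ev (zz t) (H n)) y‖ ≤ Lc p c y
  g2 : ∀ (t : TC) (j : ℕ), Arc p j (zz t) → c < lc j → ∀ y : CV,
    ‖pr (ev (zz t) (H n)) y‖ ≤ p.n c * nrm p H 0 (zz t) y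
  val : ‖pr (ev 0 (H n)) x - 1‖ ≤ ε

/-- block sequences -/
structure Blk (u : ℕ → CV) : Prop where
  ne : ∀ k, u k ≠ 0
  lt : ∀ k l, k < l → Lt (u k) (u l)

/-- the real span of a block sequence -/
def Sp (u : ℕ → CV) : Submodule ℝ CV := Submodule.span ℝ (Set.range u)

/-- the first `l` elements of a sequence of functionals, as a node -/
def nodeL (ν : ℕ → ℕ) : ℕ → List ℕ
  | 0 => []
  | l + 1 => ν l :: nodeL ν l

/-- special sequences of exact pairs for the operation `j`, alternately in `Sp u` and `Sp v` -/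
structure Spec (p : Par) (H : ℕ → Pol) (j : ℕ) (ε : ℝ) (u v : ℕ → CV) (x : ℕ → CV) (F : ℕ → Pol)
    (ν a b : ℕ → ℕ) : Prop where
  val : ∀ l ≤ p.n (lc j), Val p H j (nodeL ν l)
  ep : ∀ l < p.n (lc j), ExP p H (code j (nodeL ν l)) ε (a l) (b l) (x l) (F l) (ν l)
  ab : ∀ l < p.n (lc j), a l ≤ b l
  ba : ∀ l l', l < l' → l' < p.n (lc j) → b l ≤ a l'
  mu : ∀ l < p.n (lc j), mu H j (nodeL ν l) ≤ a l
  mu' : ∀ l < p.n (lc j), Even l → x l ∈ Sp u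
  mv : ∀ l < p.n (lc j), ¬ Even l → x l ∈ Sp v

/-- pairing of polynomials -/
def prP (G F : Pol) : ℂ[X] := G.sum fun i a => a * F i

theorem prP_eval (G F : Pol) (τ : ℂ) : (prP G F).eval τ = pr (ev τ G) (ev τ F) := by
  have hsub : (ev τ G).support ⊆ G.support := Finsupp.support_mapRange
  rw [pr_eq_sum (ev τ G) (ev τ F) G.support hsub]
  unfold prP
  rw [Finsupp.sum, Polynomial.eval_finsetSum]
  refine Finset.sum_congr rfl fun i _ => ?_
  rw [Polynomial.eval_mul]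
  rfl

end Pool.Agent.HB
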