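import Pool.Agent.HB.H.Defs

/-!
# HB.H.ExLem: norms of exact vectors

PROOF.  For `γ ∈ Gam`: `(Phi γ x)² ≤ 2·10⁶ dot γ w ≤ 2·10⁶ TT w ≤ 4·10⁷`; sup (`LG_cube_le`): `Lf⁶ ≤ 4·10⁷`.  For `γ ∈ Gamc c'`:
`dot γ w ≤ Tc c' w` (`dot_gamc_le`), `≤ 14/m_{c'}` (`c' < c`), `≤ 6/m_c` (`c' > c`, `C = {c'}`).
`ex_nrm`: arc `i` with `lc i < c`: `nrm³ ≤ Lf³ + S3 ≤ √(4·10⁷) + 8 √m_{lc i} Lc(lc i)³` (`S3_bound`, `psi ≤ 1`) and
`Lc(lc i)³ ≤ √(2.8·10⁷/m_{lc i})`; total `≤ 6325 + 8·5292 ≤ 200³`.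
`pr_bound`: `‖pr (ev (H n)) (ev F)‖ ≤ Lc c (ev F) ≤ Lf ≤ 18.5 ≤ 19` if all arcs through `zz t` have `lc j < c`; on an arc `c < lc j`:
`≤ p.n c · nrm ≤ p.n c · 200 (p.m c)^{1/6} ≤ 200 (p.n c)²`.
-/

open Finset Polynomial Real

namespace Pool.Agent.HB

variable {p : Par} {H : ℕ → Pol}

private theorem exlem_six {Γ : Set RV} (hΓ : GoodSet Γ) {x : CV} {B : ℝ} (hB : 0 ≤ B)
    (h : ∀ γ ∈ Γ, (Phi γ x) ^ 2 ≤ B) : LG Γ x ^ 6 ≤ B := by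
  have h1 : LG Γ x ^ 3 ≤ √B := LG_cube_le hΓ fun γ hγ => Real.le_sqrt_of_sq_le (h γ hγ)
  have h2 : 0 ≤ LG Γ x ^ 3 := pow_nonneg (LG_nonneg hΓ x) 3
  calc LG Γ x ^ 6 = (LG Γ x ^ 3) ^ 2 := by ring
    _ ≤ (√B) ^ 2 := pow_le_pow_left₀ h2 h1 2
    _ = B := Real.sq_sqrt hB

theorem ex_L {c a b : ℕ} {x : CV} (h : ExVec p c a b x) : Lf p x ^ 6 ≤ 4 * 10 ^ 7 := by
  refine exlem_six (good_gam p) (by norm_num) fun γ hγ => ?_
  obtain ⟨w, hw, -, h1, h2, -, -⟩ := h γ hγ.1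
  have h3 := dot_gam_le hγ hw
  linarith

theorem ex_L' {c a b : ℕ} {x : CV} (h : ExVec p c a b x) : Lf p x ≤ 19 := by
  refine le_of_pow_le_pow_left₀ (n := 6) (by norm_num) (by norm_num) ((ex_L h).trans ?_)
  norm_num

theorem ex_Lc {c a b : ℕ} {x : CV} (h : ExVec p c a b x) {c' : ℕ} (hc : c' < c) :
    Lc p c' x ^ 6 ≤ 28 * 10 ^ 6 / p.m c' := by
  have hm := par_m_pos p c'
  refine exlem_six (good_gamc p c') (by positivity) fun γ hγ => ?_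
  obtain ⟨w, hw, -, h1, -, h2, -⟩ := h γ hγ.1
  have h3 := dot_gamc_le hγ hw
  have h4 := h2 c' hc
  calc (Phi γ x) ^ 2 ≤ 2 * 10 ^ 6 * (14 / p.m c') := by linarith
    _ = 28 * 10 ^ 6 / p.m c' := by ring

theorem ex_Lc' {c a b : ℕ} {x : CV} (h : ExVec p c a b x) {c' : ℕ} (hc : c < c') :
    Lc p c' x ^ 6 ≤ 12 * 10 ^ 6 / p.m c := by
  have hm := par_m_pos p c
  refine exlem_six (good_gamc p c') (by positivity) fun γ hγ => ?_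
  obtain ⟨w, hw, -, h1, -, -, h2⟩ := h γ hγ.1
  have h3 := dot_gamc_le hγ hw
  have h4 := h2 {c'} (by
    intro d hd
    rw [Finset.mem_singleton] at hd
    rw [hd]
    exact hc)
  rw [Finset.sum_singleton, Real.sqrt_sq (Tc_nonneg c' w)] at h4
  calc (Phi γ x) ^ 2 ≤ 2 * 10 ^ 6 * (6 / p.m c) := by linarith
    _ = 12 * 10 ^ 6 / p.m c := by ring

theorem ex_nrm {c a b : ℕ} {x : CV} (h : ExVec p c a b x) {i : ℕ} {τ : ℂ} (hτ : Arc p i τ)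
    (hc : lc i < c) : nrm p H 0 τ x ^ 3 ≤ 200 ^ 3 := by
  have hm := par_m_pos p (lc i)
  have hL0 : 0 ≤ Lf p x := LG_nonneg (good_gam p) x
  have hc0 : 0 ≤ Lc p (lc i) x := LG_nonneg (good_gamc p _) x
  rw [nrm_arc hτ (Nat.zero_le i)]
  have hL : Lf p x ^ 3 ≤ 7000 := by
    have h1 : Lf p x ^ 3 ≤ 19 ^ 3 := pow_le_pow_left₀ hL0 (ex_L' h) 3
    linarith
  have hS0 := S3_nonneg (H := H) hτ x
  have hS : S3 p H i τ x ≤ 50000 := by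
    refine (S3_bound hτ x).trans ?_
    refine le_of_pow_le_pow_left₀ (n := 2) (by norm_num) (by norm_num) ?_
    have h2 := ex_Lc h hc
    calc (8 * √(p.m (lc i)) * Lc p (lc i) x ^ 3) ^ 2
        = 64 * (√(p.m (lc i))) ^ 2 * Lc p (lc i) x ^ 6 := by ring
      _ = 64 * p.m (lc i) * Lc p (lc i) x ^ 6 := by rw [Real.sq_sqrt hm.le]
      _ ≤ 64 * p.m (lc i) * (28 * 10 ^ 6 / p.m (lc i)) :=
          mul_le_mul_of_nonneg_left h2 (by positivity)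
      _ = 64 * (28 * 10 ^ 6) := by field_simp
      _ ≤ 50000 ^ 2 := by norm_num
  have hp : psi p i τ * S3 p H i τ x ≤ 1 * 50000 :=
    mul_le_mul (psi_le_one p i τ) hS hS0 zero_le_one
  norm_num at hp ⊢
  linarith

theorem pr_bound1 {c a b n : ℕ} {ε : ℝ} {x : CV} {F : Pol} (h : ExP p H c ε a b x F n) (t : TC)
    (ht : ∀ j, Arc p j (zz t) → lc j < c) : ‖pr (ev (zz t) (H n)) (ev (zz t) F)‖ ≤ 19 :=
  ((h.g1 t ht _).trans (Lc_le_L p c _)).trans (ex_L' (h.ex t))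

theorem pr_bound2 {c a b n : ℕ} {ε : ℝ} {x : CV} {F : Pol} (h : ExP p H c ε a b x F n) (t : TC)
    {j : ℕ} (ht : Arc p j (zz t)) (hc : c < lc j) :
    ‖pr (ev (zz t) (H n)) (ev (zz t) F)‖ ≤ 200 * (p.n c : ℝ) ^ 2 := by
  have hn : (1 : ℝ) ≤ p.n c := by exact_mod_cast par_n_pos p c
  have hmn := par_m_le_n p c
  have hm := par_m_pos p c
  have h1 := h.up t j ht hc
  have h2 : nrm p H 0 (zz t) (ev (zz t) F) ≤ 200 * p.n c := by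
    refine le_of_pow_le_pow_left₀ (n := 3) (by norm_num) (by positivity) (h1.trans ?_)
    rw [mul_pow]
    refine mul_le_mul_of_nonneg_left ?_ (by norm_num)
    rw [Real.sqrt_le_left (by positivity)]
    calc p.m c ≤ (p.n c : ℝ) ^ 1 := by rwa [pow_one]
      _ ≤ (p.n c : ℝ) ^ 6 := pow_le_pow_right₀ hn (by norm_num)
      _ = ((p.n c : ℝ) ^ 3) ^ 2 := by ring
  calc ‖pr (ev (zz t) (H n)) (ev (zz t) F)‖ ≤ p.n c * nrm p H 0 (zz t) (ev (zz t) F) :=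
        h.g2 t j ht hc _
    _ ≤ p.n c * (200 * p.n c) := mul_le_mul_of_nonneg_left h2 (by positivity)
    _ = 200 * (p.n c : ℝ) ^ 2 := by ring

end Pool.Agent.HB
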