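import Pool.Agent.HB.H.Seq

/-!
# HB.H.Exact: exact pairs

Setting: `c = 2 j0 + 3`, `i0 = j0 + 1` (so `lc j < c ↔ j < i0`, `c < lc j ↔ i0 ≤ j`), data from `seq_exists p H i0 u`.
`m = p.m c`, `n = p.n c`, `F l = N_l^{-1/3} ∑_q f l q`, `F = m^{1/6} n^{-1/3} ∑_{l<n} F l`, `x = ev 0 F = m^{1/6} n^{-1/3} ∑ x l` (in `Sp u`),
`G = m^{-1/6} n^{-2/3} ∑_{l<n} G l`.  `a = a 0`, `b = b (n-1)` (or `a n`).
PROOF.
* `exvec`: fix `t`, `γ ≥ 0`.  `Lf (ev (f l q)) ≤ WW ≤ 10` (`L_le_nrm`).  `transfer_avg` (A = 10) gives `v l q` and, with `w l = (1/N_l) ∑_q v l q`,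
  `(Phi γ (ev (F l)))² ≤ 2·10⁶ dot γ (w l)`; supports of `v l q` inside those of `ev (f l q)`, so successive.  `transfer_exact` gives
  `(Phi γ (ev F))² ≤ 2·10⁶ dot γ w`, `w = (m/n) ∑ w l`.  `ris_plain` and `exact_avg` (K = 2, `c = (2 j0 + 2) + 1`): `TT w ≤ 20`, `Tc c' w ≤ 14/m_{c'}` (`c' ≤ 2j0+2`),
  `√∑ ≤ 6/m`.
* `up'`: arc `j ≥ i0`: `nrm p H 0 = nrm p H i0` there (`nrm_arc`).  `nrm_u3` twice: `nrm(ev F)³ ≤ 73 (√m/n) ∑_l nrm(ev (F l))³`,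
  `nrm(ev (F l))³ ≤ 73 (1/N_l) ∑_q 10³`; so `≤ 73² · 10³ √m ≤ 200³ √m`.
* `g1'`: if all arcs `j ∋ zz t` have `lc j < c` then `WW p H i0 t = Lf` (`nrm_off`); `dual_avg` with `c`.
* `g2'`: arc `j ≥ i0`: `‖pr (ev G) y‖ ≤ m^{-1/6} n^{-2/3} ∑_l ‖pr (ev (G l)) (res (Ico (a l) (b l)) y)‖ ≤ n^{1/3} nrm p H i0 y ≤ n^{1/3} nrm p H 0 y` (`Fam.res`, `nrm_mono`).
* value: `pr (ev 0 G) x = (1/n) ∑_l pr (ev 0 (G l)) (x l) = 1` (disjoint supports).
-/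

open Finset Polynomial

namespace Pool.Agent.HB

private theorem ev_smulC (τ a : ℂ) (F : Pol) : ev τ (a • F) = a • ev τ F := by
  ext i
  simp [ev_apply]

private theorem coe_smulR (a : ℝ) (x : CV) : ((a : ℂ)) • x = a • x := by
  ext i
  simp

/-- data of a sequence of plain pairs -/
private structure SeqD (p : Par) (H : ℕ → Pol) (i0 : ℕ) (u : ℕ → CV) (X : ℕ → CV)
    (f : ℕ → ℕ → Pol) (G : ℕ → Pol) (A B N : ℕ → ℕ) : Prop where
  N1 : ∀ l, 1 ≤ N l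
  Nm : ∀ l, N l ≤ N (l + 1)
  Nb : ∀ l, ∀ c, p.m c ≤ (B l : ℝ) * 4 ^ (l + 2) → (p.n c) ^ 2 ≤ N (l + 1)
  ab : ∀ l, A l < B l
  ba : ∀ l, B l = A (l + 1)
  Xu : ∀ l, X l ∈ Sp u
  fs : ∀ l, ∀ q < N l, ∀ i ∈ (f l q).support, A l ≤ i ∧ i < B l
  fl : ∀ l, ∀ q < N l, ∀ q' < N l, q < q' → Lt (f l q) (f l q')
  Gs : ∀ l, ∀ i ∈ (G l).support, A l ≤ i ∧ i < B l
  fX : ∀ l, ev 0 ((((N l : ℝ) ^ (-(1 : ℝ) / 3) : ℝ) : ℂ) • ∑ q ∈ range (N l), f l q) = X l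
  fW : ∀ l, ∀ t, ∀ q < N l, WW p H i0 t (ev (zz t) (f l q)) ≤ 10
  GW : ∀ l, ∀ t y, ‖pr (ev (zz t) (G l)) y‖ ≤ WW p H i0 t y
  GX : ∀ l, pr (ev 0 (G l)) (X l) = 1

private noncomputable def FF (N : ℕ → ℕ) (f : ℕ → ℕ → Pol) (l : ℕ) : Pol :=
  (((N l : ℝ) ^ (-(1 : ℝ) / 3) : ℝ) : ℂ) • ∑ q ∈ range (N l), f l q

section
variable {p : Par} {H : ℕ → Pol} {i0 : ℕ} {u X : ℕ → CV} {f : ℕ → ℕ → Pol} {G : ℕ → Pol}
  {A B N : ℕ → ℕ}

private theorem SeqD.mono (h : SeqD p H i0 u X f G A B N) : Monotone A :=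
  monotone_nat_of_le_succ fun l => ((h.ab l).trans_eq (h.ba l)).le

private theorem SeqD.le_A (h : SeqD p H i0 u X f G A B N) {l l' : ℕ} (hl : l < l') :
    B l ≤ A l' := by
  rw [h.ba l]
  exact h.mono hl

private theorem supp_smul_sum {M : Type} [AddCommMonoid M] [Module ℂ M] (a : ℂ) (s : Finset ℕ)
    (g : ℕ → ℕ →₀ M) {i : ℕ} (hi : i ∈ (a • ∑ q ∈ s, g q).support) :
    ∃ q ∈ s, i ∈ (g q).support := by
  by_contra hcon
  push Not at hcon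
  rw [Finsupp.mem_support_iff] at hi
  apply hi
  rw [Finsupp.smul_apply, Finsupp.finsetSum_apply]
  rw [Finset.sum_eq_zero, smul_zero]
  intro q hq
  exact Finsupp.notMem_support_iff.1 (hcon q hq)

private theorem supp_smul_sumR (a : ℝ) (s : Finset ℕ)
    (g : ℕ → RV) {i : ℕ} (hi : i ∈ (a • ∑ q ∈ s, g q).support) :
    ∃ q ∈ s, i ∈ (g q).support := by
  by_contra hcon
  push Not at hcon
  rw [Finsupp.mem_support_iff] at hi
  apply hi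
  rw [Finsupp.smul_apply, Finsupp.finsetSum_apply]
  rw [Finset.sum_eq_zero, smul_zero]
  intro q hq
  exact Finsupp.notMem_support_iff.1 (hcon q hq)

private theorem SeqD.FFs (h : SeqD p H i0 u X f G A B N) (l : ℕ) :
    ∀ i ∈ (FF N f l).support, A l ≤ i ∧ i < B l := by
  intro i hi
  obtain ⟨q, hq, hi'⟩ := supp_smul_sum _ _ _ hi
  exact h.fs l q (mem_range.1 hq) i hi'

private theorem SeqD.FFX (h : SeqD p H i0 u X f G A B N) (l : ℕ) : ev 0 (FF N f l) = X l :=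
  h.fX l

private theorem SeqD.Xs (h : SeqD p H i0 u X f G A B N) (l : ℕ) :
    ∀ i ∈ (X l).support, A l ≤ i ∧ i < B l := by
  intro i hi
  rw [← h.FFX l] at hi
  exact h.FFs l i (ev_support _ _ hi)

private theorem SeqD.lt (h : SeqD p H i0 u X f G A B N) {α β : Type} [Zero α] [Zero β]
    {l l' : ℕ} (hl : l < l') {x : ℕ →₀ α} {y : ℕ →₀ β}
    (hx : ∀ i ∈ x.support, A l ≤ i ∧ i < B l) (hy : ∀ i ∈ y.support, A l' ≤ i ∧ i < B l') :
    Lt x y := by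
  intro i hi j hj
  have h1 := (hx i hi).2
  have h2 := (hy j hj).1
  have h3 := h.le_A hl
  omega

private theorem disj_of_lt {α : Type} [Zero α] {s : ℕ} {x : ℕ → ℕ →₀ α}
    (h : ∀ q < s, ∀ q' < s, q < q' → Lt (x q) (x q')) :
    ∀ q < s, ∀ q' < s, q ≠ q' → Disjoint (x q).support (x q').support := by
  intro q hq q' hq' hne
  rw [Finset.disjoint_left]
  intro i hi hi'
  rcases lt_or_gt_of_ne hne with h1 | h1
  · exact lt_irrefl _ (h q hq q' hq' h1 i hi i hi')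
  · exact lt_irrefl _ (h q' hq' q hq h1 i hi' i hi)

private theorem lt_ev {F G : Pol} (h : Lt F G) (τ : ℂ) : Lt (ev τ F) (ev τ G) :=
  fun i hi j hj => h i (ev_support _ _ hi) j (ev_support _ _ hj)

private theorem SeqD.evs (h : SeqD p H i0 u X f G A B N) (l : ℕ) (τ : ℂ) :
    ∀ i ∈ (ev τ (FF N f l)).support, A l ≤ i ∧ i < B l :=
  fun i hi => h.FFs l i (ev_support _ _ hi)

private theorem ev_FF (N : ℕ → ℕ) (f : ℕ → ℕ → Pol) (l : ℕ) (τ : ℂ) :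
    ev τ (FF N f l) =
      (((N l : ℝ) ^ (-(1 : ℝ) / 3) : ℝ) : ℂ) • ∑ q ∈ range (N l), ev τ (f l q) := by
  unfold FF
  rw [ev_smulC, ev_sum]

/-! ### real numbers -/

private theorem al_cube {m n : ℝ} (hm : 0 < m) (hn : 0 < n) :
    (m ^ ((1 : ℝ) / 6) * n ^ (-(1 : ℝ) / 3)) ^ 3 = √m / n := by
  rw [mul_pow, rpow_third_cube hn, ← Real.rpow_natCast, ← Real.rpow_mul hm.le, Real.sqrt_eq_rpow]
  norm_num
  rfl

private theorem al_be {m n : ℝ} (hm : 0 < m) (hn : 0 < n) :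
    (m ^ (-(1 : ℝ) / 6) * n ^ (-(2 : ℝ) / 3)) * (m ^ ((1 : ℝ) / 6) * n ^ (-(1 : ℝ) / 3)) =
      1 / n := by
  have h1 : m ^ (-(1 : ℝ) / 6) * m ^ ((1 : ℝ) / 6) = 1 := by
    rw [← Real.rpow_add hm]
    norm_num
  have h2 : n ^ (-(2 : ℝ) / 3) * n ^ (-(1 : ℝ) / 3) = 1 / n := by
    rw [← Real.rpow_add hn, one_div, ← Real.rpow_neg_one]
    norm_num
  calc _ = (m ^ (-(1 : ℝ) / 6) * m ^ ((1 : ℝ) / 6)) * (n ^ (-(2 : ℝ) / 3) * n ^ (-(1 : ℝ) / 3)) := by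
        ring
    _ = 1 / n := by rw [h1, h2, one_mul]

private theorem be_one {m n : ℝ} (hm : 0 < m) (hn : 0 < n) :
    (m ^ (-(1 : ℝ) / 6) * n ^ (-(2 : ℝ) / 3)) * (n ^ ((2 : ℝ) / 3) * m ^ ((1 : ℝ) / 6)) = 1 := by
  have h1 : m ^ (-(1 : ℝ) / 6) * m ^ ((1 : ℝ) / 6) = 1 := by
    rw [← Real.rpow_add hm]
    norm_num
  have h2 : n ^ (-(2 : ℝ) / 3) * n ^ ((2 : ℝ) / 3) = 1 := by
    rw [← Real.rpow_add hn]
    norm_num
  calc _ = (m ^ (-(1 : ℝ) / 6) * m ^ ((1 : ℝ) / 6)) * (n ^ (-(2 : ℝ) / 3) * n ^ ((2 : ℝ) / 3)) := by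
        ring
    _ = 1 := by rw [h1, h2, one_mul]

private theorem be_n {m n : ℝ} (hm : 1 ≤ m) (hn : 0 < n) :
    (m ^ (-(1 : ℝ) / 6) * n ^ (-(2 : ℝ) / 3)) * n ≤ n ^ ((1 : ℝ) / 3) := by
  have h1 : m ^ (-(1 : ℝ) / 6) ≤ 1 := Real.rpow_le_one_of_one_le_of_nonpos hm (by norm_num)
  have h2 : n ^ (-(2 : ℝ) / 3) * n = n ^ ((1 : ℝ) / 3) := by
    nth_rewrite 2 [← Real.rpow_one n]
    rw [← Real.rpow_add hn]
    norm_num
  have h3 : 0 ≤ n ^ ((1 : ℝ) / 3) := Real.rpow_nonneg hn.le _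
  calc _ = m ^ (-(1 : ℝ) / 6) * (n ^ (-(2 : ℝ) / 3) * n) := by ring
    _ ≤ 1 * n ^ ((1 : ℝ) / 3) := by
        rw [h2]
        exact mul_le_mul_of_nonneg_right h1 h3
    _ = n ^ ((1 : ℝ) / 3) := one_mul _

/-! ### the parts -/

private noncomputable def FT (N : ℕ → ℕ) (f : ℕ → ℕ → Pol) (m : ℝ) (n : ℕ) : Pol :=
  ((m ^ ((1 : ℝ) / 6) * (n : ℝ) ^ (-(1 : ℝ) / 3) : ℝ) : ℂ) • ∑ l ∈ range n, FF N f l

private noncomputable def GT (G : ℕ → Pol) (m : ℝ) (n : ℕ) : Pol :=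
  ((m ^ (-(1 : ℝ) / 6) * (n : ℝ) ^ (-(2 : ℝ) / 3) : ℝ) : ℂ) • ∑ l ∈ range n, G l

private theorem ev_FT (N : ℕ → ℕ) (f : ℕ → ℕ → Pol) (m : ℝ) (n : ℕ) (τ : ℂ) :
    ev τ (FT N f m n) =
      ((m ^ ((1 : ℝ) / 6) * (n : ℝ) ^ (-(1 : ℝ) / 3) : ℝ) : ℂ) •
        ∑ l ∈ range n, ev τ (FF N f l) := by
  unfold FT
  rw [ev_smulC, ev_sum]

private theorem ev_GT (G : ℕ → Pol) (m : ℝ) (n : ℕ) (τ : ℂ) :
    ev τ (GT G m n) =
      ((m ^ (-(1 : ℝ) / 6) * (n : ℝ) ^ (-(2 : ℝ) / 3) : ℝ) : ℂ) •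
        ∑ l ∈ range n, ev τ (G l) := by
  unfold GT
  rw [ev_smulC, ev_sum]

private theorem SeqD.exvec (h : SeqD p H i0 u X f G A B N) (c : ℕ) (t : TC) :
    ExVec p (c + 1) (A 0) (A (p.n (c + 1)))
      (ev (zz t) (FT N f (p.m (c + 1)) (p.n (c + 1)))) := by
  intro γ hγ
  have hn : 0 < p.n (c + 1) := par_n_pos p _
  have hm : 0 < p.m (c + 1) := par_m_pos p _
  have hT : ∀ l, ∃ w : ℕ → RV, (∀ q < N l, 0 ≤ w q) ∧
      (∀ q < N l, (w q).support ⊆ (ev (zz t) (f l q)).support) ∧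
      (∀ q < N l, TT p (w q) ≤ 1) ∧
      (Phi γ ((((N l : ℝ) ^ (-(1 : ℝ) / 3) : ℝ) : ℂ) • ∑ q ∈ range (N l),
        ev (zz t) (f l q))) ^ 2 ≤
        2 * 10 ^ 6 * dot γ ((1 / (N l : ℝ)) • ∑ q ∈ range (N l), w q) := by
    intro l
    refine transfer_avg (p := p) (N l) (h.N1 l) (fun q => ev (zz t) (f l q)) 10 ?_ ?_ γ hγ
    · intro q hq
      exact (L_le_nrm (H := H) (i0 := i0) (norm_zz t) _).trans (h.fW l t q hq)
    · exact disj_of_lt fun q hq q' hq' hqq => lt_ev (h.fl l q hq q' hq' hqq) _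
  choose v hv0 hvs hvT hvP using hT
  set w : ℕ → RV := fun l => (1 / (N l : ℝ)) • ∑ q ∈ range (N l), v l q with hw
  have hwd : ∀ l, w l = (1 / (N l : ℝ)) • ∑ q ∈ range (N l), v l q := fun l => rfl
  have hvb : ∀ l, ∀ q < N l, ∀ i ∈ (v l q).support, A l ≤ i ∧ i < B l := by
    intro l q hq i hi
    exact h.fs l q hq i (ev_support _ _ (hvs l q hq hi))
  have hws : ∀ l, ∀ i ∈ (w l).support, A l ≤ i ∧ i < B l := by
    intro l i hi
    rw [hwd] at hi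
    obtain ⟨q, hq, hi'⟩ := supp_smul_sumR _ _ _ hi
    exact hvb l q (mem_range.1 hq) i hi'
  have hw0 : ∀ l, 0 ≤ w l := by
    intro l
    rw [hwd]
    exact smul_nonneg (by positivity) (Finset.sum_nonneg fun q hq => hv0 l q (mem_range.1 hq))
  obtain ⟨Hom, ε, hR⟩ := ris_plain p (p.n (c + 1)) N B h.N1 h.Nm h.Nb w v
    (fun l _ => hwd l) (fun l _ => hv0 l)
    (fun l _ q hq q' hq' hqq i hi j hj => h.fl l q hq q' hq' hqq i
      (ev_support _ _ (hvs l q hq hi)) j (ev_support _ _ (hvs l q' hq' hj)))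
    (fun l _ => hvT l) (fun l _ q hq i hi => (hvb l q hq i hi).2)
    (fun l _ l' _ hll => h.lt hll (hws l) (hws l'))
  obtain ⟨hE1, hE2, hE3⟩ := exact_avg hR
  refine ⟨(p.m (c + 1) / (p.n (c + 1) : ℝ)) • ∑ l ∈ range (p.n (c + 1)), w l, ?_, ?_, ?_, ?_, ?_,
    ?_⟩
  · exact smul_nonneg (by positivity) (Finset.sum_nonneg fun l _ => hw0 l)
  · intro i hi
    obtain ⟨l, hl, hi'⟩ := supp_smul_sumR _ _ _ hi
    have h1 := hws l i hi'
    have h2 := h.mono (Nat.zero_le l)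
    have h3 := h.le_A (mem_range.1 hl)
    omega
  · rw [ev_FT]
    refine transfer_exact (p.m (c + 1)) hm (p.n (c + 1)) hn (fun l => ev (zz t) (FF N f l))
      (2 * 10 ^ 6) (by norm_num) ?_ γ w ?_
    · exact disj_of_lt fun l _ l' _ hll => h.lt hll (h.evs l _) (h.evs l' _)
    · intro l _
      rw [ev_FF]
      exact hvP l
  · linarith
  · intro c' hc'
    have := hE2 c' (by omega)
    have h14 : (7 : ℝ) * 2 = 14 := by norm_num
    rwa [h14] at this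
  · intro C hC
    have := hE3 C hC
    have h6 : (3 : ℝ) * 2 = 6 := by norm_num
    rwa [h6] at this

private theorem SeqD.up (h : SeqD p H i0 u X f G A B N) {m : ℝ} (hm : 0 < m) {n : ℕ} (hn : 0 < n)
    (t : TC) :
    nrm p H i0 (zz t) (ev (zz t) (FT N f m n)) ^ 3 ≤ 200 ^ 3 * √m := by
  have hn' : (0 : ℝ) < n := Nat.cast_pos.2 hn
  have hFF : ∀ l, nrm p H i0 (zz t) (ev (zz t) (FF N f l)) ^ 3 ≤ 73 * 10 ^ 3 := by
    intro l
    have hN : (0 : ℝ) < N l := Nat.cast_pos.2 (h.N1 l)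
    rw [ev_FF, nrm_smul (norm_zz t), mul_pow, Complex.norm_real, Real.norm_eq_abs,
      abs_of_nonneg (Real.rpow_nonneg hN.le _), rpow_third_cube hN]
    have h1 := nrm_u3 (H := H) (p := p) (i0 := i0) (norm_zz t) (N l)
      (fun q => ev (zz t) (f l q)) (fun q hq q' hq' hqq => lt_ev (h.fl l q hq q' hq' hqq) _)
    have h2 : ∑ k ∈ range (N l), nrm p H i0 (zz t) (ev (zz t) (f l k)) ^ 3 ≤
        (N l : ℝ) * 10 ^ 3 := by
      have : ∑ k ∈ range (N l), nrm p H i0 (zz t) (ev (zz t) (f l k)) ^ 3 ≤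
          ∑ k ∈ range (N l), (10 : ℝ) ^ 3 :=
        Finset.sum_le_sum fun k hk => pow_le_pow_left₀ (nrm_nonneg' (norm_zz t) _)
          (h.fW l t k (mem_range.1 hk)) 3
      refine this.trans_eq ?_
      rw [Finset.sum_const, card_range, nsmul_eq_mul]
    calc 1 / (N l : ℝ) * nrm p H i0 (zz t) (∑ q ∈ range (N l), ev (zz t) (f l q)) ^ 3
        ≤ 1 / (N l : ℝ) * (73 * ((N l : ℝ) * 10 ^ 3)) := by
          refine mul_le_mul_of_nonneg_left (h1.trans ?_) (by positivity)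
          exact mul_le_mul_of_nonneg_left h2 (by norm_num)
      _ = 73 * 10 ^ 3 := by
          field_simp
  rw [ev_FT, nrm_smul (norm_zz t), mul_pow, Complex.norm_real, Real.norm_eq_abs,
    abs_of_nonneg (mul_nonneg (Real.rpow_nonneg hm.le _) (Real.rpow_nonneg hn'.le _)),
    al_cube hm hn']
  have h1 := nrm_u3 (H := H) (p := p) (i0 := i0) (norm_zz t) n
    (fun l => ev (zz t) (FF N f l)) (fun l _ l' _ hll => h.lt hll (h.evs l _) (h.evs l' _))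
  have h2 : ∑ k ∈ range n, nrm p H i0 (zz t) (ev (zz t) (FF N f k)) ^ 3 ≤
      (n : ℝ) * (73 * 10 ^ 3) := by
    have : ∑ k ∈ range n, nrm p H i0 (zz t) (ev (zz t) (FF N f k)) ^ 3 ≤
        ∑ k ∈ range n, (73 * 10 ^ 3 : ℝ) :=
      Finset.sum_le_sum fun k _ => hFF k
    refine this.trans_eq ?_
    rw [Finset.sum_const, card_range, nsmul_eq_mul]
  calc √m / n * nrm p H i0 (zz t) (∑ l ∈ range n, ev (zz t) (FF N f l)) ^ 3
      ≤ √m / n * (73 * ((n : ℝ) * (73 * 10 ^ 3))) := by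
        refine mul_le_mul_of_nonneg_left (h1.trans ?_) (by positivity)
        exact mul_le_mul_of_nonneg_left h2 (by norm_num)
    _ = (73 * (73 * 10 ^ 3)) * √m := by
        field_simp
    _ ≤ 200 ^ 3 * √m := by
        refine mul_le_mul_of_nonneg_right (by norm_num) (Real.sqrt_nonneg _)

private theorem SeqD.norm_GT (_h : SeqD p H i0 u X f G A B N) {m : ℝ} (hm : 0 < m) {n : ℕ}
    (τ : ℂ) (y : CV) :
    ‖pr (ev τ (GT G m n)) y‖ ≤ (m ^ (-(1 : ℝ) / 6) * (n : ℝ) ^ (-(2 : ℝ) / 3)) *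
      ∑ l ∈ range n, ‖pr (ev τ (G l)) y‖ := by
  rw [ev_GT, pr_smul_left, pr_sum_left, norm_mul, Complex.norm_real, Real.norm_eq_abs,
    abs_of_nonneg (mul_nonneg (Real.rpow_nonneg hm.le _) (Real.rpow_nonneg (Nat.cast_nonneg n) _))]
  exact mul_le_mul_of_nonneg_left (norm_sum_le _ _)
    (mul_nonneg (Real.rpow_nonneg hm.le _) (Real.rpow_nonneg (Nat.cast_nonneg n) _))

private theorem SeqD.val (h : SeqD p H i0 u X f G A B N) {m : ℝ} (hm : 0 < m) {n : ℕ}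
    (hn : 0 < n) : pr (ev 0 (GT G m n)) (ev 0 (FT N f m n)) = 1 := by
  have hn' : (0 : ℝ) < n := Nat.cast_pos.2 hn
  rw [ev_GT, ev_FT, pr_smul_left, pr_smul_right, ← mul_assoc, ← Complex.ofReal_mul,
    al_be hm hn', pr_sum_left]
  have h1 : ∀ l ∈ range n, pr (ev 0 (G l)) (∑ l ∈ range n, ev 0 (FF N f l)) = 1 := by
    intro l hl
    rw [pr_sum_right, Finset.sum_eq_single l]
    · rw [h.FFX, h.GX]
    · intro l' _ hne
      refine pr_eq_zero _ _ fun i hi hi' => ?_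
      have h2 := h.Gs l i (ev_support _ _ hi)
      have h3 := h.evs l' 0 i hi'
      rcases lt_or_gt_of_ne hne with h4 | h4
      · have := h.le_A h4
        omega
      · have := h.le_A h4
        omega
    · intro hn
      exact absurd hl hn
  rw [Finset.sum_congr rfl h1, Finset.sum_const, card_range, nsmul_eq_mul, mul_one]
  push_cast
  have : (n : ℂ) ≠ 0 := by exact_mod_cast hn.ne'
  field_simp

end

theorem exact_real (p : Par) (H : ℕ → Pol) (j0 : ℕ) (u : ℕ → CV) (hu : Blk u) (a : ℕ) :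
    ∃ (x : CV) (F G : Pol) (b : ℕ), x ∈ Sp u ∧ a ≤ b ∧ ev 0 F = x ∧
      (∀ i ∈ F.support, a ≤ i ∧ i < b) ∧ (∀ i ∈ G.support, a ≤ i ∧ i < b) ∧
      (∀ t : TC, ExVec p (2 * j0 + 3) a b (ev (zz t) F)) ∧
      (∀ (t : TC) (j : ℕ), Arc p j (zz t) → 2 * j0 + 3 < lc j →
        nrm p H 0 (zz t) (ev (zz t) F) ^ 3 ≤ 200 ^ 3 * √(p.m (2 * j0 + 3))) ∧
      (∀ t : TC, (∀ j, Arc p j (zz t) → lc j < 2 * j0 + 3) → ∀ y : CV,
        ‖pr (ev (zz t) G) y‖ ≤ Lc p (2 * j0 + 3) y) ∧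
      (∀ (t : TC) (j : ℕ), Arc p j (zz t) → 2 * j0 + 3 < lc j → ∀ y : CV,
        ‖pr (ev (zz t) G) y‖ ≤ (p.n (2 * j0 + 3) : ℝ) ^ ((1 : ℝ) / 3) * nrm p H 0 (zz t) y) ∧
      pr (ev 0 G) x = 1 := by
  obtain ⟨X, f, G, A, B, N, hA0, hN1, hNm, hNb, hab, hba, hall⟩ :=
    seq_exists p H (j0 + 1) u hu a
  have h : SeqD p H (j0 + 1) u X f G A B N := by
    refine ⟨hN1, hNm, hNb, hab, hba, fun l => (hall l).1, fun l => (hall l).2.1,
      fun l => (hall l).2.2.1, fun l => (hall l).2.2.2.1, fun l => (hall l).2.2.2.2.1,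
      fun l => (hall l).2.2.2.2.2.1, fun l => (hall l).2.2.2.2.2.2.1,
      fun l => (hall l).2.2.2.2.2.2.2⟩
  set c := 2 * j0 + 3 with hc
  have hn : 0 < p.n c := par_n_pos p _
  have hn' : (0 : ℝ) < p.n c := Nat.cast_pos.2 hn
  have hm : 0 < p.m c := par_m_pos p _
  have hm1 : 1 ≤ p.m c := le_trans (by norm_num) (par_m_ge p c)
  refine ⟨ev 0 (FT N f (p.m c) (p.n c)), FT N f (p.m c) (p.n c), GT G (p.m c) (p.n c),
    A (p.n c), ?_, ?_, rfl, ?_, ?_, ?_, ?_, ?_, ?_, ?_⟩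
  · rw [ev_FT, coe_smulR]
    refine Submodule.smul_mem _ _ (Submodule.sum_mem _ fun l _ => ?_)
    rw [h.FFX]
    exact h.Xu l
  · rw [← hA0]
    exact h.mono (Nat.zero_le _)
  · intro i hi
    obtain ⟨l, hl, hi'⟩ := supp_smul_sum _ _ _ hi
    have h1 := h.FFs l i hi'
    have h2 := h.mono (Nat.zero_le l)
    have h3 := h.le_A (mem_range.1 hl)
    omega
  · intro i hi
    obtain ⟨l, hl, hi'⟩ := supp_smul_sum _ _ _ hi
    have h1 := h.Gs l i hi'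
    have h2 := h.mono (Nat.zero_le l)
    have h3 := h.le_A (mem_range.1 hl)
    omega
  · intro t
    have := h.exvec (2 * j0 + 2) t
    rw [hA0] at this
    exact this
  · intro t j hj hjc
    have hj' : j0 + 1 ≤ j := by
      unfold lc at hjc
      omega
    rw [nrm_arc hj (Nat.zero_le j), ← nrm_arc hj hj']
    exact h.up hm hn t
  · intro t ht y
    have hoff : ∀ j, j0 + 1 ≤ j → ¬ Arc p j (zz t) := by
      intro j hj hA
      have := ht j hA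
      unfold lc at this
      omega
    refine (h.norm_GT hm (zz t) y).trans ?_
    have h1 := dual_avg (p := p) c (fun l => ev (zz t) (G l))
      (fun l l' hll => h.lt hll (fun i hi => h.Gs l i (ev_support _ _ hi))
        (fun i hi => h.Gs l' i (ev_support _ _ hi)))
      (fun l _ y => by
        have := h.GW l t y
        unfold WW at this
        rwa [nrm_off (norm_zz t) hoff] at this) y
    calc _ ≤ (p.m c ^ (-(1 : ℝ) / 6) * (p.n c : ℝ) ^ (-(2 : ℝ) / 3)) *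
          ((p.n c : ℝ) ^ ((2 : ℝ) / 3) * (p.m c) ^ ((1 : ℝ) / 6) * Lc p c y) :=
          mul_le_mul_of_nonneg_left h1
            (mul_nonneg (Real.rpow_nonneg hm.le _) (Real.rpow_nonneg hn'.le _))
      _ = ((p.m c ^ (-(1 : ℝ) / 6) * (p.n c : ℝ) ^ (-(2 : ℝ) / 3)) *
          ((p.n c : ℝ) ^ ((2 : ℝ) / 3) * (p.m c) ^ ((1 : ℝ) / 6))) * Lc p c y := by ring
      _ = Lc p c y := by rw [be_one hm hn', one_mul]
  · intro t j hj _ y
    refine (h.norm_GT hm (zz t) y).trans ?_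
    have h1 : ∑ l ∈ range (p.n c), ‖pr (ev (zz t) (G l)) y‖ ≤
        (p.n c : ℝ) * nrm p H 0 (zz t) y := by
      have : ∑ l ∈ range (p.n c), ‖pr (ev (zz t) (G l)) y‖ ≤
          ∑ l ∈ range (p.n c), nrm p H 0 (zz t) y :=
        Finset.sum_le_sum fun l _ => (h.GW l t y).trans
          (nrm_mono (norm_zz t) (Nat.zero_le _) y)
      refine this.trans_eq ?_
      rw [Finset.sum_const, card_range, nsmul_eq_mul]
    calc _ ≤ (p.m c ^ (-(1 : ℝ) / 6) * (p.n c : ℝ) ^ (-(2 : ℝ) / 3)) *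
          ((p.n c : ℝ) * nrm p H 0 (zz t) y) :=
          mul_le_mul_of_nonneg_left h1
            (mul_nonneg (Real.rpow_nonneg hm.le _) (Real.rpow_nonneg hn'.le _))
      _ = ((p.m c ^ (-(1 : ℝ) / 6) * (p.n c : ℝ) ^ (-(2 : ℝ) / 3)) * (p.n c : ℝ)) *
          nrm p H 0 (zz t) y := by ring
      _ ≤ (p.n c : ℝ) ^ ((1 : ℝ) / 3) * nrm p H 0 (zz t) y :=
          mul_le_mul_of_nonneg_right (be_n hm1 hn') (nrm_nonneg' (norm_zz t) y)
  · exact h.val hm hn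

end Pool.Agent.HB
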