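import Pool.Agent.HB.H.Glide
import Pool.Agent.HB.H.Block

/-!
# HB.H.Final: the completion is hereditarily indecomposable

PROOF of `hi_final`.  Suppose that `A` and `B` are infinite dimensional; `C` from `sum_closed`; `δ = 1/(16 (1 + C))`, `Λ = 8 C K + 8`; `u, a` from `glide` for `A`,
`v, b` from `glide` for `B`; `y, z` from `hi_block`.  `S = IN W (y+z) > 0`, `D = IN W (y-z) ≤ S/Λ ≤ S`.  `y = (1/2)((y+z)+(y-z))`, so `IN W y ≤ S`, `IN W z ≤ S`.
`y' ∈ A`, `z' ∈ B` from `glide_approx`: `‖ι y - y'‖, ‖ι z - z'‖ ≤ δ S`.  Then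
`S/2 ≤ ‖ι (y+z)‖ ≤ ‖y' + z'‖ + 2δS ≤ C ‖y' - z'‖ + 2δS ≤ C (‖ι (y-z)‖ + 2δS) + 2δS ≤ C K S/Λ + 2(1+C)δS ≤ S/8 + S/8`, a contradiction.
PROOF of `not_fd`.  `ι` is injective (`IN_pos`), and `CV` is not finite dimensional over `ℝ` (the vectors `single i 1` are linearly independent).
-/

open Finset

namespace Pool.Agent.HB

variable {p : Par} {H : ℕ → Pol} {X : Type} [NormedAddCommGroup X] [NormedSpace ℝ X]
  {ι : CV →ₗ[ℝ] X} {K : ℝ}

private theorem cv_not_fd : ¬ FiniteDimensional ℝ CV := by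
  intro h
  have hi : Function.Injective (Finsupp.mapRange.linearMap (α := ℕ) Complex.ofRealCLM.toLinearMap :
      (ℕ →₀ ℝ) →ₗ[ℝ] CV) := by
    intro a b hab
    ext i
    have h1 := DFunLike.congr_fun hab i
    simpa using h1
  have h2 : FiniteDimensional ℝ (ℕ →₀ ℝ) := FiniteDimensional.of_injective _ hi
  have h3 := (Finsupp.basisSingleOne (R := ℝ) (ι := ℕ)).linearIndependent
  have h4 := h3.finite
  exact not_finite ℕ

theorem not_fd (h1 : ∀ x, IN (WW p H 0) x ≤ 2 * ‖ι x‖) : ¬ FiniteDimensional ℝ X := by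
  intro h
  have hi : Function.Injective ι := by
    rw [injective_iff_map_eq_zero]
    intro x hx
    by_contra hne
    have h2 := IN_pos (fam_WW p H 0) hne
    have h3 := h1 x
    rw [hx, norm_zero, mul_zero] at h3
    linarith
  exact cv_not_fd (FiniteDimensional.of_injective ι hi)

theorem hi_final [CompleteSpace X] (hH : DenseEnum H) (hd : DenseRange ι)
    (h1 : ∀ x, IN (WW p H 0) x ≤ 2 * ‖ι x‖)
    (h2 : ∀ x, ‖ι x‖ ≤ K * IN (WW p H 0) x) (hK : 1 ≤ K) (A B : Submodule ℝ X)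
    (hA : IsClosed (A : Set X)) (hB : IsClosed (B : Set X))
    (hAB : Disjoint A B) (hs : IsClosed ((A ⊔ B : Submodule ℝ X) : Set X)) :
    FiniteDimensional ℝ A ∨ FiniteDimensional ℝ B := by
  by_contra hc
  rw [not_or] at hc
  obtain ⟨hAi, hBi⟩ := hc
  obtain ⟨C, hC, hCb⟩ := sum_closed A B hA hB hAB hs
  have hW := fam_WW p H 0
  obtain ⟨δ, hδd⟩ : ∃ δ : ℝ, δ = 1 / (16 * (1 + C)) := ⟨_, rfl⟩
  have hδ : 0 < δ := by rw [hδd]; positivity
  have hδ2 : δ * (1 + C) = 1 / 16 := by rw [hδd]; field_simp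
  obtain ⟨u, a, hu, hu1, ha, hua⟩ := glide hd h1 h2 hK A hAi hδ
  obtain ⟨v, b, hv, hv1, hb, hvb⟩ := glide hd h1 h2 hK B hBi hδ
  obtain ⟨y, hy, z, hz, hpos, hle⟩ := hi_block p H hH u v hu hv (8 * C * K + 8)
  obtain ⟨S, hS⟩ : ∃ S, S = IN (WW p H 0) (y + z) := ⟨_, rfl⟩
  obtain ⟨D, hD⟩ : ∃ D, D = IN (WW p H 0) (y - z) := ⟨_, rfl⟩
  rw [← hS] at hpos hle
  rw [← hD] at hle
  have hD0 : 0 ≤ D := by rw [hD]; exact IN_nonneg hW _
  have hCK : 0 ≤ C * K := by positivity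
  have hDS : D ≤ S := by nlinarith
  have hDC : C * K * D ≤ S / 8 := by nlinarith
  have hyS : IN (WW p H 0) y ≤ S := by
    have e : y = (1 / 2 : ℝ) • ((y + z) + (y - z)) := by
      rw [show (y + z) + (y - z) = (2 : ℝ) • y by rw [two_smul]; abel, smul_smul]
      norm_num
    have h3 := IN_add hW (y + z) (y - z)
    have h4 := IN_rsmul hW (1 / 2) ((y + z) + (y - z))
    rw [← e, abs_of_pos (by norm_num : (0 : ℝ) < 1 / 2)] at h4
    rw [← hS, ← hD] at h3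
    linarith
  have hzS : IN (WW p H 0) z ≤ S := by
    have e : z = (1 / 2 : ℝ) • ((y + z) + (-1 : ℝ) • (y - z)) := by
      rw [show (y + z) + (-1 : ℝ) • (y - z) = (2 : ℝ) • z by
        rw [two_smul, neg_one_smul]; abel, smul_smul]
      norm_num
    have h3 := IN_add hW (y + z) ((-1 : ℝ) • (y - z))
    have h5 := IN_rsmul hW (-1) (y - z)
    rw [abs_neg, abs_one, one_mul] at h5
    have h4 := IN_rsmul hW (1 / 2) ((y + z) + (-1 : ℝ) • (y - z))
    rw [← e, abs_of_pos (by norm_num : (0 : ℝ) < 1 / 2)] at h4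
    rw [h5, ← hS, ← hD] at h3
    linarith
  obtain ⟨y', hy', hyd⟩ := glide_approx (p := p) (H := H) A hδ u a hu hu1 ha hua hy
  obtain ⟨z', hz', hzd⟩ := glide_approx (p := p) (H := H) B hδ v b hv hv1 hb hvb hz
  have hyd' : ‖ι y - y'‖ ≤ δ * S := hyd.trans (mul_le_mul_of_nonneg_left hyS hδ.le)
  have hzd' : ‖ι z - z'‖ ≤ δ * S := hzd.trans (mul_le_mul_of_nonneg_left hzS hδ.le)
  have h5 := hCb y' hy' z' hz'
  have h6 : ‖ι (y + z)‖ ≤ ‖y' + z'‖ + 2 * (δ * S) := by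
    have e : ι (y + z) = (y' + z') + ((ι y - y') + (ι z - z')) := by
      rw [map_add]; abel
    rw [e]
    refine (norm_add_le _ _).trans ?_
    have := norm_add_le (ι y - y') (ι z - z')
    linarith
  have h7 : ‖y' - z'‖ ≤ ‖ι (y - z)‖ + 2 * (δ * S) := by
    have e : y' - z' = ι (y - z) - ((ι y - y') - (ι z - z')) := by
      rw [map_sub]; abel
    rw [e]
    refine (norm_sub_le _ _).trans ?_
    have := norm_sub_le (ι y - y') (ι z - z')
    linarith
  have h8 := h1 (y + z)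
  have h9 := h2 (y - z)
  rw [← hS] at h8
  rw [← hD] at h9
  have h10 : C * ‖y' - z'‖ ≤ C * (K * D + 2 * (δ * S)) :=
    mul_le_mul_of_nonneg_left (h7.trans (by linarith)) hC.le
  have h11 : C * (K * D + 2 * (δ * S)) + 2 * (δ * S) = C * K * D + 2 * (δ * (1 + C)) * S := by
    ring
  rw [hδ2] at h11
  nlinarith

end Pool.Agent.HB
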