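import Pool.Agent.HB.H.Defs

/-!
# HB.H.Glide: gliding hump in the completion

Setting: `W = WW p H 0` (`fam_WW`), `X` a real Banach space, `ι : CV →ₗ[ℝ] X` with dense range, `IN W x ≤ 2 ‖ι x‖`, `‖ι x‖ ≤ K IN W x`, `1 ≤ K`.
PROOFS.
* `sum_closed`: the map `A × B → X`, `(a, b) ↦ a + b` is injective (`Disjoint`) with range `A ⊔ B` closed, so antilipschitz
  (`ContinuousLinearMap.antilipschitz_of_injective_of_isClosed_range` or the open mapping theorem; `A`, `B` are complete as closed subspaces); apply it to `(a, -b)`: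
  `‖a‖, ‖b‖ ≤ C' ‖a - b‖`, `‖a + b‖ ≤ 2 C' ‖a - b‖`.
* `glide1`: for `i`, `x ↦ x i` satisfies `‖x i‖ ≤ IN W x ≤ 2 ‖ι x‖` (`coord_le_IN`), `ι` is injective, so it extends to a continuous real linear map
  `f i : X → ℂ` with `f i (ι x) = x i`, `‖f i y‖ ≤ 2 ‖y‖` (extension from the dense subspace `range ι`).  On the infinite dimensional space `A` the linear map
  `a ↦ (f i a)_{i<N}` into the finite dimensional space `Fin N → ℂ` is not injective: there is `a ∈ A`, `‖a‖ = 1`, `f i a = 0` for `i < N`.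
  Let `δ' > 0`, `‖ι w - a‖ ≤ δ'`; then `‖w i‖ ≤ 2 δ'` for `i < N`; `u = res (Ici N) w`, `w - u = ∑_{i<N} single i (w i)`,
  `‖ι (w - u)‖ ≤ K IN W (w - u) ≤ K ∑_{i<N} 2 δ' IN W (single i 1)`.  So `‖ι u - a‖ ≤ δ' (1 + 2 K S)`, `S = ∑_{i<N} IN W (single i 1)`; choose `δ'` such that this is
  `≤ min (1/2) (δ/(2K))`.  `‖ι u‖ ≥ 1/2`, `s = IN W u ≥ 1/(2K) > 0`; replace `u`, `a` by `s⁻¹ • u`, `s⁻¹ • a` (real scalar): `IN W = 1`, distance `≤ 2K · δ/(2K)`.
* `glide`: recursion with `glide1`, `N` larger than the support of the previous vector, `δ/2^(k+1)`.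
* `glide_approx`: let `y ∈ Sp u`; `y = ∑_{k<n} α_k • u k` (real `α`; `Submodule.span_induction` or finite linear combinations, `mem_span_range_iff_exists_finsupp`).
  With the order connected hull `E` of the support of `u k`: `res E y = α_k • u k`, so `|α_k| = IN W (α_k • u k) ≤ IN W y` (`IN_res`, `IN_rsmul`).
  `y' = ∑ α_k • a k`, `‖ι y - y'‖ ≤ ∑ |α_k| δ/2^(k+1) ≤ δ IN W y`.
-/

open Finset

namespace Pool.Agent.HB

theorem sum_closed {X : Type} [NormedAddCommGroup X] [NormedSpace ℝ X] [CompleteSpace X]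
    (A B : Submodule ℝ X) (hA : IsClosed (A : Set X)) (hB : IsClosed (B : Set X))
    (hAB : Disjoint A B) (hs : IsClosed ((A ⊔ B : Submodule ℝ X) : Set X)) :
    ∃ C : ℝ, 0 < C ∧ ∀ a ∈ A, ∀ b ∈ B, ‖a + b‖ ≤ C * ‖a - b‖ := by
  haveI : CompleteSpace A := hA.completeSpace_coe
  haveI : CompleteSpace B := hB.completeSpace_coe
  set T : (A × B) →L[ℝ] X := A.subtypeL.coprod (-B.subtypeL) with hT
  have hTa : ∀ q : A × B, T q = (q.1 : X) - (q.2 : X) := by
    intro q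
    rw [hT]
    simp [sub_eq_add_neg]
  have hinj : Function.Injective T := by
    refine (injective_iff_map_eq_zero T).2 fun q hq => ?_
    rw [hTa, sub_eq_zero] at hq
    have h1 : (q.1 : X) ∈ A ⊓ B := ⟨q.1.2, by rw [hq]; exact q.2.2⟩
    rw [hAB.eq_bot, Submodule.mem_bot] at h1
    have h2 : (q.2 : X) = 0 := by rw [← hq, h1]
    ext
    · exact h1
    · exact h2
  have hran : Set.range T = ((A ⊔ B : Submodule ℝ X) : Set X) := by
    ext x
    rw [SetLike.mem_coe, Submodule.mem_sup]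
    constructor
    · rintro ⟨q, rfl⟩
      exact ⟨q.1, q.1.2, -q.2, B.neg_mem q.2.2, by rw [hTa, sub_eq_add_neg]⟩
    · rintro ⟨a, ha, b, hb, rfl⟩
      exact ⟨(⟨a, ha⟩, ⟨-b, B.neg_mem hb⟩), by rw [hTa]; simp⟩
  obtain ⟨K, hK⟩ := T.antilipschitz_of_injective_of_isClosed_range hinj (by rw [hran]; exact hs)
  refine ⟨2 * K + 1, by positivity, fun a ha b hb => ?_⟩
  have h1 := hK.le_mul_norm (map_zero T) ((⟨a, ha⟩, ⟨b, hb⟩) : A × B)
  rw [hTa] at h1
  have h2 : ‖a‖ ≤ K * ‖a - b‖ := (norm_fst_le ((⟨a, ha⟩, ⟨b, hb⟩) : A × B)).trans h1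
  have h3 : ‖b‖ ≤ K * ‖a - b‖ := (norm_snd_le ((⟨a, ha⟩, ⟨b, hb⟩) : A × B)).trans h1
  have h4 := norm_add_le a b
  have h5 := norm_nonneg (a - b)
  nlinarith

section

variable {p : Par} {H : ℕ → Pol} {X : Type} [NormedAddCommGroup X] [NormedSpace ℝ X]
  [CompleteSpace X] {ι : CV →ₗ[ℝ] X} {K : ℝ}

/-- the first `N` coordinates -/
noncomputable def coordN (N : ℕ) : CV →ₗ[ℝ] (Fin N → ℂ) where
  toFun := fun x i => x i
  map_add' := fun x y => by
    funext i
    rfl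
  map_smul' := fun c x => by
    funext i
    simp

theorem IN_zero' (p : Par) (H : ℕ → Pol) : IN (WW p H 0) 0 = 0 := by
  have := IN_rsmul (fam_WW p H 0) 0 0
  rwa [smul_zero, abs_zero, zero_mul] at this

theorem IN_sum_le' (p : Par) (H : ℕ → Pol) (s : Finset ℕ) (f : ℕ → CV) :
    IN (WW p H 0) (∑ i ∈ s, f i) ≤ ∑ i ∈ s, IN (WW p H 0) (f i) := by
  classical
  induction s using Finset.induction_on with
  | empty => simp [IN_zero']
  | insert a s ha ih =>
    rw [sum_insert ha, sum_insert ha]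
    exact (IN_add (fam_WW p H 0) _ _).trans (add_le_add le_rfl ih)

theorem res_Iio_eq (N : ℕ) (w : CV) :
    res (Set.Iio N) w = ∑ i ∈ range N, (w i) • (Finsupp.single i (1 : ℂ)) := by
  classical
  ext j
  rw [Finsupp.finsetSum_apply]
  simp only [Finsupp.smul_apply, Finsupp.single_apply, smul_eq_mul, mul_ite, mul_one, mul_zero]
  rw [Finset.sum_ite_eq']
  by_cases hj : j < N
  · rw [res_apply_mem _ _ (show j ∈ Set.Iio N from hj), if_pos (mem_range.2 hj)]
  · rw [res_apply_not_mem _ _ (show j ∉ Set.Iio N from hj), if_neg fun h => hj (mem_range.1 h)]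

theorem glide1 (hd : DenseRange ι) (h1 : ∀ x, IN (WW p H 0) x ≤ 2 * ‖ι x‖)
    (h2 : ∀ x, ‖ι x‖ ≤ K * IN (WW p H 0) x) (hK : 1 ≤ K) (A : Submodule ℝ X)
    (hA : ¬ FiniteDimensional ℝ A) (N : ℕ) {δ : ℝ} (hδ : 0 < δ) :
    ∃ a ∈ A, ∃ u : CV, IN (WW p H 0) u = 1 ∧ (∀ i ∈ u.support, N ≤ i) ∧ ‖ι u - a‖ ≤ δ := by
  have hW := fam_WW p H 0
  have hg : ∀ x, ‖coordN N x‖ ≤ 2 * ‖ι x‖ := by
    intro x
    refine (pi_norm_le_iff_of_nonneg (by positivity)).2 fun i => ?_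
    exact (coord_le_IN hW x i).trans (h1 x)
  set f : X →L[ℝ] (Fin N → ℂ) := (coordN N).extendOfNorm ι with hf
  have hf1 : ∀ x, f (ι x) = coordN N x := fun x =>
    LinearMap.extendOfNorm_eq hd ⟨2, hg⟩ x
  have hf2 : ∀ y, ‖f y‖ ≤ 2 * ‖y‖ := fun y => LinearMap.norm_extendOfNorm_apply_le hd 2 hg y
  -- a unit vector of `A` in the kernel of `f`
  obtain ⟨a0, ha0, hne, hfa0⟩ : ∃ a ∈ A, a ≠ 0 ∧ f a = 0 := by
    by_contra hcon
    push Not at hcon
    apply hA
    have hinj : Function.Injective ((f : X →ₗ[ℝ] (Fin N → ℂ)).comp A.subtype) := by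
      refine (injective_iff_map_eq_zero _).2 fun q hq => ?_
      by_contra hq0
      exact hcon q q.2 (fun h => hq0 (Subtype.ext h)) hq
    exact FiniteDimensional.of_injective _ hinj
  have hn0 : 0 < ‖a0‖ := norm_pos_iff.2 hne
  obtain ⟨a, haA, hna, hfa⟩ : ∃ a ∈ A, ‖a‖ = 1 ∧ f a = 0 := by
    refine ⟨‖a0‖⁻¹ • a0, A.smul_mem _ ha0, ?_, ?_⟩
    · rw [norm_smul, norm_inv, norm_norm, inv_mul_cancel₀ hn0.ne']
    · rw [map_smul, hfa0, smul_zero]
  set S : ℝ := ∑ i ∈ range N, IN (WW p H 0) (Finsupp.single i 1) with hS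
  have hS0 : 0 ≤ S := sum_nonneg fun i _ => IN_nonneg hW _
  set η : ℝ := min (1 / 2) (δ / (2 * K)) with hη
  have hK0 : 0 < K := by linarith
  have hη0 : 0 < η := lt_min (by norm_num) (by positivity)
  have hden : 0 < 1 + 2 * K * S := by positivity
  have hδ' : 0 < η / (1 + 2 * K * S) := div_pos hη0 hden
  obtain ⟨w, hw⟩ := hd.exists_dist_lt a hδ'
  rw [dist_comm, dist_eq_norm] at hw
  set δ' := η / (1 + 2 * K * S) with hδ'def
  have hwi : ∀ i, i < N → ‖w i‖ ≤ 2 * δ' := by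
    intro i hi
    have k1 : f (ι w - a) = coordN N w := by rw [map_sub, hfa, sub_zero, hf1]
    have k2 : ‖coordN N w‖ ≤ 2 * ‖ι w - a‖ := by
      rw [← k1]
      exact hf2 _
    have k3 : ‖w i‖ ≤ ‖coordN N w‖ := norm_le_pi_norm (coordN N w) ⟨i, hi⟩
    linarith
  set u : CV := res (Set.Ici N) w with hu
  have hwu : res (Set.Iio N) w + u = w := res_Iio_add_Ici N w
  have hIN : IN (WW p H 0) (res (Set.Iio N) w) ≤ 2 * δ' * S := by
    rw [res_Iio_eq]
    refine (IN_sum_le' p H _ _).trans ?_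
    rw [hS, mul_sum]
    refine sum_le_sum fun i hi => ?_
    rw [IN_smul hW]
    exact mul_le_mul_of_nonneg_right (hwi i (mem_range.1 hi)) (IN_nonneg hW _)
  have hua : ‖ι u - a‖ ≤ η := by
    have k1 : ι u - a = (ι w - a) - ι (res (Set.Iio N) w) := by
      nth_rewrite 1 [← hwu]
      rw [map_add]
      abel
    have k2 : ‖ι (res (Set.Iio N) w)‖ ≤ K * (2 * δ' * S) :=
      (h2 _).trans (mul_le_mul_of_nonneg_left hIN hK0.le)
    have k3 : δ' * (1 + 2 * K * S) = η := by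
      rw [hδ'def]
      field_simp
    calc ‖ι u - a‖ ≤ ‖ι w - a‖ + ‖ι (res (Set.Iio N) w)‖ := by
          rw [k1]
          exact norm_sub_le _ _
      _ ≤ δ' + K * (2 * δ' * S) := add_le_add hw.le k2
      _ = δ' * (1 + 2 * K * S) := by ring
      _ = η := k3
  have hιu : 1 / 2 ≤ ‖ι u‖ := by
    have k1 : ‖a‖ ≤ ‖ι u‖ + ‖ι u - a‖ := by
      have := norm_sub_le (ι u) (ι u - a)
      rwa [sub_sub_cancel] at this
    have k2 : η ≤ 1 / 2 := min_le_left _ _
    linarith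
  set s : ℝ := IN (WW p H 0) u with hs
  have hs1 : 1 / (2 * K) ≤ s := by
    have k1 := hιu.trans (h2 u)
    rw [div_le_iff₀ (by positivity)]
    linarith
  have hs0 : 0 < s := lt_of_lt_of_le (by positivity) hs1
  refine ⟨s⁻¹ • a, A.smul_mem _ haA, s⁻¹ • u, ?_, ?_, ?_⟩
  · rw [IN_rsmul hW, abs_of_pos (inv_pos.2 hs0), ← hs, inv_mul_cancel₀ hs0.ne']
  · intro i hi
    have k1 : i ∈ u.support := Finsupp.support_smul hi
    exact ((res_support (Set.Ici N) w).1 k1).1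
  · rw [map_smul, ← smul_sub, norm_smul, norm_inv, Real.norm_of_nonneg hs0.le]
    have k1 : s⁻¹ ≤ 2 * K := by
      rw [inv_le_comm₀ hs0 (by positivity), ← one_div]
      exact hs1
    have k2 : η ≤ δ / (2 * K) := min_le_right _ _
    calc s⁻¹ * ‖ι u - a‖ ≤ 2 * K * (δ / (2 * K)) :=
          mul_le_mul k1 (hua.trans k2) (norm_nonneg _) (by positivity)
      _ = δ := by field_simp

theorem glide (hd : DenseRange ι) (h1 : ∀ x, IN (WW p H 0) x ≤ 2 * ‖ι x‖)
    (h2 : ∀ x, ‖ι x‖ ≤ K * IN (WW p H 0) x) (hK : 1 ≤ K) (A : Submodule ℝ X)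
    (hA : ¬ FiniteDimensional ℝ A) {δ : ℝ} (hδ : 0 < δ) :
    ∃ (u : ℕ → CV) (a : ℕ → X), Blk u ∧ (∀ k, IN (WW p H 0) (u k) = 1) ∧ (∀ k, a k ∈ A) ∧
      ∀ k, ‖ι (u k) - a k‖ ≤ δ / 2 ^ (k + 1) := by
  have step : ∀ N k : ℕ, ∃ q : CV × X, q.2 ∈ A ∧ IN (WW p H 0) q.1 = 1 ∧
      (∀ i ∈ q.1.support, N ≤ i) ∧ ‖ι q.1 - q.2‖ ≤ δ / 2 ^ (k + 1) := by
    intro N k
    obtain ⟨a, ha, u, hu1, hu2, hu3⟩ := glide1 hd h1 h2 hK A hA N
      (δ := δ / 2 ^ (k + 1)) (by positivity)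
    exact ⟨(u, a), ha, hu1, hu2, hu3⟩
  choose q hq1 hq2 hq3 hq4 using step
  let Nk : ℕ → ℕ := fun k => Nat.rec 0 (fun k N => N + (q N k).1.support.sup id + 1) k
  have hNk : ∀ k, Nk (k + 1) = Nk k + (q (Nk k) k).1.support.sup id + 1 := fun k => rfl
  have hmono : ∀ k l, k ≤ l → Nk k ≤ Nk l := by
    intro k l hkl
    induction l, hkl using Nat.le_induction with
    | base => exact le_rfl
    | succ l _ ih =>
      rw [hNk]
      omega
  have hlt : ∀ k, ∀ i ∈ (q (Nk k) k).1.support, i < Nk (k + 1) := by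
    intro k i hi
    have := Finset.le_sup (f := id) hi
    simp only [id] at this
    rw [hNk]
    omega
  refine ⟨fun k => (q (Nk k) k).1, fun k => (q (Nk k) k).2, ⟨fun k h0 => ?_, ?_⟩,
    fun k => hq2 _ _, fun k => hq1 _ _, fun k => hq4 _ _⟩
  · have := hq2 (Nk k) k
    have h0' : (q (Nk k) k).1 = 0 := h0
    rw [h0', IN_zero'] at this
    exact zero_ne_one this
  · intro k l hkl i hi j hj
    have k1 := hlt k i hi
    have k2 := hmono (k + 1) l hkl
    have k3 := hq3 (Nk l) l j hj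
    omega

theorem sum_geom (δ : ℝ) (n : ℕ) : ∑ k ∈ range n, δ / 2 ^ (k + 1) = δ * (1 - 1 / 2 ^ n) := by
  induction n with
  | zero => simp
  | succ n ih =>
    rw [sum_range_succ, ih]
    field_simp
    ring

omit [CompleteSpace X] in
theorem glide_approx (A : Submodule ℝ X) {δ : ℝ} (hδ : 0 < δ) (u : ℕ → CV) (a : ℕ → X)
    (hu : Blk u) (h1 : ∀ k, IN (WW p H 0) (u k) = 1) (ha : ∀ k, a k ∈ A)
    (hd : ∀ k, ‖ι (u k) - a k‖ ≤ δ / 2 ^ (k + 1)) {y : CV} (hy : y ∈ Sp u) :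
    ∃ y' ∈ A, ‖ι y - y'‖ ≤ δ * IN (WW p H 0) y := by
  classical
  have hW := fam_WW p H 0
  unfold Sp at hy
  obtain ⟨c, rfl⟩ := Finsupp.mem_span_range_iff_exists_finsupp.1 hy
  set y : CV := c.sum fun i x => x • u i with hydef
  have hc : ∀ k ∈ c.support, |c k| ≤ IN (WW p H 0) y := by
    intro k hk
    set E : Set ℕ := {i | ∃ a ∈ (u k).support, ∃ b ∈ (u k).support, a ≤ i ∧ i ≤ b} with hE
    have hEo : E.OrdConnected := by
      refine ⟨?_⟩
      rintro i ⟨a1, ha1, b1, hb1, h11, h12⟩ j ⟨a2, ha2, b2, hb2, h21, h22⟩ l ⟨hl1, hl2⟩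
      exact ⟨a1, ha1, b2, hb2, h11.trans hl1, hl2.trans h22⟩
    have hres : res E y = c k • u k := by
      rw [hydef, Finsupp.sum, res_sum]
      rw [Finset.sum_eq_single k]
      · rw [res_smul_rc, res_eq_self]
        intro i hi
        exact ⟨i, hi, i, hi, le_rfl, le_rfl⟩
      · intro l _ hlk
        rw [res_smul_rc, res_eq_zero, smul_zero]
        rintro i hi ⟨a1, ha1, b1, hb1, h11, h12⟩
        rcases lt_or_gt_of_ne hlk with h | h
        · exact absurd (hu.lt l k h i hi a1 ha1) (by omega)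
        · exact absurd (hu.lt k l h b1 hb1 i hi) (by omega)
      · intro h
        exact absurd hk h
    calc |c k| = IN (WW p H 0) (c k • u k) := by rw [IN_rsmul hW, h1, mul_one]
      _ = IN (WW p H 0) (res E y) := by rw [hres]
      _ ≤ IN (WW p H 0) y := IN_res hW E hEo y
  refine ⟨c.sum fun i x => x • a i, A.sum_mem fun i _ => A.smul_mem _ (ha i), ?_⟩
  have e1 : ι y - (c.sum fun i x => x • a i) = ∑ k ∈ c.support, c k • (ι (u k) - a k) := by
    rw [hydef, Finsupp.sum, Finsupp.sum, map_sum, ← Finset.sum_sub_distrib]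
    refine Finset.sum_congr rfl fun k _ => ?_
    rw [map_smul, smul_sub]
  rw [e1]
  have hy0 : 0 ≤ IN (WW p H 0) y := IN_nonneg hW y
  calc ‖∑ k ∈ c.support, c k • (ι (u k) - a k)‖
      ≤ ∑ k ∈ c.support, ‖c k • (ι (u k) - a k)‖ := norm_sum_le _ _
    _ ≤ ∑ k ∈ c.support, IN (WW p H 0) y * (δ / 2 ^ (k + 1)) := by
        refine sum_le_sum fun k hk => ?_
        rw [norm_smul, Real.norm_eq_abs]
        exact mul_le_mul (hc k hk) (hd k) (norm_nonneg _) hy0
    _ = IN (WW p H 0) y * ∑ k ∈ c.support, δ / 2 ^ (k + 1) := by rw [mul_sum]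
    _ ≤ IN (WW p H 0) y * δ := by
        refine mul_le_mul_of_nonneg_left ?_ hy0
        have k1 : c.support ⊆ range (c.support.sup id + 1) := fun i hi => by
          have := Finset.le_sup (f := id) hi
          simp only [id] at this
          rw [mem_range]
          omega
        calc ∑ k ∈ c.support, δ / 2 ^ (k + 1)
            ≤ ∑ k ∈ range (c.support.sup id + 1), δ / 2 ^ (k + 1) :=
              sum_le_sum_of_subset_of_nonneg k1 fun i _ _ => by positivity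
          _ = δ * (1 - 1 / 2 ^ (c.support.sup id + 1)) := sum_geom _ _
          _ ≤ δ * 1 := by
              refine mul_le_mul_of_nonneg_left ?_ hδ.le
              have : (0 : ℝ) ≤ 1 / 2 ^ (c.support.sup id + 1) := by positivity
              linarith
          _ = δ := mul_one _
    _ = δ * IN (WW p H 0) y := mul_comm _ _

end

end Pool.Agent.HB
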