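import Pool.Agent.HB.H.Defs

/-!
# HB.H.LB: lower estimate for sums of successive vectors in the interpolation norm

PROOF.  `W = WW p H i0`.  Let `A > IN W (∑ x r)` and `F` a polynomial with `ev 0 F = ∑_{r<M} x r`, `W t (ev (zz t) F) ≤ A` for all `t` (`IN_exists`).
`E r` = an order connected hull of the support of `x r` (e.g. `Icc min max`, `∅` if `x r = 0`), `r < M`; `E r = ∅` for `r ≥ M`; they are
successive, and `res (E r) (∑ x) = x r`.  The polynomial `(1 - X) • res (E r) F` has value `x r` at `0`, so by `bal` (k = 3)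
`1 ≤ IN W (x r)^3 ≤ ∫ ‖1 - zz t‖³ W t (res (E r) (F t))³ dt`, and summing `M ≤ ∫ ‖1 - zz t‖³ ∑_{r<M} W t (res (E r) (F t))³ dt`.
Pointwise bound of the integrand by `72 m_c A³`:
* `zz t` on no arc `j ≥ i0`: `W = Lf` (`nrm_off`); `∑_{r<n_c} Lf(res (E r) F)³ ≤ √m_c Lc c (F)³ ≤ √m_c A³` (`sum_L_cube`), `‖1-zz t‖ ≤ 2`.
* arc `j ≥ i0`, `lc j ≤ c`: `W³ ≤ 9 √m_{lc j} Lf³ ≤ 9 √m_c Lf³` (`nrm_le`), so `≤ 8 · 9 √m_c √m_c A³` (`Lf ≤ W ≤ A`).
* arc `j ≥ i0`, `c < lc j`, i.e. `c ≤ 2j+1`: `W (res (E r) F) ≤ W F ≤ A`, the sum is `≤ M A³ ≤ n_c A³ ≤ n_{2j+1} A³` and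
  `‖1-zz t‖³ ≤ ‖1-zz t‖ ≤ n_{2j+1}^{-9}` (`arc_small`, `‖1-zz t‖ ≤ 1`).
So `M ≤ 72 m_c A³`; let `A → IN W (∑ x)`; `72 ≤ 125`.
-/

open Finset Polynomial

namespace Pool.Agent.HB

/-- the hulls of the supports -/
private def lbE (M : ℕ) (x : ℕ → CV) (r : ℕ) : Set ℕ :=
  {i | r < M ∧ ∃ a ∈ (x r).support, ∃ b ∈ (x r).support, a ≤ i ∧ i ≤ b}

private theorem lbE_conn (M : ℕ) (x : ℕ → CV) (r : ℕ) : (lbE M x r).OrdConnected := by
  refine ⟨fun i hi j hj m hm => ?_⟩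
  obtain ⟨h, a, ha, _, _, h1, _⟩ := hi
  obtain ⟨_, _, _, b, hb, _, h2⟩ := hj
  exact ⟨h, a, ha, b, hb, h1.trans hm.1, hm.2.trans h2⟩

private theorem lbE_lt {M : ℕ} {x : ℕ → CV} (hs : ∀ r < M, ∀ r' < M, r < r' → Lt (x r) (x r')) :
    ∀ i j, i < j → ∀ a ∈ lbE M x i, ∀ b ∈ lbE M x j, a < b := by
  intro i j hij a ha b hb
  obtain ⟨h, _, _, a2, ha2, _, h1⟩ := ha
  obtain ⟨h', b1, hb1, _, _, h2, _⟩ := hb
  exact h1.trans_lt ((hs i h j h' hij a2 ha2 b1 hb1).trans_le h2)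

private theorem lbE_res {M : ℕ} {x : ℕ → CV} (hs : ∀ r < M, ∀ r' < M, r < r' → Lt (x r) (x r'))
    {r : ℕ} (hr : r < M) : res (lbE M x r) (∑ k ∈ range M, x k) = x r := by
  have hmem : ∀ k < M, ∀ i ∈ (x k).support, i ∈ lbE M x k := fun k hk i hi =>
    ⟨hk, i, hi, i, hi, le_rfl, le_rfl⟩
  rw [res_sum, Finset.sum_eq_single r]
  · exact res_eq_self _ _ fun i hi => hmem r hr i hi
  · intro k hk hkr
    have hk' := mem_range.1 hk
    ext i
    by_cases hi : i ∈ lbE M x r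
    · rw [res_apply_mem _ _ hi]
      by_contra hne
      have hi2 : i ∈ (x k).support := Finsupp.mem_support_iff.2 hne
      rcases lt_or_gt_of_ne hkr with h | h
      · exact lt_irrefl _ (lbE_lt hs k r h i (hmem k hk' i hi2) i hi)
      · exact lt_irrefl _ (lbE_lt hs r k h i hi i (hmem k hk' i hi2))
    · rw [res_apply_not_mem _ _ hi]
      rfl
  · intro h
    exact absurd (mem_range.2 hr) h

/-- the sum of the cubes of the lattice norms -/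
private theorem lb_L (p : Par) {M c : ℕ} (hM : M ≤ p.n c) {x : ℕ → CV}
    (hs : ∀ r < M, ∀ r' < M, r < r' → Lt (x r) (x r')) (y : CV) {A : ℝ} (hA : Lf p y ≤ A) :
    ∑ r ∈ range M, Lf p (res (lbE M x r) y) ^ 3 ≤ √(p.m c) * A ^ 3 := by
  have h1 : ∑ r ∈ range M, Lf p (res (lbE M x r) y) ^ 3 ≤
      ∑ r ∈ range (p.n c), Lf p (res (lbE M x r) y) ^ 3 := by
    refine Finset.sum_le_sum_of_subset_of_nonneg (range_mono hM) fun r _ _ => ?_
    exact pow_nonneg (Lf_nonneg' p _) 3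
  refine (h1.trans (sum_L_cube p c _ (lbE_lt hs) y)).trans ?_
  refine mul_le_mul_of_nonneg_left ?_ (Real.sqrt_nonneg _)
  exact pow_le_pow_left₀ (LG_nonneg (good_gamc p c) y) ((Lc_le_L p c y).trans hA) 3

/-- the pointwise estimate -/
private theorem lb_pt (p : Par) (H : ℕ → Pol) (i0 : ℕ) {M c : ℕ} (hM : M ≤ p.n c) {x : ℕ → CV}
    (hs : ∀ r < M, ∀ r' < M, r < r' → Lt (x r) (x r')) {τ : ℂ} (hτ : ‖τ‖ = 1) (y : CV) {A : ℝ}
    (hA0 : 0 ≤ A) (hA : nrm p H i0 τ y ≤ A) :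
    ∑ r ∈ range M, (‖1 - τ‖ * nrm p H i0 τ (res (lbE M x r) y)) ^ 3 ≤ 72 * p.m c * A ^ 3 := by
  have hr2 : ‖1 - τ‖ ≤ 2 := by
    have := norm_sub_le (1 : ℂ) τ
    rw [hτ, norm_one] at this
    linarith
  have hr8 : ‖1 - τ‖ ^ 3 ≤ 8 := by
    have := pow_le_pow_left₀ (norm_nonneg (1 - τ)) hr2 3
    linarith
  have hm1 := one_le_m p c
  have hm : √(p.m c) * √(p.m c) = p.m c := Real.mul_self_sqrt (par_m_pos p c).le
  have hm2 : √(p.m c) ≤ p.m c := by nlinarith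
  have hA3 : 0 ≤ A ^ 3 := by positivity
  have hL : Lf p y ≤ A := (L_le_nrm (H := H) (i0 := i0) hτ y).trans hA
  have hLs := lb_L p hM hs y hL
  have e : ∑ r ∈ range M, (‖1 - τ‖ * nrm p H i0 τ (res (lbE M x r) y)) ^ 3 =
      ‖1 - τ‖ ^ 3 * ∑ r ∈ range M, nrm p H i0 τ (res (lbE M x r) y) ^ 3 := by
    rw [Finset.mul_sum]
    exact Finset.sum_congr rfl fun r _ => mul_pow _ _ _
  rw [e]
  have hS0 : 0 ≤ ∑ r ∈ range M, nrm p H i0 τ (res (lbE M x r) y) ^ 3 :=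
    Finset.sum_nonneg fun r _ => pow_nonneg (nrm_nonneg' hτ _) 3
  rcases nrm3_cases (p := p) hτ i0 with ⟨j, hj, ha⟩ | h
  · by_cases hc : lc j ≤ c
    · have h1 : ∑ r ∈ range M, nrm p H i0 τ (res (lbE M x r) y) ^ 3 ≤ 9 * p.m c * A ^ 3 := by
        have h2 : ∑ r ∈ range M, nrm p H i0 τ (res (lbE M x r) y) ^ 3 ≤
            ∑ r ∈ range M, 9 * √(p.m c) * Lf p (res (lbE M x r) y) ^ 3 := by
          refine Finset.sum_le_sum fun r _ => (nrm_le ha _).trans ?_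
          refine mul_le_mul_of_nonneg_right ?_ (pow_nonneg (Lf_nonneg' p _) 3)
          exact mul_le_mul_of_nonneg_left (Real.sqrt_le_sqrt (par_m_mono p hc)) (by norm_num)
        refine h2.trans ?_
        rw [← Finset.mul_sum]
        calc 9 * √(p.m c) * ∑ r ∈ range M, Lf p (res (lbE M x r) y) ^ 3
            ≤ 9 * √(p.m c) * (√(p.m c) * A ^ 3) := mul_le_mul_of_nonneg_left hLs (by positivity)
          _ = 9 * (√(p.m c) * √(p.m c)) * A ^ 3 := by ring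
          _ = 9 * p.m c * A ^ 3 := by rw [hm]
      calc ‖1 - τ‖ ^ 3 * ∑ r ∈ range M, nrm p H i0 τ (res (lbE M x r) y) ^ 3
          ≤ 8 * (9 * p.m c * A ^ 3) := mul_le_mul hr8 h1 hS0 (by norm_num)
        _ = 72 * p.m c * A ^ 3 := by ring
    · have hc' : c ≤ 2 * j + 1 := by
        unfold lc at hc
        omega
      have hsm := arc_small (p := p) ha
      have hn1 : (1 : ℝ) ≤ (p.n (2 * j + 1) : ℝ) := by
        exact_mod_cast par_n_pos p (2 * j + 1)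
      have hn9 : (p.n (2 * j + 1) : ℝ) ≤ (p.n (2 * j + 1) : ℝ) ^ 9 := by
        calc (p.n (2 * j + 1) : ℝ) = (p.n (2 * j + 1) : ℝ) ^ 1 := (pow_one _).symm
          _ ≤ (p.n (2 * j + 1) : ℝ) ^ 9 := pow_le_pow_right₀ hn1 (by norm_num)
      have hr0 := norm_nonneg (1 - τ)
      have hrn : ‖1 - τ‖ * (p.n (2 * j + 1) : ℝ) ≤ 1 :=
        (mul_le_mul_of_nonneg_left hn9 hr0).trans hsm
      have hr1 : ‖1 - τ‖ ≤ 1 := by
        have := mul_le_mul_of_nonneg_left hn1 hr0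
        linarith
      have hr3 : ‖1 - τ‖ ^ 3 ≤ ‖1 - τ‖ := by
        calc ‖1 - τ‖ ^ 3 ≤ ‖1 - τ‖ ^ 1 := pow_le_pow_of_le_one hr0 hr1 (by norm_num)
          _ = ‖1 - τ‖ := pow_one _
      have h1 : ∑ r ∈ range M, nrm p H i0 τ (res (lbE M x r) y) ^ 3 ≤
          (p.n (2 * j + 1) : ℝ) * A ^ 3 := by
        have h2 : ∑ r ∈ range M, nrm p H i0 τ (res (lbE M x r) y) ^ 3 ≤
            ∑ _r ∈ range M, A ^ 3 := by
          refine Finset.sum_le_sum fun r _ => ?_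
          exact pow_le_pow_left₀ (nrm_nonneg' hτ _) ((nrm_res hτ _ (lbE_conn M x r) y).trans hA) 3
        rw [Finset.sum_const, card_range, nsmul_eq_mul] at h2
        refine h2.trans (mul_le_mul_of_nonneg_right ?_ hA3)
        exact_mod_cast hM.trans (par_n_mono p hc')
      calc ‖1 - τ‖ ^ 3 * ∑ r ∈ range M, nrm p H i0 τ (res (lbE M x r) y) ^ 3
          ≤ ‖1 - τ‖ * ((p.n (2 * j + 1) : ℝ) * A ^ 3) := mul_le_mul hr3 h1 hS0 hr0
        _ = ‖1 - τ‖ * (p.n (2 * j + 1) : ℝ) * A ^ 3 := by ring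
        _ ≤ 1 * A ^ 3 := mul_le_mul_of_nonneg_right hrn hA3
        _ ≤ 72 * p.m c * A ^ 3 := mul_le_mul_of_nonneg_right (by linarith) hA3
  · have h1 : ∑ r ∈ range M, nrm p H i0 τ (res (lbE M x r) y) ^ 3 ≤ √(p.m c) * A ^ 3 := by
      refine le_trans (le_of_eq ?_) hLs
      exact Finset.sum_congr rfl fun r _ => by rw [nrm_off hτ h]
    calc ‖1 - τ‖ ^ 3 * ∑ r ∈ range M, nrm p H i0 τ (res (lbE M x r) y) ^ 3
        ≤ 8 * (√(p.m c) * A ^ 3) := mul_le_mul hr8 h1 hS0 (by norm_num)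
      _ = 8 * √(p.m c) * A ^ 3 := by ring
      _ ≤ 72 * p.m c * A ^ 3 := mul_le_mul_of_nonneg_right (by linarith) hA3

/-- the estimate with `A > IN` -/
private theorem lb_A (p : Par) (H : ℕ → Pol) (i0 : ℕ) {M c : ℕ} (hM : M ≤ p.n c) {x : ℕ → CV}
    (hs : ∀ r < M, ∀ r' < M, r < r' → Lt (x r) (x r'))
    (h1 : ∀ r < M, 1 ≤ IN (WW p H i0) (x r)) {A : ℝ}
    (hA : IN (WW p H i0) (∑ r ∈ range M, x r) < A) :
    (M : ℝ) ≤ 72 * p.m c * A ^ 3 := by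
  have hW := fam_WW p H i0
  have hA0 : 0 ≤ A := (IN_nonneg hW _).trans hA.le
  obtain ⟨F, hF, hFA⟩ := IN_exists hW hA
  set G : ℕ → Pol := fun r => ((1 - X : ℂ[X])) • res (lbE M x r) F with hG
  have hG0 : ∀ r < M, ev 0 (G r) = x r := by
    intro r hr
    rw [hG]
    show ev 0 (((1 - X : ℂ[X])) • res (lbE M x r) F) = x r
    rw [ev_smul, ev_res, hF, lbE_res hs hr]
    simp
  have hGt : ∀ r t, WW p H i0 t (ev (zz t) (G r)) =
      ‖1 - zz t‖ * nrm p H i0 (zz t) (res (lbE M x r) (ev (zz t) F)) := by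
    intro r t
    show WW p H i0 t (ev (zz t) (((1 - X : ℂ[X])) • res (lbE M x r) F)) = _
    rw [ev_smul, hW.smul, ev_res]
    simp [WW]
  have hb : ∀ r < M, (1 : ℝ) ≤ ∫ t, WW p H i0 t (ev (zz t) (G r)) ^ 3 ∂haar := by
    intro r hr
    have h2 := bal hW (G r) 3 (by norm_num)
    rw [hG0 r hr] at h2
    exact (one_le_pow₀ (h1 r hr)).trans h2
  have hint : ∀ r, MeasureTheory.Integrable
      (fun t => WW p H i0 t (ev (zz t) (G r)) ^ 3) haar := fun r =>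
    cont_int_real ((hW.cont _ (cur_ev _)).pow 3)
  calc (M : ℝ) = ∑ _r ∈ range M, (1 : ℝ) := by simp
    _ ≤ ∑ r ∈ range M, ∫ t, WW p H i0 t (ev (zz t) (G r)) ^ 3 ∂haar :=
        Finset.sum_le_sum fun r hr => hb r (mem_range.1 hr)
    _ = ∫ t, ∑ r ∈ range M, WW p H i0 t (ev (zz t) (G r)) ^ 3 ∂haar :=
        (MeasureTheory.integral_finsetSum _ fun r _ => hint r).symm
    _ ≤ ∫ _t : TC, 72 * p.m c * A ^ 3 ∂haar := by
        refine MeasureTheory.integral_mono (MeasureTheory.integrable_finsetSum _ fun r _ => hint r)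
          (MeasureTheory.integrable_const _) fun t => ?_
        show ∑ r ∈ range M, WW p H i0 t (ev (zz t) (G r)) ^ 3 ≤ 72 * p.m c * A ^ 3
        simp only [hGt]
        exact lb_pt p H i0 hM hs (norm_zz t) _ hA0 (hFA t)
    _ = 72 * p.m c * A ^ 3 := by simp

theorem lb_lemma (p : Par) (H : ℕ → Pol) (i0 c M : ℕ) (hM : M ≤ p.n c) (x : ℕ → CV)
    (hs : ∀ r < M, ∀ r' < M, r < r' → Lt (x r) (x r'))
    (h1 : ∀ r < M, 1 ≤ IN (WW p H i0) (x r)) :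
    (M : ℝ) ≤ 125 * p.m c * IN (WW p H i0) (∑ r ∈ range M, x r) ^ 3 := by
  have hW := fam_WW p H i0
  have hm := par_m_pos p c
  have hlim : Filter.Tendsto
      (fun ε : ℝ => 72 * p.m c * (IN (WW p H i0) (∑ r ∈ range M, x r) + ε) ^ 3)
      (nhdsWithin 0 (Set.Ioi 0))
      (nhds (72 * p.m c * IN (WW p H i0) (∑ r ∈ range M, x r) ^ 3)) := by
    have hc : Continuous
        fun ε : ℝ => 72 * p.m c * (IN (WW p H i0) (∑ r ∈ range M, x r) + ε) ^ 3 := by fun_prop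
    have := hc.tendsto 0
    rw [add_zero] at this
    exact this.mono_left nhdsWithin_le_nhds
  have h2 : (M : ℝ) ≤ 72 * p.m c * IN (WW p H i0) (∑ r ∈ range M, x r) ^ 3 := by
    refine ge_of_tendsto hlim ?_
    filter_upwards [self_mem_nhdsWithin] with ε hε
    refine lb_A p H i0 hM hs h1 ?_
    have : 0 < ε := hε
    linarith
  refine h2.trans (mul_le_mul_of_nonneg_right ?_ (pow_nonneg (IN_nonneg hW _) 3))
  linarith

end Pool.Agent.HB
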