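import Pool.Agent.HB.H.Defs

/-!
# HB.H.Lower: lower bound for the sum of a special sequence

`n = p.n (lc j)`, `m = p.m (lc j)`, `g = (1/6) log m · ∫ tn(‖1 - zz t‖/dd j)`.
PROOF.  Let `A > IN (∑ x l)`, `P` a polynomial with `ev 0 P = ∑_{l<n} x l`, `nrm p H 0 (zz t) (ev (zz t) P) ≤ A`.  `Q = prP (∑_{l<n} H (ν l)) P`.
`Q(0) = ∑_l pr (ev 0 (H (ν l))) (∑ x) = ∑_l pr (ev 0 (H (ν l))) (x l)` (disjoint supports), so `‖Q(0)‖ ≥ n (1-ε) ≥ n/2`.
`outer` with `g(t) = (1/6) log m · tn(‖1-zz t‖/dd j)` and `ε = 1` gives `φ`; `ψ = e^{g} φ`: `ψ(0) = e^{g}`, `‖ψ(zz t)‖ ≤ exp((1/6) log m · tn + 1)`.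
`Pi0 = Q ψ (1 - X)`, `‖Pi0(0)‖ ≥ (n/2) e^{g}`; claim `‖Pi0(zz t)‖ ≤ 2e m^{1/6} n^{2/3} A`:
(a) `tn ≠ 0`: then `1 < ‖1-zz t‖/dd j < 3/2`, `Arc p j`, `psi = 1`.  `n` is even, `n = 2k`; `Q(zz t) = ∑_{i<k} q_i`, `q_i = pr(H(ν(2i)))P + pr(H(ν(2i+1)))P`, and
  `∑ ‖q_i‖³ = PE H (zz t) (ev P) (nodeL ν n) ≤ S3 ≤ nrm³ ≤ A³` (`PE_le_S3`, `nrm_arc`).  Hölder: `‖Q‖ ≤ k^{2/3} A ≤ n^{2/3} A`; `‖ψ‖ ≤ e m^{1/6}`.
(b) `tn = 0` (`‖ψ‖ ≤ e`), and every arc `i` containing `zz t` has `i ≤ j`: then `lc i ≤ lc j < code` so by `g1`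
  `‖pr (H (ν l)) y‖ ≤ Lc (code ..) y ≤ Lf y`; `dual_avg` (`c = lc j`): `‖Q‖ ≤ n^{2/3} m^{1/6} Lf(P) ≤ n^{2/3} m^{1/6} A`.
(c) `zz t` on an arc `i > j`: for each `l`, with `c_l` the code: if `c_l < lc i = 2i+2` then `≤ p.n c_l · A ≤ p.n (2i+1) A` (`g2`, `par_n_mono`), if
  `c_l > lc i` then `≤ Lc P ≤ A` (`g1`, `arc_unique`); `c_l ≠ lc i` (`code_ne_lc`).  So `‖Q‖ ≤ n · p.n (2i+1) A ≤ (p.n (2i+1))² A` (`lc j ≤ 2i+1`) and
  `‖1 - zz t‖ ≤ (p.n (2i+1))^{-9}` (`arc_small`).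
`max_poly`: `(n/2) e^{g} ≤ 2e m^{1/6} n^{2/3} A`, so `e^{g} n^{1/3} ≤ 4e m^{1/6} A ≤ 12 m^{1/6} A`.
-/

open Finset Polynomial Real MeasureTheory

namespace Pool.Agent.HB

namespace LowerAux

theorem nodeL_length (ν : ℕ → ℕ) (l : ℕ) : (nodeL ν l).length = l := by
  induction l with
  | zero => rfl
  | succ l ih =>
    change (nodeL ν l).length + 1 = l + 1
    rw [ih]

theorem PE_nodeL (H : ℕ → Pol) (ν : ℕ → ℕ) (τ : ℂ) (y : CV) (k : ℕ) :
    PE H τ y (nodeL ν (2 * k)) = ∑ i ∈ range k,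
      ‖pr (ev τ (H (ν (2 * i)))) y + pr (ev τ (H (ν (2 * i + 1)))) y‖ ^ 3 := by
  induction k with
  | zero =>
    change PE H τ y [] = _
    rw [range_zero, sum_empty]
    rfl
  | succ k ih =>
    rw [sum_range_succ, ← ih]
    change ‖pr (ev τ (H (ν (2 * k + 1)))) y + pr (ev τ (H (ν (2 * k)))) y‖ ^ 3 +
      PE H τ y (nodeL ν (2 * k)) = _
    rw [add_comm, add_comm (pr (ev τ (H (ν (2 * k + 1)))) y)]

theorem sum_pairs (f : ℕ → ℂ) (k : ℕ) :
    ∑ l ∈ range (2 * k), f l = ∑ i ∈ range k, (f (2 * i) + f (2 * i + 1)) := by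
  induction k with
  | zero => simp
  | succ k ih =>
    rw [show 2 * (k + 1) = 2 * k + 1 + 1 by ring, sum_range_succ, sum_range_succ, ih,
      sum_range_succ]
    ring

theorem cube_sum (k : ℕ) (f : ℕ → ℝ) (hf : ∀ i, 0 ≤ f i) (A : ℝ) (hA : 0 ≤ A) (n : ℝ)
    (hn : (k : ℝ) ≤ n) (h : ∑ i ∈ range k, f i ^ 3 ≤ A ^ 3) :
    ∑ i ∈ range k, f i ≤ n ^ ((2 : ℝ) / 3) * A := by
  have hn0 : 0 ≤ n := (Nat.cast_nonneg k).trans hn
  rcases Nat.eq_zero_or_pos k with rfl | hk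
  · rw [range_zero, sum_empty]
    positivity
  have hk0 : (0 : ℝ) < k := by exact_mod_cast hk
  have h3 := pow_sum_div_card_le_sum_pow (s := range k) (f := f) (fun i _ => hf i) 2
  rw [card_range, div_le_iff₀ (by positivity)] at h3
  norm_num at h3
  refine le_of_pow_le_pow_left₀ (n := 3) (by norm_num) (by positivity) ?_
  have e1 : (n ^ ((2 : ℝ) / 3) * A) ^ 3 = A ^ 3 * n ^ 2 := by
    rw [mul_pow, ← Real.rpow_natCast (n ^ ((2 : ℝ) / 3)), ← Real.rpow_mul hn0]
    norm_num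
    ring
  rw [e1]
  refine h3.trans ?_
  exact mul_le_mul h (pow_le_pow_left₀ hk0.le hn 2) (by positivity) (by positivity)

theorem n_even (p : Par) (c : ℕ) : ∃ k, p.n c = 2 * k := by
  have h := par_N_ge p c
  refine ⟨2 ^ (p.N c - 1), ?_⟩
  unfold Par.n
  rw [← pow_succ']
  congr 1
  omega

end LowerAux

open LowerAux

/-- the bound on the circle -/
theorem lower_key (p : Par) (H : ℕ → Pol) (j : ℕ) {ε : ℝ} {u v x : ℕ → CV}
    {F : ℕ → Pol} {ν a b : ℕ → ℕ} (hS : Spec p H j ε u v x F ν a b) (t : TC) (y : CV) (A : ℝ)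
    (hA : 0 ≤ A) (hy : nrm p H 0 (zz t) y ≤ A) :
    ‖∑ l ∈ range (p.n (lc j)), pr (ev (zz t) (H (ν l))) y‖ *
      exp ((1 / 6) * log (p.m (lc j)) * tn (‖1 - zz t‖ / dd p j) + 1) * ‖1 - zz t‖ ≤
      2 * exp 1 * (p.m (lc j)) ^ ((1 : ℝ) / 6) * (p.n (lc j) : ℝ) ^ ((2 : ℝ) / 3) * A := by
  have hm0 := par_m_pos p (lc j)
  have hm1 : 1 ≤ p.m (lc j) := le_trans (by norm_num) (par_m_ge p (lc j))
  have hn0 := par_n_pos p (lc j)
  set n : ℕ := p.n (lc j) with hn
  set m : ℝ := p.m (lc j) with hm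
  have hnR : (1 : ℝ) ≤ n := by exact_mod_cast hn0
  set M : ℝ := m ^ ((1 : ℝ) / 6) with hM
  have hM1 : 1 ≤ M := Real.one_le_rpow hm1 (by norm_num)
  set R : ℝ := (n : ℝ) ^ ((2 : ℝ) / 3) with hR
  have hR1 : 1 ≤ R := Real.one_le_rpow hnR (by norm_num)
  have hlog : 0 ≤ log m := Real.log_nonneg hm1
  have hMe : M = exp ((1 / 6) * log m) := by
    rw [hM, Real.rpow_def_of_pos hm0]
    congr 1
    ring
  have he0 : 0 < exp 1 := exp_pos 1
  have hzz := norm_zz t
  have hz2 : ‖1 - zz t‖ ≤ 2 := by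
    refine (norm_sub_le _ _).trans ?_
    rw [hzz, norm_one]
    norm_num
  have hz0 : 0 ≤ ‖1 - zz t‖ := norm_nonneg _
  have hL : Lf p y ≤ A := (L_le_nrm hzz y).trans hy
  set q : ℕ → ℂ := fun l => pr (ev (zz t) (H (ν l))) y with hq
  change ‖∑ l ∈ range n, q l‖ * _ * _ ≤ _
  by_cases htn : tn (‖1 - zz t‖ / dd p j) = 0
  · rw [htn, mul_zero, zero_add]
    by_cases harc : ∃ i, j < i ∧ Arc p i (zz t)
    · -- case (c)
      obtain ⟨i, hji, hi⟩ := harc
      set B : ℝ := (p.n (2 * i + 1) : ℝ) with hB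
      have hB1 : 1 ≤ B := by
        rw [hB]
        exact_mod_cast par_n_pos p (2 * i + 1)
      have hql : ∀ l ∈ range n, ‖q l‖ ≤ B * A := by
        intro l hl
        have hl' := mem_range.1 hl
        have hep := hS.ep l hl'
        rcases lt_trichotomy (code j (nodeL ν l)) (lc i) with h | h | h
        · have k1 := hep.g2 t i hi h y
          have k2 : (p.n (code j (nodeL ν l)) : ℝ) ≤ B := by
            rw [hB]
            exact_mod_cast par_n_mono p (by unfold lc at h; omega)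
          exact k1.trans (mul_le_mul k2 hy (nrm_nonneg' hzz y) (by linarith))
        · exact absurd h (code_ne_lc i j _)
        · have k1 := hep.g1 t (fun j' hj' => by rw [← arc_unique p hi hj']; exact h) y
          have k2 : ‖q l‖ ≤ A := k1.trans ((Lc_le_L p _ _).trans hL)
          nlinarith
      have hQ : ‖∑ l ∈ range n, q l‖ ≤ B * B * A := by
        refine (norm_sum_le _ _).trans ((sum_le_sum hql).trans ?_)
        rw [sum_const, card_range, nsmul_eq_mul, ← mul_assoc]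
        have k1 : (n : ℝ) ≤ B := by
          rw [hB, hn]
          exact_mod_cast par_n_mono p (by unfold lc; omega)
        exact mul_le_mul_of_nonneg_right (mul_le_mul_of_nonneg_right k1 (by linarith)) hA
      have hsm := arc_small p hi
      have hQz : ‖∑ l ∈ range n, q l‖ * ‖1 - zz t‖ ≤ A := by
        calc ‖∑ l ∈ range n, q l‖ * ‖1 - zz t‖ ≤ (B * B * A) * ‖1 - zz t‖ :=
              mul_le_mul_of_nonneg_right hQ hz0
          _ = (‖1 - zz t‖ * B ^ 2) * A := by ring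
          _ ≤ (‖1 - zz t‖ * B ^ 9) * A := by
              refine mul_le_mul_of_nonneg_right (mul_le_mul_of_nonneg_left ?_ hz0) hA
              exact pow_le_pow_right₀ hB1 (by norm_num)
          _ ≤ 1 * A := mul_le_mul_of_nonneg_right hsm hA
          _ = A := one_mul A
      calc ‖∑ l ∈ range n, q l‖ * exp 1 * ‖1 - zz t‖ =
            exp 1 * (‖∑ l ∈ range n, q l‖ * ‖1 - zz t‖) := by ring
        _ ≤ exp 1 * A := mul_le_mul_of_nonneg_left hQz he0.le
        _ ≤ (2 * M * R) * (exp 1 * A) := by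
            have k1 : 1 ≤ 2 * M * R := by nlinarith
            have k2 : 0 ≤ exp 1 * A := by positivity
            nlinarith
        _ = 2 * exp 1 * M * R * A := by ring
    · -- case (b)
      push Not at harc
      have hgl : ∀ l < n, ∀ z : CV, ‖pr (ev (zz t) (H (ν l))) z‖ ≤ Lf p z := by
        intro l hl z
        have hep := hS.ep l hl
        refine (hep.g1 t (fun i hi => ?_) z).trans (Lc_le_L p _ _)
        have k1 : i ≤ j := by
          by_contra hcon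
          exact harc i (by omega) hi
        have k2 := lc_lt_code j (nodeL ν l)
        unfold lc at k2 ⊢
        omega
      have hda := dual_avg (p := p) (lc j) (fun l => if l < n then ev (zz t) (H (ν l)) else 0)
        (by
          intro i i' hii'
          by_cases h1 : i' < n
          · have h2 : i < n := lt_trans hii' h1
            simp only [if_pos h1, if_pos h2]
            intro k hk k' hk'
            have k1 := ((hS.ep i h2).sH k (ev_support _ _ hk)).2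
            have k2 := ((hS.ep i' h1).sH k' (ev_support _ _ hk')).1
            have k3 := hS.ba i i' hii' h1
            omega
          · simp only [if_neg h1]
            intro k hk k' hk'
            simp at hk')
        (by
          intro i hi z
          rw [← hn] at hi
          simp only [if_pos hi]
          exact hgl i hi z) y
      rw [← hn, ← hm, ← hR, ← hM] at hda
      have hQ : ‖∑ l ∈ range n, q l‖ ≤ R * M * A := by
        refine (norm_sum_le _ _).trans ?_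
        have k1 : ∑ l ∈ range n, ‖q l‖ = ∑ l ∈ range n,
            ‖pr (if l < n then ev (zz t) (H (ν l)) else 0) y‖ := by
          refine sum_congr rfl fun l hl => ?_
          rw [if_pos (mem_range.1 hl)]
        rw [k1]
        refine hda.trans ?_
        exact mul_le_mul_of_nonneg_left ((Lc_le_L p _ _).trans hL) (by positivity)
      calc ‖∑ l ∈ range n, q l‖ * exp 1 * ‖1 - zz t‖ ≤ (R * M * A) * exp 1 * 2 := by
            refine mul_le_mul (mul_le_mul_of_nonneg_right hQ he0.le) hz2 hz0 (by positivity)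
        _ = 2 * exp 1 * M * R * A := by ring
  · -- case (a)
    obtain ⟨h1, h2⟩ := tn_ne htn
    have hd := dd_pos p j
    have harc : Arc p j (zz t) := by
      rw [lt_div_iff₀ hd] at h1
      rw [div_lt_iff₀ hd] at h2
      exact ⟨hzz, by linarith, by linarith⟩
    have hpsi : psi p j (zz t) = 1 := chi_eq_one h1.le h2.le
    obtain ⟨k, hk⟩ := n_even p (lc j)
    rw [← hn] at hk
    have hS3 : S3 p H j (zz t) y ≤ A ^ 3 := by
      have k1 := nrm_arc (i0 := 0) (H := H) harc (Nat.zero_le j) y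
      rw [hpsi, one_mul] at k1
      have k2 : 0 ≤ Lf p y ^ 3 := pow_nonneg (Lf_nonneg' p y) 3
      have k3 : nrm p H 0 (zz t) y ^ 3 ≤ A ^ 3 := pow_le_pow_left₀ (nrm_nonneg' hzz y) hy 3
      linarith
    have hPE : ∑ i ∈ range k, ‖q (2 * i) + q (2 * i + 1)‖ ^ 3 ≤ A ^ 3 := by
      have hv := hS.val n le_rfl
      have k1 := PE_le_S3 harc hv (by rw [nodeL_length, hk]; exact even_two_mul k) y
      rw [hk, PE_nodeL] at k1
      exact k1.trans hS3
    have hQ : ‖∑ l ∈ range n, q l‖ ≤ R * A := by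
      rw [hk, sum_pairs]
      refine (norm_sum_le _ _).trans ?_
      refine cube_sum k _ (fun i => norm_nonneg _) A hA n ?_ hPE
      rw [hk]
      push_cast
      have : (0 : ℝ) ≤ k := Nat.cast_nonneg k
      linarith
    have hexp : exp ((1 / 6) * log m * tn (‖1 - zz t‖ / dd p j) + 1) ≤ M * exp 1 := by
      rw [exp_add, hMe]
      refine mul_le_mul_of_nonneg_right (exp_le_exp.2 ?_) he0.le
      have := tn_le_one (‖1 - zz t‖ / dd p j)
      have k1 : 0 ≤ (1 / 6) * log m := by positivity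
      nlinarith
    calc ‖∑ l ∈ range n, q l‖ * exp ((1 / 6) * log m * tn (‖1 - zz t‖ / dd p j) + 1) *
          ‖1 - zz t‖ ≤ (R * A) * (M * exp 1) * 2 := by
          refine mul_le_mul (mul_le_mul hQ hexp (exp_pos _).le (by positivity)) hz2 hz0
            (by positivity)
      _ = 2 * exp 1 * M * R * A := by ring

theorem lower_bound (p : Par) (H : ℕ → Pol) (j : ℕ) {ε : ℝ} (hε : ε ≤ 1 / 2) {u v x : ℕ → CV}
    {F : ℕ → Pol} {ν a b : ℕ → ℕ} (hS : Spec p H j ε u v x F ν a b) :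
    exp ((1 / 6) * log (p.m (lc j)) * ∫ t, tn (‖1 - zz t‖ / dd p j) ∂haar) *
        (p.n (lc j) : ℝ) ^ ((1 : ℝ) / 3) ≤
      12 * (p.m (lc j)) ^ ((1 : ℝ) / 6) *
        IN (WW p H 0) (∑ l ∈ range (p.n (lc j)), x l) := by
  have hW := fam_WW p H 0
  have hm0 := par_m_pos p (lc j)
  have hn0 := par_n_pos p (lc j)
  set n : ℕ := p.n (lc j) with hn
  set m : ℝ := p.m (lc j) with hm
  have hnR : (0 : ℝ) < n := by exact_mod_cast hn0
  have hM0 : 0 < m ^ ((1 : ℝ) / 6) := Real.rpow_pos_of_pos hm0 _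
  set g : TC → ℝ := fun t => (1 / 6) * log m * tn (‖1 - zz t‖ / dd p j) with hg
  have hgc : Continuous g :=
    continuous_const.mul (tn_cont.comp (((continuous_const.sub zz_cont).norm).div_const _))
  have hG : ∫ t, g t ∂haar = (1 / 6) * log m * ∫ t, tn (‖1 - zz t‖ / dd p j) ∂haar := by
    rw [hg, integral_const_mul]
  rw [← hG]
  set G : ℝ := ∫ t, g t ∂haar with hGdef
  obtain ⟨φ, hφ0, hφ⟩ := outer g hgc one_pos
  refine le_of_forall_pos_le_add fun δ hδ => ?_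
  set A : ℝ := IN (WW p H 0) (∑ l ∈ range n, x l) + δ / (12 * m ^ ((1 : ℝ) / 6)) with hA
  have hδ' : 0 < δ / (12 * m ^ ((1 : ℝ) / 6)) := by positivity
  have hA0 : 0 ≤ A := by
    have := IN_nonneg hW (∑ l ∈ range n, x l)
    linarith
  obtain ⟨P, hP0, hP⟩ := IN_exists hW (x := ∑ l ∈ range n, x l) (A := A) (by linarith)
  have hP' : ∀ t, nrm p H 0 (zz t) (ev (zz t) P) ≤ A := hP
  set Q : ℂ[X] := prP (∑ l ∈ range n, H (ν l)) P with hQ
  have hQe : ∀ τ : ℂ, Q.eval τ = ∑ l ∈ range n, pr (ev τ (H (ν l))) (ev τ P) := by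
    intro τ
    rw [hQ, prP_eval, ev_sum, pr_sum_left]
  -- the value at zero
  have hx : ∀ l < n, ∀ i ∈ (x l).support, a l ≤ i ∧ i < b l := by
    intro l hl i hi
    rw [← (hS.ep l hl).x0] at hi
    exact (hS.ep l hl).sF i (ev_support _ _ hi)
  have hH : ∀ l < n, ∀ i ∈ (ev 0 (H (ν l))).support, a l ≤ i ∧ i < b l := by
    intro l hl i hi
    exact (hS.ep l hl).sH i (ev_support _ _ hi)
  have hQ0 : Q.eval 0 = ∑ l ∈ range n, pr (ev 0 (H (ν l))) (x l) := by
    rw [hQe, hP0]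
    refine sum_congr rfl fun l hl => ?_
    have hl' := mem_range.1 hl
    rw [pr_sum_right]
    refine sum_eq_single l (fun k hk hkl => ?_) (fun h => absurd hl h)
    have hk' := mem_range.1 hk
    refine pr_eq_zero _ _ fun i hi hi' => ?_
    have k1 := hH l hl' i hi
    have k2 := hx k hk' i hi'
    rcases lt_or_gt_of_ne hkl with h | h
    · have := hS.ba k l h hl'
      omega
    · have := hS.ba l k h hk'
      omega
  have hQn : (n : ℝ) / 2 ≤ ‖Q.eval 0‖ := by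
    have k1 : ‖Q.eval 0 - (n : ℂ)‖ ≤ n * ε := by
      have e1 : Q.eval 0 - (n : ℂ) = ∑ l ∈ range n, (pr (ev 0 (H (ν l))) (x l) - 1) := by
        rw [hQ0, sum_sub_distrib, sum_const, card_range, nsmul_eq_mul, mul_one]
      rw [e1]
      refine (norm_sum_le _ _).trans ?_
      refine (sum_le_sum fun l hl => (hS.ep l (mem_range.1 hl)).val).trans ?_
      rw [sum_const, card_range, nsmul_eq_mul]
    have k2 : ‖(n : ℂ)‖ ≤ ‖Q.eval 0‖ + ‖Q.eval 0 - (n : ℂ)‖ := by
      have := norm_sub_le (Q.eval 0) (Q.eval 0 - (n : ℂ))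
      rwa [sub_sub_cancel] at this
    rw [Complex.norm_natCast] at k2
    have k3 : (n : ℝ) * ε ≤ n * (1 / 2) := mul_le_mul_of_nonneg_left hε hnR.le
    linarith
  -- the product
  set Pi0 : ℂ[X] := Q * (C ((exp G : ℝ) : ℂ) * φ) * (1 - X) with hPi0
  have hPi0e : ∀ τ : ℂ, Pi0.eval τ = Q.eval τ * (((exp G : ℝ) : ℂ) * φ.eval τ) * (1 - τ) := by
    intro τ
    rw [hPi0]
    simp
  have hbd : ∀ t : TC, ‖Pi0.eval (zz t)‖ ≤
      2 * exp 1 * m ^ ((1 : ℝ) / 6) * (n : ℝ) ^ ((2 : ℝ) / 3) * A := by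
    intro t
    have k1 := lower_key p H j hS t (ev (zz t) P) A hA0 (hP' t)
    rw [← hn, ← hm] at k1
    refine le_trans ?_ k1
    rw [hPi0e, norm_mul, norm_mul, norm_mul, hQe, Complex.norm_real,
      Real.norm_of_nonneg (exp_pos G).le]
    refine mul_le_mul_of_nonneg_right (mul_le_mul_of_nonneg_left ?_ (norm_nonneg _))
      (norm_nonneg _)
    calc exp G * ‖φ.eval (zz t)‖ ≤ exp G * exp (g t - G + 1) :=
          mul_le_mul_of_nonneg_left (hφ t) (exp_pos G).le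
      _ = exp (g t + 1) := by
          rw [← exp_add]
          congr 1
          ring
  have hmax := max_poly Pi0 hbd
  rw [hPi0e, hφ0, sub_zero, mul_one, mul_one, norm_mul, Complex.norm_real,
    Real.norm_of_nonneg (exp_pos G).le] at hmax
  have hfin : (n : ℝ) / 2 * exp G ≤
      2 * exp 1 * m ^ ((1 : ℝ) / 6) * (n : ℝ) ^ ((2 : ℝ) / 3) * A :=
    (mul_le_mul_of_nonneg_right hQn (exp_pos G).le).trans hmax
  have hsplit : (n : ℝ) = (n : ℝ) ^ ((1 : ℝ) / 3) * (n : ℝ) ^ ((2 : ℝ) / 3) := by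
    rw [← Real.rpow_add hnR]
    norm_num
  have hR0 : 0 < (n : ℝ) ^ ((2 : ℝ) / 3) := Real.rpow_pos_of_pos hnR _
  have he : exp 1 < 3 := by
    have := Real.exp_one_lt_d9
    linarith
  have hmain : exp G * (n : ℝ) ^ ((1 : ℝ) / 3) ≤ 12 * m ^ ((1 : ℝ) / 6) * A := by
    have k1 : (exp G * (n : ℝ) ^ ((1 : ℝ) / 3)) * (n : ℝ) ^ ((2 : ℝ) / 3) ≤
        (4 * exp 1 * m ^ ((1 : ℝ) / 6) * A) * (n : ℝ) ^ ((2 : ℝ) / 3) := by
      have e1 : (exp G * (n : ℝ) ^ ((1 : ℝ) / 3)) * (n : ℝ) ^ ((2 : ℝ) / 3) = n * exp G := by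
        nth_rewrite 3 [hsplit]
        ring
      rw [e1]
      linarith
    have k2 := le_of_mul_le_mul_right k1 hR0
    refine k2.trans ?_
    have k3 : 0 ≤ m ^ ((1 : ℝ) / 6) * A := by positivity
    nlinarith
  refine hmain.trans (le_of_eq ?_)
  rw [hA]
  field_simp

end Pool.Agent.HB
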