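import Pool.Agent.HB.H.Exact

/-!
# HB.H.Pair: exact pairs with functionals of the enumeration

PROOF.  `x, F, G, b` from `exact_real`, `c = 2 j0 + 3`.  Let `η ∈ (0, 1/2)` with `η ≤ ε/2`, `D` = number of coordinates of `G` plus `1`, and apply `DenseEnum` to
`(1-η) • G` with `ε'' > 0` such that `D ε'' (p.m c)^{1/6} ≤ η` (note `m ≥ 1`) and `D ε'' (1 + ∑ ‖x i‖) ≤ ε/2`: `n` with
`supp (H n) ⊆ supp G` and `|H n - (1-η) G| ≤ ε''` coordinatewise on `‖τ‖ ≤ 1`.
`g1`: `‖pr (ev (H n)) y‖ ≤ (1-η) Lc y + ε'' ∑_{i∈supp G} ‖y i‖ ≤ (1-η) Lc y + ε'' D m^{1/6} Lc y ≤ Lc y` (`coord_le_Lc`).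
`g2`: `≤ (1-η) n^{1/3} nrm y + ε'' D nrm y ≤ n nrm y` (`‖y i‖ ≤ Lf y ≤ nrm y`; `n ≥ 8`).
`val`: `|(1-η) - 1| + ε'' ∑_{i∈supp G} ‖x i‖ ≤ ε`.
-/

open Finset Polynomial

namespace Pool.Agent.HB

private theorem pair_diff {G Q : Pol} {η e : ℝ} {τ : ℂ} (hs : Q.support ⊆ G.support)
    (h : ∀ i, ‖ev τ Q i - ev τ (C ((1 - η : ℝ) : ℂ) • G) i‖ ≤ e) (y : CV) :
    ‖pr (ev τ Q) y - ((1 - η : ℝ) : ℂ) * pr (ev τ G) y‖ ≤ e * ∑ i ∈ G.support, ‖y i‖ := by
  rw [pr_eq_sum (ev τ Q) y G.support ((ev_support τ Q).trans hs),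
    pr_eq_sum (ev τ G) y G.support (ev_support τ G), Finset.mul_sum, ← Finset.sum_sub_distrib,
    Finset.mul_sum]
  refine (norm_sum_le _ _).trans (Finset.sum_le_sum fun i _ => ?_)
  have h1 := h i
  rw [ev_smul, eval_C, Finsupp.smul_apply, smul_eq_mul] at h1
  rw [← mul_assoc, ← sub_mul, norm_mul]
  exact mul_le_mul_of_nonneg_right h1 (norm_nonneg _)

theorem exact_pair (p : Par) (H : ℕ → Pol) (hH : DenseEnum H) (j0 : ℕ) (u : ℕ → CV) (hu : Blk u)
    (a : ℕ) {ε : ℝ} (hε : 0 < ε) :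
    ∃ (x : CV) (F : Pol) (n b : ℕ), x ∈ Sp u ∧ a ≤ b ∧ ExP p H (2 * j0 + 3) ε a b x F n := by
  obtain ⟨x, F, G, b, hx, hab, hF0, sF, sG, ex, up, g1, g2, hv⟩ := exact_real p H j0 u hu a
  set c := 2 * j0 + 3 with hc
  set s : ℝ := √(p.m c) with hs
  have hm1 : 1 ≤ p.m c := le_trans (one_le_pow₀ (by norm_num)) (par_m_ge p c)
  have hs1 : 1 ≤ s := Real.one_le_sqrt.2 hm1
  set D : ℝ := (G.support.card : ℝ) + 1 with hD
  have hD0 : 0 < D := by positivity
  set X : ℝ := 1 + ∑ i ∈ G.support, ‖x i‖ with hX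
  have hX0 : 0 < X := by
    have : 0 ≤ ∑ i ∈ G.support, ‖x i‖ := Finset.sum_nonneg fun i _ => norm_nonneg _
    linarith
  set η : ℝ := min (1 / 4) (ε / 2) with hη
  have hη0 : 0 < η := lt_min (by norm_num) (by positivity)
  have hη1 : η ≤ 1 / 4 := min_le_left _ _
  have hη2 : η ≤ ε / 2 := min_le_right _ _
  set e : ℝ := min (η / (D * s)) (ε / (2 * X)) with he
  have he0 : 0 < e := lt_min (by positivity) (by positivity)
  have he1 : e * (D * s) ≤ η := by
    have := min_le_left (η / (D * s)) (ε / (2 * X))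
    rwa [← he, le_div_iff₀ (by positivity)] at this
  have he2 : e * X ≤ ε / 2 := by
    have := min_le_right (η / (D * s)) (ε / (2 * X))
    rw [← he, le_div_iff₀ (by positivity)] at this
    linarith
  obtain ⟨n, hn1, hn2⟩ := hH (C ((1 - η : ℝ) : ℂ) • G) e he0
  have hsup : (H n).support ⊆ G.support := hn1.trans Finsupp.support_smul
  have key : ∀ τ : ℂ, ‖τ‖ ≤ 1 → ∀ y : CV,
      ‖pr (ev τ (H n)) y - ((1 - η : ℝ) : ℂ) * pr (ev τ G) y‖ ≤ e * ∑ i ∈ G.support, ‖y i‖ :=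
    fun τ hτ y => pair_diff hsup (hn2 τ hτ) y
  have hz : ∀ t : TC, ‖zz t‖ = 1 := fun t => by simp [zz]
  have hnη : ‖((1 - η : ℝ) : ℂ)‖ = 1 - η := by
    rw [Complex.norm_real, Real.norm_of_nonneg (by linarith)]
  have hbd : ∀ t : TC, ∀ y : CV, ‖pr (ev (zz t) (H n)) y‖ ≤
      (1 - η) * ‖pr (ev (zz t) G) y‖ + e * ∑ i ∈ G.support, ‖y i‖ := by
    intro t y
    have h1 := key (zz t) (hz t).le y
    have h2 := norm_sub_norm_le (pr (ev (zz t) (H n)) y)
      (((1 - η : ℝ) : ℂ) * pr (ev (zz t) G) y)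
    rw [norm_mul, hnη] at h2
    linarith
  refine ⟨x, F, n, b, hx, hab, ⟨hF0, sF, fun i hi => sG i (hsup hi), ex, up, ?_, ?_, ?_⟩⟩
  · intro t ht y
    have h1 := g1 t ht y
    have hL : 0 ≤ Lc p c y := LG_nonneg (good_gamc p c) y
    have hco : ∀ i, ‖y i‖ ≤ s * Lc p c y := by
      intro i
      refine le_of_pow_le_pow_left₀ (n := 3) (by norm_num) (by positivity) ?_
      refine (coord_le_Lc p c y i).trans ?_
      rw [mul_pow, ← hs]
      apply mul_le_mul_of_nonneg_right _ (by positivity)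
      calc s = s * 1 := (mul_one s).symm
        _ ≤ s * s ^ 2 := mul_le_mul_of_nonneg_left (one_le_pow₀ hs1) (by positivity)
        _ = s ^ 3 := by ring
    have h2 : ∑ i ∈ G.support, ‖y i‖ ≤ D * s * Lc p c y := by
      calc ∑ i ∈ G.support, ‖y i‖ ≤ ∑ _i ∈ G.support, s * Lc p c y :=
            Finset.sum_le_sum fun i _ => hco i
        _ = (G.support.card : ℝ) * (s * Lc p c y) := by rw [Finset.sum_const, nsmul_eq_mul]
        _ ≤ D * (s * Lc p c y) :=
            mul_le_mul_of_nonneg_right (by rw [hD]; linarith) (by positivity)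
        _ = _ := by ring
    calc ‖pr (ev (zz t) (H n)) y‖ ≤ (1 - η) * ‖pr (ev (zz t) G) y‖ +
          e * ∑ i ∈ G.support, ‖y i‖ := hbd t y
      _ ≤ (1 - η) * Lc p c y + e * (D * s * Lc p c y) :=
          add_le_add (mul_le_mul_of_nonneg_left h1 (by linarith))
            (mul_le_mul_of_nonneg_left h2 he0.le)
      _ = (1 - η) * Lc p c y + e * (D * s) * Lc p c y := by ring
      _ ≤ (1 - η) * Lc p c y + η * Lc p c y := by
          have := mul_le_mul_of_nonneg_right he1 hL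
          linarith
      _ = Lc p c y := by ring
  · intro t j ht hcj y
    have h1 := g2 t j ht hcj y
    have hN0 : 0 ≤ nrm p H 0 (zz t) y := nrm_nonneg' (hz t) y
    have hco : ∀ i, ‖y i‖ ≤ nrm p H 0 (zz t) y := fun i =>
      (coord_le_L p y i).trans (L_le_nrm (hz t) y)
    have h2 : ∑ i ∈ G.support, ‖y i‖ ≤ D * nrm p H 0 (zz t) y := by
      calc ∑ i ∈ G.support, ‖y i‖ ≤ ∑ _i ∈ G.support, nrm p H 0 (zz t) y :=
            Finset.sum_le_sum fun i _ => hco i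
        _ = (G.support.card : ℝ) * nrm p H 0 (zz t) y := by rw [Finset.sum_const, nsmul_eq_mul]
        _ ≤ D * nrm p H 0 (zz t) y :=
            mul_le_mul_of_nonneg_right (by rw [hD]; linarith) hN0
    have he3 : e * D ≤ 1 := by
      have : e * D * 1 ≤ e * D * s := mul_le_mul_of_nonneg_left hs1 (by positivity)
      nlinarith
    set r : ℝ := (p.n c : ℝ) ^ ((1 : ℝ) / 3) with hr
    have hn8 : (8 : ℝ) ≤ p.n c := by
      have h3 := par_m_le_n p c
      have h4 := par_m_ge p c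
      have h5 : (8 : ℝ) ≤ 2 ^ 100 := by norm_num
      linarith
    have hr3 : r ^ 3 = p.n c := by
      rw [hr, ← Real.rpow_natCast, ← Real.rpow_mul (Nat.cast_nonneg _)]
      norm_num
    have hr0 : 0 ≤ r := by positivity
    have hr2 : 2 ≤ r := by
      refine le_of_pow_le_pow_left₀ (n := 3) (by norm_num) hr0 ?_
      rw [hr3]
      linarith
    have hr4 : r + 1 ≤ p.n c := by
      rw [← hr3]
      nlinarith [mul_self_nonneg (r - 2), mul_nonneg hr0 (by linarith : (0:ℝ) ≤ r - 2)]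
    calc ‖pr (ev (zz t) (H n)) y‖ ≤ (1 - η) * ‖pr (ev (zz t) G) y‖ +
          e * ∑ i ∈ G.support, ‖y i‖ := hbd t y
      _ ≤ (1 - η) * (r * nrm p H 0 (zz t) y) + e * (D * nrm p H 0 (zz t) y) :=
          add_le_add (mul_le_mul_of_nonneg_left h1 (by linarith))
            (mul_le_mul_of_nonneg_left h2 he0.le)
      _ ≤ 1 * (r * nrm p H 0 (zz t) y) + (e * D) * nrm p H 0 (zz t) y := by
          have : (1 - η) * (r * nrm p H 0 (zz t) y) ≤ 1 * (r * nrm p H 0 (zz t) y) :=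
            mul_le_mul_of_nonneg_right (by linarith) (by positivity)
          linarith
      _ ≤ 1 * (r * nrm p H 0 (zz t) y) + 1 * nrm p H 0 (zz t) y := by
          have := mul_le_mul_of_nonneg_right he3 hN0
          linarith
      _ = (r + 1) * nrm p H 0 (zz t) y := by ring
      _ ≤ p.n c * nrm p H 0 (zz t) y := mul_le_mul_of_nonneg_right hr4 hN0
  · have h1 := key 0 (by simp) x
    rw [hv, mul_one] at h1
    have h2 : ‖((1 - η : ℝ) : ℂ) - 1‖ = η := by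
      rw [← Complex.ofReal_one, ← Complex.ofReal_sub, Complex.norm_real,
        Real.norm_of_nonpos (by linarith)]
      ring
    have h3 : ∑ i ∈ G.support, ‖x i‖ ≤ X := by rw [hX]; linarith
    calc ‖pr (ev 0 (H n)) x - 1‖ =
          ‖(pr (ev 0 (H n)) x - ((1 - η : ℝ) : ℂ)) + (((1 - η : ℝ) : ℂ) - 1)‖ := by ring_nf
      _ ≤ ‖pr (ev 0 (H n)) x - ((1 - η : ℝ) : ℂ)‖ + ‖((1 - η : ℝ) : ℂ) - 1‖ := norm_add_le _ _
      _ ≤ e * X + η := by
          rw [h2]
          have := mul_le_mul_of_nonneg_left h3 he0.le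
          linarith
      _ ≤ ε := by linarith

end Pool.Agent.HB
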