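import Pool.Agent.HB.H.AvgEx

/-!
# HB.H.Plain: plain pairs

PROOF.  `W = WW p H i0` (`fam_WW`).  `x q` from `avg_exists`, `Y = ∑ x q`, `IN W Y ≥ N^{1/3}/4`, `Z = N^{-1/3} • Y`, `IN W Z ≥ 1/4` (`IN_smul`).  Let `b` bound all
supports (`b > a`).  `dual_exists` for `Z`, `E = Ico a b`, `ε = 1/20`: `G`, `r ≥ 1/5`, `pr (ev 0 G) Z = r`.  For each `q` let `E q` be the order connected hull of
the support of `x q` (contained in `Ico a b`, successive); `IN_exists_supp` with `A = 2`: `F q`, `ev 0 (F q) = x q`, `W ≤ 2`, `res (E q) (F q) = F q`.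
Put `f q = (1/r) • F q` (complex scalar), `x = (1/r) • Z` (real scaling, in `Sp u`; `N^{-1/3}` is real): `W t (ev (f q)) ≤ 2/r ≤ 10`, `pr (ev 0 G) x = 1`,
`ev 0 (N^{-1/3} ∑ f q) = x`.
-/

open Finset Polynomial

namespace Pool.Agent.HB

private theorem plain_ev_smul (τ c : ℂ) (F : Pol) : ev τ (c • F) = c • ev τ F := by
  ext i
  rw [ev_apply, Finsupp.smul_apply, Finsupp.smul_apply, ev_apply, eval_smul]

theorem plain_pair (p : Par) (H : ℕ → Pol) (i0 : ℕ) (u : ℕ → CV) (hu : Blk u) (N a : ℕ)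
    (hN : 1 ≤ N) :
    ∃ (x : CV) (f : ℕ → Pol) (G : Pol) (b : ℕ), a < b ∧ x ∈ Sp u ∧
      (∀ q < N, ∀ i ∈ (f q).support, a ≤ i ∧ i < b) ∧
      (∀ q < N, ∀ q' < N, q < q' → Lt (f q) (f q')) ∧
      (∀ i ∈ G.support, a ≤ i ∧ i < b) ∧
      ev 0 ((((N : ℝ) ^ (-(1 : ℝ) / 3) : ℝ) : ℂ) • ∑ q ∈ range N, f q) = x ∧
      (∀ t, ∀ q < N, WW p H i0 t (ev (zz t) (f q)) ≤ 10) ∧
      (∀ t y, ‖pr (ev (zz t) G) y‖ ≤ WW p H i0 t y) ∧ pr (ev 0 G) x = 1 := by
  classical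
  have hW : Fam (WW p H i0) := fam_WW p H i0
  obtain ⟨x, hxS, hxI, hxL, hxa, hxN⟩ := avg_exists p H i0 u hu N a hN
  set W := WW p H i0 with hWdef
  set s : ℝ := (N : ℝ) ^ (-(1 : ℝ) / 3) with hs
  have hN0 : (0 : ℝ) < N := by exact_mod_cast hN
  have hs0 : 0 < s := Real.rpow_pos_of_pos hN0 _
  have hs3 : s ^ 3 * N = 1 := by
    rw [hs, ← Real.rpow_natCast, ← Real.rpow_mul hN0.le]
    norm_num
    rw [Real.rpow_neg_one]
    exact inv_mul_cancel₀ hN0.ne'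
  set Y : CV := ∑ q ∈ range N, x q with hY
  set Z : CV := (s : ℂ) • Y with hZ
  have hIZ : 1 / 4 ≤ IN W Z := by
    have h1 : IN W Z = s * IN W Y := by
      rw [hZ, IN_smul hW, Complex.norm_real, Real.norm_eq_abs, abs_of_pos hs0]
    have h2 : 0 ≤ IN W Y := IN_nonneg hW Y
    rw [h1]
    by_contra hc
    push Not at hc
    have h3 : (s * IN W Y) ^ 3 < (1 / 4) ^ 3 :=
      pow_lt_pow_left₀ hc (mul_nonneg hs0.le h2) (by norm_num)
    have h4 : s ^ 3 * N ≤ s ^ 3 * (64 * IN W Y ^ 3) :=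
      mul_le_mul_of_nonneg_left hxN (by positivity)
    rw [hs3] at h4
    have h5 : (s * IN W Y) ^ 3 = s ^ 3 * IN W Y ^ 3 := by ring
    rw [h5] at h3
    norm_num at h3
    linarith
  set S : ℕ := (range N).sup fun q => (x q).support.sup id with hS
  have hb : ∀ q < N, ∀ i ∈ (x q).support, i < a + S + 1 := by
    intro q hq i hi
    have h1 : i ≤ (x q).support.sup id := Finset.le_sup (f := id) hi
    have h2 : (x q).support.sup id ≤ S :=
      Finset.le_sup (f := fun q => (x q).support.sup id) (mem_range.2 hq)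
    omega
  have hYs : ∀ i ∈ Y.support, i ∈ Set.Ico a (a + S + 1) := by
    intro i hi
    have h1 := Finsupp.support_finset_sum hi
    rw [Finset.mem_biUnion] at h1
    obtain ⟨q, hq, hi'⟩ := h1
    exact ⟨hxa q (mem_range.1 hq) i hi', hb q (mem_range.1 hq) i hi'⟩
  have hZr : res (Set.Ico a (a + S + 1)) Z = Z := by
    rw [hZ, res_smul, res_eq_self _ Y hYs]
  obtain ⟨G, r, hG1, hG2, hG3, hG4⟩ := dual_exists hW Z (Set.Ico a (a + S + 1))
    Set.ordConnected_Ico hZr (ε := 1 / 20) (by norm_num)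
  have hr : 1 / 5 ≤ r := by linarith
  have hr0 : 0 < r := by linarith
  let E : ℕ → Set ℕ := fun q => {i | ∃ l ∈ (x q).support, ∃ m ∈ (x q).support, l ≤ i ∧ i ≤ m}
  have hE : ∀ q, (E q).OrdConnected := by
    intro q
    refine ⟨?_⟩
    rintro i ⟨l, hl, m, hm, h1, h2⟩ j ⟨l', hl', m', hm', h3, h4⟩ k ⟨hk1, hk2⟩
    exact ⟨l, hl, m', hm', h1.trans hk1, hk2.trans h4⟩
  have hEx : ∀ q, res (E q) (x q) = x q := fun q =>
    res_eq_self _ _ fun i hi => ⟨i, hi, i, hi, le_rfl, le_rfl⟩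
  have hF : ∀ q, ∃ F : Pol, q < N → ev 0 F = x q ∧ res (E q) F = F ∧
      ∀ t, W t (ev (zz t) F) ≤ 2 := by
    intro q
    by_cases hq : q < N
    · obtain ⟨F, h1, h2, h3⟩ := IN_exists_supp hW (x := x q) (A := 2)
        (by linarith [hxI q hq]) (E q) (hE q) (hEx q)
      exact ⟨F, fun _ => ⟨h1, h2, h3⟩⟩
    · exact ⟨0, fun h => absurd h hq⟩
  choose F hF using hF
  have hFs : ∀ q < N, ∀ i ∈ (F q).support, i ∈ E q := by
    intro q hq i hi
    rw [← (hF q hq).2.1] at hi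
    exact ((res_support _ _).1 hi).1
  have hfs : ∀ q < N, ∀ i ∈ (((1 / r : ℝ) : ℂ) • F q : Pol).support, i ∈ E q := by
    intro q hq i hi
    exact hFs q hq i (Finsupp.support_smul hi)
  refine ⟨((1 / r : ℝ) : ℂ) • Z, fun q => ((1 / r : ℝ) : ℂ) • F q, G, a + S + 1, by omega, ?_,
    ?_, ?_, ?_, ?_, ?_, hG2, ?_⟩
  · have h1 : ((1 / r : ℝ) : ℂ) • Z = ((1 / r * s : ℝ)) • Y := by
      rw [hZ, smul_smul]
      ext i
      simp
    rw [h1]
    exact Submodule.smul_mem _ _ (Submodule.sum_mem _ fun q hq => hxS q (mem_range.1 hq))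
  · intro q hq i hi
    obtain ⟨l, hl, m, hm, h1, h2⟩ := hfs q hq i hi
    exact ⟨(hxa q hq l hl).trans h1, h2.trans_lt (hb q hq m hm)⟩
  · intro q hq q' hq' hqq i hi j hj
    obtain ⟨l, hl, m, hm, h1, h2⟩ := hfs q hq i hi
    obtain ⟨l', hl', m', hm', h3, h4⟩ := hfs q' hq' j hj
    have := hxL q hq q' hq' hqq m hm l' hl'
    omega
  · intro i hi
    rw [← hG1] at hi
    exact ((res_support _ _).1 hi).1
  · rw [plain_ev_smul, ev_sum]
    have h1 : ∑ q ∈ range N, ev 0 (((1 / r : ℝ) : ℂ) • F q) = ((1 / r : ℝ) : ℂ) • Y := by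
      rw [hY, Finset.smul_sum]
      refine Finset.sum_congr rfl fun q hq => ?_
      rw [plain_ev_smul, (hF q (mem_range.1 hq)).1]
    rw [h1, hZ, smul_comm]
  · intro t q hq
    rw [plain_ev_smul, hW.smul, Complex.norm_real, Real.norm_eq_abs, abs_of_pos (by positivity)]
    have h1 := (hF q hq).2.2 t
    have h2 := hW.nn t (ev (zz t) (F q))
    rw [div_mul_eq_mul_div, one_mul, div_le_iff₀ hr0]
    linarith
  · rw [pr_smul_right, hG3, ← Complex.ofReal_mul, one_div, inv_mul_cancel₀ hr0.ne',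
      Complex.ofReal_one]

end Pool.Agent.HB
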