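import Pool.Agent.HB.T.Avg
import Pool.Agent.HB.T.Ris

/-!
# HB.H.RisPlain: plain averages of rapidly increasing lengths form a RIS

PROOF.  `Hom l` = the finite set of codes `c` with `m_c ≤ b_l 4^{l+2}` and `N_l < n_c²` (finite: `m` is strictly increasing, `m_c ≥ 2^c`);
`ε l c = b_l/m_c` if `b_l 4^{l+2} < m_c`, `0` otherwise.
* `TT (w l) ≤ 1 ≤ 2` (`avg_TT`), `w l ≥ 0`.
* good, `c ∉ Hom l`: if `m_c > b_l 4^{l+2}`: `Tc c (w l) ≤ (1/m_c) ∑_i w l i ≤ b_l/m_c` (`Tc_le_sum`; each coordinate is `≤ TT (w l) ≤ 1`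
  (`coord_le_TT`), at most `b_l` coordinates).  Otherwise `n_c² ≤ N_l` and `avg_Tc` gives `≤ 1/m_c + n_c/N_l ≤ 1/m_c + 1/n_c ≤ 2/m_c`.
* disjointness: `c ∈ Hom l ∩ Hom l'`, `l < l'`: `n_c² ≤ N_{l+1} ≤ N_{l'} < n_c²`, a contradiction.
* eps: `√(∑ ε²) ≤ ∑_{c∈C} ε l c ≤ b_l ∑_{c∈C, m_c > b_l 4^{l+2}} 1/m_c ≤ b_l · 2/m_{c0} ≤ 2 · 4^{-l-2}` (`par_sum_tail`, `c0` = least such code), and
  `∑_l 2 · 4^{-l-2} ≤ 2`.  (If `b_l = 0` then `w l = 0`, `ε = 0`.)
-/

open Finset

namespace Pool.Agent.HB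

private theorem rp_le_m (p : Par) (c : ℕ) : (c : ℝ) ≤ p.m c := by
  have h1 : c ≤ p.M c := (par_M_mono p).le_apply
  have h2 : p.M c < 2 ^ p.M c := Nat.lt_two_pow_self
  unfold Par.m
  have h3 : c ≤ 2 ^ p.M c := by omega
  exact_mod_cast h3

private theorem rp_sqrt_le_sum (C : Finset ℕ) {f : ℕ → ℝ} (h0 : ∀ c ∈ C, 0 ≤ f c) :
    √(∑ c ∈ C, f c ^ 2) ≤ ∑ c ∈ C, f c := by
  have h1 : 0 ≤ ∑ c ∈ C, f c := Finset.sum_nonneg h0
  rw [Real.sqrt_le_left h1, sq, Finset.sum_mul]
  refine Finset.sum_le_sum fun c hc => ?_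
  rw [sq]
  exact mul_le_mul_of_nonneg_left (Finset.single_le_sum (f := f) h0 hc) (h0 c hc)

private theorem rp_tail (p : Par) (C : Finset ℕ) (b : ℕ) (A : ℝ) (hA : 0 < A) :
    ∑ c ∈ C, (if (b : ℝ) * A < p.m c then (b : ℝ) / p.m c else 0) ≤ 2 / A := by
  classical
  rw [← Finset.sum_filter]
  rcases Nat.eq_zero_or_pos b with hb | hb
  · subst hb
    have : ∑ c ∈ C with (((0 : ℕ) : ℝ) * A < p.m c), ((0 : ℕ) : ℝ) / p.m c = 0 :=
      Finset.sum_eq_zero fun c _ => by simp
    rw [this]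
    positivity
  · have hb0 : (0 : ℝ) < b := by exact_mod_cast hb
    set D : Finset ℕ := C.filter fun c => (b : ℝ) * A < p.m c with hD
    rcases D.eq_empty_or_nonempty with he | hne
    · rw [he, Finset.sum_empty]
      positivity
    · have hmem := D.min'_mem hne
      have hc0 : (b : ℝ) * A < p.m (D.min' hne) := (Finset.mem_filter.1 hmem).2
      have h1 := par_sum_tail p D (D.min' hne) fun c hc => D.min'_le c hc
      have h2 : ∑ c ∈ D, (b : ℝ) / p.m c = b * ∑ c ∈ D, 1 / p.m c := by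
        rw [Finset.mul_sum]
        exact Finset.sum_congr rfl fun c _ => by ring
      rw [h2]
      calc (b : ℝ) * ∑ c ∈ D, 1 / p.m c ≤ b * (2 / p.m (D.min' hne)) := by gcongr
        _ ≤ b * (2 / (b * A)) := by gcongr
        _ = 2 / A := by field_simp

private theorem rp_geo (n : ℕ) : ∑ l ∈ range n, 2 / (4 : ℝ) ^ (l + 2) ≤ 2 := by
  have h : ∑ l ∈ range n, 2 / (4 : ℝ) ^ (l + 2) ≤ 1 / 6 * (1 - 1 / 4 ^ n) := by
    induction n with
    | zero => simp
    | succ n ih =>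
      rw [Finset.sum_range_succ]
      refine (add_le_add_left ih _).trans (le_of_eq ?_)
      rw [pow_add, pow_succ]
      field_simp
      ring
  have h2 : (0 : ℝ) ≤ 1 / 4 ^ n := by positivity
  linarith

theorem ris_plain (p : Par) (n : ℕ) (N b : ℕ → ℕ) (hN : ∀ l, 1 ≤ N l)
    (hmono : ∀ l, N l ≤ N (l + 1))
    (hb : ∀ l, ∀ c, p.m c ≤ (b l : ℝ) * 4 ^ (l + 2) → (p.n c) ^ 2 ≤ N (l + 1))
    (w : ℕ → RV) (v : ℕ → ℕ → RV)
    (hw : ∀ l < n, w l = (1 / (N l : ℝ)) • ∑ q ∈ range (N l), v l q)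
    (hv0 : ∀ l < n, ∀ q < N l, 0 ≤ v l q)
    (hvs : ∀ l < n, ∀ q < N l, ∀ q' < N l, q < q' → Lt (v l q) (v l q'))
    (hvT : ∀ l < n, ∀ q < N l, TT p (v l q) ≤ 1)
    (hvb : ∀ l < n, ∀ q < N l, ∀ i ∈ (v l q).support, i < b l)
    (hws : ∀ l < n, ∀ l' < n, l < l' → Lt (w l) (w l')) :
    ∃ (Hom : ℕ → Finset ℕ) (ε : ℕ → ℕ → ℝ), RIS p 2 (range n) w Hom ε := by
  classical
  refine ⟨fun l => (range (b l * 4 ^ (l + 2) + 1)).filter fun c =>
      p.m c ≤ (b l : ℝ) * 4 ^ (l + 2) ∧ N l < (p.n c) ^ 2,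
    fun l c => if (b l : ℝ) * 4 ^ (l + 2) < p.m c then (b l : ℝ) / p.m c else 0, ?_⟩
  have hN0 : ∀ l, (0 : ℝ) < N l := fun l => by exact_mod_cast hN l
  have hmonoN : Monotone N := monotone_nat_of_le_succ hmono
  have hw0 : ∀ l < n, 0 ≤ w l := by
    intro l hl
    rw [hw l hl]
    refine smul_nonneg (by positivity) (Finset.sum_nonneg fun q hq => hv0 l hl q (mem_range.1 hq))
  have hwT : ∀ l < n, TT p (w l) ≤ 1 := by
    intro l hl
    rw [hw l hl]
    exact avg_TT (N l) (hN l) (v l) fun q hq => hvT l hl q hq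
  have hwb : ∀ l < n, ∀ i ∈ (w l).support, i < b l := by
    intro l hl i hi
    by_contra hcon
    apply Finsupp.mem_support_iff.1 hi
    rw [hw l hl, Finsupp.smul_apply, Finsupp.finsetSum_apply]
    rw [Finset.sum_eq_zero, smul_zero]
    intro q hq
    by_contra hne
    exact hcon (hvb l hl q (mem_range.1 hq) i (Finsupp.mem_support_iff.2 hne))
  refine ⟨?_, ?_, ?_, ?_, ?_, ?_, ?_⟩
  · intro l hl
    exact hw0 l (mem_range.1 hl)
  · intro l hl l' hl' hll
    exact hws l (mem_range.1 hl) l' (mem_range.1 hl') hll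
  · intro l hl
    have := hwT l (mem_range.1 hl)
    linarith
  · intro l hl c hc
    have hl' := mem_range.1 hl
    have hm := par_m_pos p c
    have hnp : (0 : ℝ) < p.n c := by exact_mod_cast par_n_pos p c
    by_cases hbig : (b l : ℝ) * 4 ^ (l + 2) < p.m c
    · rw [if_pos hbig]
      have h1 := Tc_le_sum (p := p) (hw0 l hl') c
      have h2 : ∑ i ∈ (w l).support, w l i ≤ b l := by
        calc ∑ i ∈ (w l).support, w l i ≤ ∑ i ∈ (w l).support, (1 : ℝ) :=
              Finset.sum_le_sum fun i _ => (coord_le_TT (w l) i).trans (hwT l hl')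
          _ = ((w l).support.card : ℝ) := by rw [sum_const, nsmul_eq_mul, mul_one]
          _ ≤ b l := by
              have : (w l).support ⊆ range (b l) := fun i hi => mem_range.2 (hwb l hl' i hi)
              have h3 := Finset.card_le_card this
              rw [card_range] at h3
              exact_mod_cast h3
      have h3 : (1 / p.m c) * ∑ i ∈ (w l).support, w l i ≤ (b l : ℝ) / p.m c := by
        rw [one_div, inv_mul_eq_div]
        gcongr
      have h4 : 0 ≤ 2 / p.m c := by positivity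
      linarith
    · rw [if_neg hbig, add_zero]
      push Not at hbig
      have hlt : c ∈ range (b l * 4 ^ (l + 2) + 1) := by
        rw [mem_range]
        have h1 := (rp_le_m p c).trans hbig
        have h2 : c ≤ b l * 4 ^ (l + 2) := by exact_mod_cast h1
        omega
      have hnN : (p.n c) ^ 2 ≤ N l := by
        by_contra hcon
        push Not at hcon
        exact hc (mem_filter.2 ⟨hlt, hbig, hcon⟩)
      have h1 := avg_Tc (p := p) (N l) (hN l) (v l) (fun q hq => hv0 l hl' q hq)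
        (fun q hq q' hq' h => hvs l hl' q hq q' hq' h) (fun q hq => hvT l hl' q hq) c
      rw [← hw l hl'] at h1
      have h2 : (p.n c : ℝ) / N l ≤ 1 / p.m c := by
        have h3 : ((p.n c : ℝ)) ^ 2 ≤ N l := by exact_mod_cast hnN
        have h4 := par_m_le_n p c
        rw [div_le_div_iff₀ (hN0 l) hm]
        nlinarith
      have h5 : 2 / p.m c = 1 / p.m c + 1 / p.m c := by ring
      linarith
  · intro l hl l' hl' hne
    have key : ∀ l l' : ℕ, l < l' → ∀ c, p.m c ≤ (b l : ℝ) * 4 ^ (l + 2) →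
        N l' < (p.n c) ^ 2 → False := by
      intro l l' hll c h1 h2
      have h3 := hb l c h1
      have h4 : N (l + 1) ≤ N l' := hmonoN hll
      omega
    rw [Finset.disjoint_left]
    intro c h1 h2
    rw [mem_filter] at h1 h2
    rcases lt_or_gt_of_ne hne with h | h
    · exact key l l' h c h1.2.1 h2.2.2
    · exact key l' l h c h2.2.1 h1.2.2
  · intro l c
    have hm := par_m_pos p c
    split_ifs
    · positivity
    · exact le_rfl
  · intro C
    refine le_trans (Finset.sum_le_sum fun l _ => ?_) (rp_geo n)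
    refine (rp_sqrt_le_sum C ?_).trans (rp_tail p C (b l) (4 ^ (l + 2)) (by positivity))
    intro c _
    have hm := par_m_pos p c
    split_ifs
    · positivity
    · exact le_rfl

end Pool.Agent.HB
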