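import Pool.Agent.HB.H.Plain
import Pool.Agent.HB.H.RisPlain

/-!
# HB.H.Seq: sequences of plain pairs of rapidly increasing lengths

PROOF.  Recursive choice: `a 0 = a`, `N 0 = 1`; given `a l`, `N l` apply `plain_pair` with `N = N l`, `a = a l` to get `x l, f l, G l, b l`; then
`a (l+1) = b l` and `N (l+1)` = an integer `≥ N l` and `≥ (p.n c)^2` for the finitely many codes `c` with `p.m c ≤ b l * 4^(l+2)`.
(Recursion over `ℕ` with a structure/sigma type for the state `(a l, N l)`, using `Classical.choose`.)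
-/

open Finset Polynomial

namespace Pool.Agent.HB

private theorem seq_key (p : Par) (B : ℝ) : ∀ c, p.m c ≤ B → p.n c ^ 2 ≤ p.n ⌈B⌉₊ ^ 2 := by
  intro c hc
  have h1 : (c : ℝ) ≤ B := by
    have h0 : c ≤ p.M c := (par_M_mono p).le_apply
    have h2 : (c : ℝ) ≤ (2 : ℝ) ^ (p.M c) := by
      exact_mod_cast (h0.trans (Nat.lt_two_pow_self).le)
    exact h2.trans hc
  have h3 : c ≤ ⌈B⌉₊ := by exact_mod_cast (h1.trans (Nat.le_ceil B))
  exact Nat.pow_le_pow_left (par_n_mono p h3) 2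

theorem seq_exists (p : Par) (H : ℕ → Pol) (i0 : ℕ) (u : ℕ → CV) (hu : Blk u) (a0 : ℕ) :
    ∃ (x : ℕ → CV) (f : ℕ → ℕ → Pol) (G : ℕ → Pol) (a b N : ℕ → ℕ), a 0 = a0 ∧
      (∀ l, 1 ≤ N l) ∧ (∀ l, N l ≤ N (l + 1)) ∧
      (∀ l, ∀ c, p.m c ≤ (b l : ℝ) * 4 ^ (l + 2) → (p.n c) ^ 2 ≤ N (l + 1)) ∧
      (∀ l, a l < b l) ∧ (∀ l, b l = a (l + 1)) ∧
      ∀ l, x l ∈ Sp u ∧
      (∀ q < N l, ∀ i ∈ (f l q).support, a l ≤ i ∧ i < b l) ∧
      (∀ q < N l, ∀ q' < N l, q < q' → Lt (f l q) (f l q')) ∧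
      (∀ i ∈ (G l).support, a l ≤ i ∧ i < b l) ∧
      ev 0 ((((N l : ℝ) ^ (-(1 : ℝ) / 3) : ℝ) : ℂ) • ∑ q ∈ range (N l), f l q) = x l ∧
      (∀ t, ∀ q < N l, WW p H i0 t (ev (zz t) (f l q)) ≤ 10) ∧
      (∀ t y, ‖pr (ev (zz t) (G l)) y‖ ≤ WW p H i0 t y) ∧ pr (ev 0 (G l)) (x l) = 1 := by
  have hP : ∀ s : {s : ℕ × ℕ // 1 ≤ s.2}, _ :=
    fun s => plain_pair p H i0 u hu s.1.2 s.1.1 s.2
  choose x f G b h using hP
  let st : ℕ → {s : ℕ × ℕ // 1 ≤ s.2} := fun l =>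
    Nat.rec ⟨(a0, 1), le_rfl⟩ (fun l s =>
      ⟨(b s, max s.1.2 (p.n ⌈(b s : ℝ) * 4 ^ (l + 2)⌉₊ ^ 2)), le_max_of_le_left s.2⟩) l
  refine ⟨fun l => x (st l), fun l => f (st l), fun l => G (st l), fun l => (st l).1.1,
    fun l => b (st l), fun l => (st l).1.2, rfl, fun l => (st l).2, fun l => le_max_left _ _,
    fun l c hc => (seq_key p _ c hc).trans (le_max_right _ _), fun l => (h (st l)).1,
    fun l => rfl, fun l => (h (st l)).2⟩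

end Pool.Agent.HB
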