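import Pool.Agent.HB.H.ExLem

/-!
# HB.H.Upper1: the special norm of weighted sums of a special sequence

`n = p.n (lc j)`, `c_l = code j (nodeL ν l)`, `V = ∑_{l<n} θ l • ev (zz t) (F l)`, `‖θ l‖ ≤ 76`.
PROOF.
* (tiny) if `σ : List ℕ`, `σ ≠ nodeL ν l` for all `l < n` then `c = code j σ` is different from all the `c_l` (`code_inj`), `c ≥ 2j+3`, `c_l ≥ 2j+3`, so
  `Lc p c (ev (F l))^6 ≤ 28·10⁶ / p.m (2j+3)` by `ex_Lc` (if `c < c_l`; `p.m c ≥ p.m (2j+3)`) or `ex_Lc'` (if `c_l < c`); `p.m (2j+3) ≥ n^20` (`par_n_pow_le (2j+2)`), hence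
  `Lc p c (ev (F l)) ≤ 1/(76 n³)` (`76^6 n^18 · 28·10^6 ≤ n^20` as `n ≥ 2^100`: `par_m_le_n`, `par_m_ge`) and `Lc p c V ≤ 1/n²` (`LG_sum_le`, `LG_smul`).
  Note `(nodeL ν l).length = l`, so for a list `σ` of length `L < n`: `σ ≠ nodeL ν L` implies `σ ≠ nodeL ν l` for all `l`.
* (dev) `Lc p c_l V ≤ 76 · 19 + 1/n² ≤ 1445` for `l < n` (the terms `l' ≠ l` as above, `c_l ≠ c_l'`; the term `l` by `Lc_le_L`, `ex_L'`).
* claim: for `Val p H j σ`, `Even σ.length`:
  `PE H (zz t) V σ ≤ σ.length / n + (if σ = nodeL ν σ.length then 0 else 2890³)`.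
  Induction: `σ = []`: `0`.  `s' :: s :: σ`, `L = σ.length`, `L + 2 ≤ n` (`Val`).  By `Val`, `‖pr (H s) V‖ ≤ Lc (code j σ) V`, `‖pr (H s') V‖ ≤ Lc (code j (s :: σ)) V`.
  - `σ ≠ nodeL ν L`: both `≤ 1/n²`, `(2/n²)³ ≤ 2/n`.
  - `σ = nodeL ν L`, `s ≠ ν L`: `≤ 1445 + 1/n² ≤ 2890`.
  - `s :: σ = nodeL ν (L+1)`, `s' ≠ ν (L+1)`: `≤ 1445 + 1445 = 2890`.
  - `s' :: s :: σ = nodeL ν (L+2)`: `hq` with `2 i = L`: the pair is `≤ 1/n`, cube `≤ 2/n`.
* `ZZ3 = sup ≤ 1 + 2890³ ≤ 3·10^10`.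
-/

open Finset Polynomial

namespace Pool.Agent.HB

theorem nodeL_length (ν : ℕ → ℕ) (l : ℕ) : (nodeL ν l).length = l := by
  induction l with
  | zero => rfl
  | succ l ih =>
    show (ν l :: nodeL ν l).length = l + 1
    rw [List.length_cons, ih]

private theorem up1_N (p : Par) (j : ℕ) : (2 : ℝ) ^ 100 ≤ (p.n (lc j) : ℝ) :=
  (par_m_ge p (lc j)).trans (par_m_le_n p (lc j))

private theorem up1_m (p : Par) (j c : ℕ) (hc : 2 * j + 3 ≤ c) :
    (p.n (lc j) : ℝ) ^ 20 ≤ p.m c :=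
  (par_n_pow_le p (2 * j + 2)).trans (par_m_mono p hc)

private theorem up1_code (j : ℕ) (σ : List ℕ) : 2 * j + 3 ≤ code j σ := by
  unfold code
  omega

/-- a code different from the one of the vector gives a tiny value -/
private theorem up1_tiny {p : Par} {H : ℕ → Pol} {j : ℕ} {ε : ℝ} {u v x : ℕ → CV} {F : ℕ → Pol}
    {ν a b : ℕ → ℕ} (hS : Spec p H j ε u v x F ν a b) (t : TC) {l : ℕ} (hl : l < p.n (lc j))
    {c : ℕ} (hc : 2 * j + 3 ≤ c) (hne : c ≠ code j (nodeL ν l)) :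
    Lc p c (ev (zz t) (F l)) ≤ 1 / (76 * (p.n (lc j) : ℝ) ^ 3) := by
  have hN := up1_N p j
  set N : ℝ := (p.n (lc j) : ℝ) with hNdef
  have hN0 : 0 < N := lt_of_lt_of_le (by positivity) hN
  have hex := (hS.ep l hl).ex t
  have hL0 : 0 ≤ Lc p c (ev (zz t) (F l)) := LG_nonneg (good_gamc p c) _
  have key : ∀ c', 2 * j + 3 ≤ c' → ∀ K : ℝ, 0 ≤ K → K ≤ 28 * 10 ^ 6 →
      K / p.m c' ≤ 28 * 10 ^ 6 / N ^ 20 := by
    intro c' hc' K hK0 hK
    have h1 : N ^ 20 ≤ p.m c' := up1_m p j c' hc'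
    exact div_le_div₀ (by norm_num) hK (by positivity) h1
  have h6 : Lc p c (ev (zz t) (F l)) ^ 6 ≤ 28 * 10 ^ 6 / N ^ 20 := by
    rcases lt_or_gt_of_ne hne with h | h
    · exact (ex_Lc hex h).trans (key c hc _ (by norm_num) le_rfl)
    · exact (ex_Lc' hex h).trans (key _ (up1_code j _) _ (by norm_num) (by norm_num))
  have h7 : 28 * 10 ^ 6 / N ^ 20 ≤ (1 / (76 * N ^ 3)) ^ 6 := by
    have h8 : (76 : ℝ) ^ 6 * (28 * 10 ^ 6) ≤ N ^ 2 := by
      have h9 : ((2 : ℝ) ^ 100) ^ 2 ≤ N ^ 2 := pow_le_pow_left₀ (by positivity) hN 2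
      have h10 : (76 : ℝ) ^ 6 * (28 * 10 ^ 6) ≤ ((2 : ℝ) ^ 100) ^ 2 := by norm_num
      exact h10.trans h9
    have e1 : (1 / (76 * N ^ 3)) ^ 6 = 1 / (76 ^ 6 * N ^ 18) := by
      rw [div_pow, one_pow, mul_pow, ← pow_mul]
    rw [e1, div_le_div_iff₀ (by positivity) (by positivity), one_mul]
    calc 28 * 10 ^ 6 * (76 ^ 6 * N ^ 18) = (76 ^ 6 * (28 * 10 ^ 6)) * N ^ 18 := by ring
      _ ≤ N ^ 2 * N ^ 18 := mul_le_mul_of_nonneg_right h8 (by positivity)
      _ = N ^ 20 := by ring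
  exact le_of_pow_le_pow_left₀ (n := 6) (by norm_num) (by positivity) (h6.trans h7)

/-- the code norms of the weighted sum -/
private theorem up1_LcV {p : Par} {H : ℕ → Pol} {j : ℕ} {ε : ℝ} {u v x : ℕ → CV} {F : ℕ → Pol}
    {ν a b : ℕ → ℕ} (hS : Spec p H j ε u v x F ν a b) (t : TC)
    (θ : ℕ → ℂ) (hθ : ∀ l < p.n (lc j), ‖θ l‖ ≤ 76) (V : CV)
    (hV : V = ∑ l ∈ range (p.n (lc j)), θ l • ev (zz t) (F l)) (σ : List ℕ) :
    Lc p (code j σ) V ≤ 1 / (p.n (lc j) : ℝ) ^ 2 +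
      (if σ = nodeL ν σ.length then 1444 else 0) := by
  have hN := up1_N p j
  set N : ℝ := (p.n (lc j) : ℝ) with hNdef
  have hN0 : 0 < N := lt_of_lt_of_le (by positivity) hN
  have hg := good_gamc p (code j σ)
  have h1 : Lc p (code j σ) V ≤
      ∑ l ∈ range (p.n (lc j)), Lc p (code j σ) (θ l • ev (zz t) (F l)) := by
    rw [hV]
    exact LG_sum_le hg _ _
  have h2 : ∀ l ∈ range (p.n (lc j)), Lc p (code j σ) (θ l • ev (zz t) (F l)) ≤
      1 / N ^ 3 + (if l = σ.length then (if σ = nodeL ν σ.length then 1444 else 0) else 0) := by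
    intro l hl
    have hl' := mem_range.1 hl
    have hL0 : 0 ≤ Lc p (code j σ) (ev (zz t) (F l)) := LG_nonneg hg _
    have e : Lc p (code j σ) (θ l • ev (zz t) (F l)) =
        ‖θ l‖ * Lc p (code j σ) (ev (zz t) (F l)) := LG_smul hg _ _
    rw [e]
    by_cases hc : code j σ = code j (nodeL ν l)
    · have hσ : σ = nodeL ν l := code_inj j hc
      have hlen : l = σ.length := by rw [hσ, nodeL_length]
      have hσ' : σ = nodeL ν σ.length := by rw [← hlen]; exact hσ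
      rw [if_pos hlen, if_pos hσ']
      have h3 : Lc p (code j σ) (ev (zz t) (F l)) ≤ 19 :=
        (Lc_le_L p _ _).trans (ex_L' ((hS.ep l hl').ex t))
      have h4 : ‖θ l‖ * Lc p (code j σ) (ev (zz t) (F l)) ≤ 76 * 19 :=
        mul_le_mul (hθ l hl') h3 hL0 (by norm_num)
      have h5 : 0 ≤ 1 / N ^ 3 := by positivity
      linarith
    · have h3 := up1_tiny hS t hl' (up1_code j σ) hc
      have h4 : ‖θ l‖ * Lc p (code j σ) (ev (zz t) (F l)) ≤ 76 * (1 / (76 * N ^ 3)) :=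
        mul_le_mul (hθ l hl') h3 hL0 (by norm_num)
      have h5 : (76 : ℝ) * (1 / (76 * N ^ 3)) = 1 / N ^ 3 := by
        field_simp
      have h6 : (0 : ℝ) ≤ (if l = σ.length then (if σ = nodeL ν σ.length then 1444 else 0)
          else 0) := by
        split_ifs <;> norm_num
      linarith
  have h3 := Finset.sum_le_sum h2
  rw [Finset.sum_add_distrib, Finset.sum_const, card_range, nsmul_eq_mul] at h3
  have h4 : (p.n (lc j) : ℝ) * (1 / N ^ 3) = 1 / N ^ 2 := by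
    rw [← hNdef]
    field_simp
  have h5 : ∑ l ∈ range (p.n (lc j)),
      (if l = σ.length then (if σ = nodeL ν σ.length then (1444 : ℝ) else 0) else 0) ≤
      (if σ = nodeL ν σ.length then 1444 else 0) := by
    rw [Finset.sum_ite_eq']
    split_ifs <;> norm_num
  rw [h4] at h3
  linarith

private theorem up1_PE {p : Par} {H : ℕ → Pol} {j : ℕ} {ν : ℕ → ℕ} (t : TC)
    (ht : Arc p j (zz t)) (V : CV)
    (hLc : ∀ σ : List ℕ, Lc p (code j σ) V ≤ 1 / (p.n (lc j) : ℝ) ^ 2 +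
      (if σ = nodeL ν σ.length then 1444 else 0))
    (hq : ∀ i, 2 * i + 1 < p.n (lc j) →
      ‖pr (ev (zz t) (H (ν (2 * i)))) V + pr (ev (zz t) (H (ν (2 * i + 1)))) V‖ ≤
        1 / (p.n (lc j) : ℝ)) :
    ∀ σ : List ℕ, Val p H j σ → Even σ.length →
      PE H (zz t) V σ ≤ (σ.length : ℝ) / (p.n (lc j) : ℝ) +
        (if σ = nodeL ν σ.length then 0 else 2890 ^ 3)
  | [], _, _ => by
    show (0 : ℝ) ≤ _
    have : (([] : List ℕ) = nodeL ν ([] : List ℕ).length) := rfl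
    rw [if_pos this]
    simp
  | [_], _, he => by
    simp at he
  | s' :: s :: σ, h, he => by
    have hN := up1_N p j
    set N : ℝ := (p.n (lc j) : ℝ) with hNdef
    have hN1 : 1 ≤ N := le_trans (by norm_num) hN
    have hN0 : 0 < N := by linarith
    obtain ⟨⟨hσ, -, -, hs⟩, hlen, -, hs'⟩ := h
    have he' : Even σ.length := by
      simp only [List.length_cons] at he
      rcases he with ⟨k, hk⟩
      exact ⟨k - 1, by omega⟩
    have IH := up1_PE t ht V hLc hq σ hσ he'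
    have hA : ‖pr (ev (zz t) (H s)) V‖ ≤ 1 / N ^ 2 +
        (if σ = nodeL ν σ.length then 1444 else 0) := (hs _ ht V).trans (hLc σ)
    have hA' : ‖pr (ev (zz t) (H s')) V‖ ≤ 1 / N ^ 2 +
        (if s :: σ = nodeL ν (s :: σ).length then 1444 else 0) := (hs' _ ht V).trans (hLc (s :: σ))
    have hpair := norm_add_le (pr (ev (zz t) (H s')) V) (pr (ev (zz t) (H s)) V)
    have hlen' : σ.length + 2 ≤ p.n (lc j) := by
      simp only [List.length_cons] at hlen
      omega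
    have hL : ((s' :: s :: σ).length : ℝ) / N = (σ.length : ℝ) / N + 2 / N := by
      simp only [List.length_cons]
      push_cast
      ring
    have hinv2 : 1 / N ^ 2 ≤ 1 / N := by
      refine one_div_le_one_div_of_le hN0 ?_
      nlinarith
    have hinv1 : 1 / N ≤ 1 := by
      rw [div_le_one hN0]
      exact hN1
    have hinv0 : 0 < 1 / N := by positivity
    have h2N : 2 / N = 2 * (1 / N) := by ring
    show ‖pr (ev (zz t) (H s')) V + pr (ev (zz t) (H s)) V‖ ^ 3 + PE H (zz t) V σ ≤ _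
    rw [hL]
    have hn0 := norm_nonneg (pr (ev (zz t) (H s')) V + pr (ev (zz t) (H s)) V)
    by_cases hfull : s' :: s :: σ = nodeL ν (s' :: s :: σ).length
    · rw [if_pos hfull]
      have h1 : s' :: s :: σ = ν (σ.length + 1) :: ν σ.length :: nodeL ν σ.length := hfull
      rw [List.cons.injEq, List.cons.injEq] at h1
      obtain ⟨h1, h2, h3⟩ := h1
      rw [if_pos h3] at IH
      obtain ⟨i, hi⟩ := he'
      have h4 := hq i (by omega)
      have e1 : 2 * i = σ.length := by omega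
      rw [e1, ← h1, ← h2, add_comm (pr _ _)] at h4
      have h5 : ‖pr (ev (zz t) (H s')) V + pr (ev (zz t) (H s)) V‖ ^ 3 ≤ (1 / N) ^ 3 :=
        pow_le_pow_left₀ hn0 h4 3
      have h6 : (1 / N) ^ 3 ≤ 1 / N := by
        have := pow_le_of_le_one hinv0.le hinv1 (n := 3) (by norm_num)
        exact this
      rw [h2N]
      linarith
    · rw [if_neg hfull]
      by_cases hσ' : σ = nodeL ν σ.length
      · rw [if_pos hσ'] at IH hA
        have h1 : ‖pr (ev (zz t) (H s')) V‖ ≤ 1 / N ^ 2 + 1444 := by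
          refine hA'.trans ?_
          split_ifs <;> linarith
        have hsmall : 1 / N ^ 2 ≤ 1 := hinv2.trans hinv1
        have h2 : ‖pr (ev (zz t) (H s')) V + pr (ev (zz t) (H s)) V‖ ≤ 2890 := by linarith
        have h3 := pow_le_pow_left₀ hn0 h2 3
        rw [h2N]
        linarith
      · rw [if_neg hσ'] at IH hA
        have hs2 : ¬ (s :: σ = nodeL ν (s :: σ).length) := by
          intro h1
          have h2 : s :: σ = ν σ.length :: nodeL ν σ.length := h1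
          rw [List.cons.injEq] at h2
          exact hσ' h2.2
        rw [if_neg hs2] at hA'
        have h1 : ‖pr (ev (zz t) (H s')) V + pr (ev (zz t) (H s)) V‖ ≤ 2 / N ^ 2 := by
          have : 2 / N ^ 2 = 1 / N ^ 2 + 1 / N ^ 2 := by ring
          rw [this]
          linarith
        have h2 := pow_le_pow_left₀ hn0 h1 3
        have h3 : (2 / N ^ 2) ^ 3 ≤ 2 / N := by
          rw [div_pow, div_le_div_iff₀ (by positivity) hN0]
          have h4 : (4 : ℝ) ≤ N ^ 5 := by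
            have h5 : ((2 : ℝ) ^ 100) ^ 5 ≤ N ^ 5 := pow_le_pow_left₀ (by positivity) hN 5
            have h6 : (4 : ℝ) ≤ ((2 : ℝ) ^ 100) ^ 5 := by norm_num
            exact h6.trans h5
          calc (2 : ℝ) ^ 3 * N = 2 * (4 * N) := by ring
            _ ≤ 2 * (N ^ 5 * N) :=
                mul_le_mul_of_nonneg_left (mul_le_mul_of_nonneg_right h4 hN0.le) (by norm_num)
            _ = 2 * (N ^ 2) ^ 3 := by ring
        linarith

theorem ZZ_bound {p : Par} {H : ℕ → Pol} {j : ℕ} {ε : ℝ} {u v x : ℕ → CV} {F : ℕ → Pol}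
    {ν a b : ℕ → ℕ} (hS : Spec p H j ε u v x F ν a b) (t : TC) (ht : Arc p j (zz t))
    (θ : ℕ → ℂ) (hθ : ∀ l < p.n (lc j), ‖θ l‖ ≤ 76) (V : CV)
    (hV : V = ∑ l ∈ range (p.n (lc j)), θ l • ev (zz t) (F l))
    (hq : ∀ i, 2 * i + 1 < p.n (lc j) →
      ‖pr (ev (zz t) (H (ν (2 * i)))) V + pr (ev (zz t) (H (ν (2 * i + 1)))) V‖ ≤
        1 / (p.n (lc j) : ℝ)) :
    ZZ3 p H j (zz t) V ≤ 3 * 10 ^ 10 := by
  have hLc := up1_LcV hS t θ hθ V hV
  have hPE := up1_PE t ht V hLc hq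
  have hN := up1_N p j
  have hN0 : (0 : ℝ) < (p.n (lc j) : ℝ) := lt_of_lt_of_le (by positivity) hN
  unfold ZZ3
  apply csSup_le
  · exact ⟨_, [], trivial, by simp, rfl⟩
  · rintro r ⟨σ, hσ, he, rfl⟩
    have h1 := hPE σ hσ he
    have h2 : (σ.length : ℝ) / (p.n (lc j) : ℝ) ≤ 1 := by
      rw [div_le_one hN0]
      exact_mod_cast val_length hσ
    have h4 : (2890 : ℝ) ^ 3 + 1 ≤ 3 * 10 ^ 10 := by norm_num
    split_ifs at h1 <;> linarith

end Pool.Agent.HB
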